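import Mathlib

/-!
# Branching programs: deterministic, randomized, nondeterministic

Programs reading `n` Boolean variables, with `T` steps (length `T`) and `w` states per level
(width `w`, that is space `log2 w`).  No restriction on which variables are read when: the variable
read in a step depends on the state.
-/

namespace Pool.Agent.LT

/-- an input: an assignment of `n` Boolean variables -/
abbrev Inp (n : ℕ) := Fin n → Bool

/-- A deterministic (layered) branching program on `n` Boolean variables, of length `T` and width
`w`: in step `i` and state `s` it reads the variable `var i s` and moves to the state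
`next i s b`, where `b` is the value read; after step `T` it accepts iff `acc` holds. -/
structure Prog (n T w : ℕ) where
  start : Fin w
  var : Fin T → Fin w → Fin n
  next : Fin T → Fin w → Bool → Fin w
  acc : Fin w → Bool

/-- the state of the program before step `i` (states do not change after step `T`) -/
def Prog.state {n T w : ℕ} (P : Prog n T w) (x : Inp n) : ℕ → Fin w
  | 0 => P.start
  | i + 1 => if h : i < T then
      P.next ⟨i, h⟩ (P.state x i) (x (P.var ⟨i, h⟩ (P.state x i))) else P.state x i

/-- the output of the program -/
def Prog.eval {n T w : ℕ} (P : Prog n T w) (x : Inp n) : Bool := P.acc (P.state x T)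

/-- a program of length `n` is one-pass if its step `i` reads the variable `x_i` -/
def Prog.OnePass {n w : ℕ} (P : Prog n n w) : Prop := ∀ i s, P.var i s = i

/-- `f` is computed by a deterministic program of length `T` and width `w` -/
def Det {n : ℕ} (f : Inp n → Bool) (T w : ℕ) : Prop :=
  ∃ P : Prog n T w, ∀ x, P.eval x = f x

/-- `f` is computed with one-sided error: the program may depend on `ρ` uniform random bits `c`;
if `f x = 1` it accepts with probability at least `1/2`, if `f x = 0` it never accepts. -/
def OneSided {n : ℕ} (f : Inp n → Bool) (T w : ℕ) : Prop :=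
  ∃ (ρ : ℕ) (P : (Fin ρ → Bool) → Prog n T w),
    (∀ x, f x = true → 2 ^ ρ ≤ 2 * (Finset.univ.filter fun c => (P c).eval x = true).card) ∧
    ∀ x, f x = false → ∀ c, (P c).eval x = false

/-- one-sided error, with one-pass programs -/
def OneSidedOnePass {n : ℕ} (f : Inp n → Bool) (w : ℕ) : Prop :=
  ∃ (ρ : ℕ) (P : (Fin ρ → Bool) → Prog n n w), (∀ c, (P c).OnePass) ∧
    (∀ x, f x = true → 2 ^ ρ ≤ 2 * (Finset.univ.filter fun c => (P c).eval x = true).card) ∧
    ∀ x, f x = false → ∀ c, (P c).eval x = false

/-- `f` is computed with two-sided error `1/3` -/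
def TwoSided {n : ℕ} (f : Inp n → Bool) (T w : ℕ) : Prop :=
  ∃ (ρ : ℕ) (P : (Fin ρ → Bool) → Prog n T w),
    ∀ x, 2 * 2 ^ ρ ≤ 3 * (Finset.univ.filter fun c => (P c).eval x = f x).card

/-- A nondeterministic (layered) branching program. -/
structure NProg (n T w : ℕ) where
  start : Fin w → Prop
  var : Fin T → Fin w → Fin n
  next : Fin T → Fin w → Bool → Fin w → Prop
  acc : Fin w → Prop

/-- `P` has an accepting path on the input `x` -/
def NProg.Accepts {n T w : ℕ} (P : NProg n T w) (x : Inp n) : Prop :=
  ∃ p : ℕ → Fin w, P.start (p 0) ∧
    (∀ i : Fin T, P.next i (p i) (x (P.var i (p i))) (p (i + 1))) ∧ P.acc (p T)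

/-- `f` is computed by a nondeterministic one-pass program of width `w` -/
def NondetOnePass {n : ℕ} (f : Inp n → Bool) (w : ℕ) : Prop :=
  ∃ P : NProg n n w, (∀ i s, P.var i s = i) ∧ ∀ x, f x = true ↔ P.Accepts x

end Pool.Agent.LT
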