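import Pool.Agent.Lib.MP_b573ec_lc_LT.Defs

/-!
# Auxiliary definitions for the lower bounds (not used in the final statements)
-/

namespace Pool.Agent.LT

open Finset Polynomial

/-- base of the scales -/
def Q0 (k E : ℕ) : ℕ := 16 * k * 4 ^ k * E

/-- bound for `Q ^ (2k)` at all scales `Q = Q0 ^ (2m+1)`, `m < 4k^2` -/
def RR (k E : ℕ) : ℕ := (Q0 k E) ^ (16 * k ^ 3)

/-- number of types -/
def typ (k E : ℕ) : ℕ := 8 * k ^ 3 * (Nat.log 2 (8 * k * RR k E) + 1)

/-- the variables of `U` all of whose blocks have colour `c` -/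
def afoot {n r : ℕ} (Lay : Fin n → Finset (Fin r)) (F : Fin r → ℕ) (U : Finset (Fin n))
    (c : ℕ) : Finset (Fin n) := U.filter fun v => ∀ l ∈ Lay v, F l = c

/-- the exceptional variables -/
def abad {n r : ℕ} (Lay : Fin n → Finset (Fin r)) (F : Fin r → ℕ) (U : Finset (Fin n))
    (j : ℕ) : Finset (Fin n) :=
  U.filter fun v => ((Lay v).card < j ∧ ((∀ l ∈ Lay v, F l = 0) ∨ ∀ l ∈ Lay v, F l = 1)) ∨
    (j < (Lay v).card ∧ ∀ l ∈ Lay v, F l < 2)

/-- the fibres of the hash on every large subcube are small -/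
def GoodHash {n : ℕ} {W : Type} [AddCommGroup W] [DecidableEq W] (γ : Fin n → W) (D g : ℕ) :
    Prop :=
  ∀ A : Finset (Fin n), 2 * D ≤ A.card → ∀ (x : Inp n) (z : W),
    (univ.filter fun y : Inp n => (∀ v, v ∉ A → y v = x v) ∧ hash γ y = z).card * 2 ^ D ≤
      2 ^ (A.card + g)

/-- the polynomial with the coefficients `c` -/
noncomputable def cpoly {K : Type} [Field K] {m : ℕ} (c : Fin m → K) : K[X] :=
  ∑ i, C (c i) * X ^ (i : ℕ)

/-- the cubic relation -/
def Cub {K : Type} [Field K] {m : ℕ} (p : (Fin m → K) × (Fin (3 * m) → K)) : Prop :=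
  cpoly p.2 = cpoly p.1 ^ 3

/-- the deficit of the distribution of `h i (t)`, `i ∈ I` uniform, from the uniform one -/
noncomputable def deficit {K : Type} [Field K] [Fintype K] [DecidableEq K] {ι : Type} {m : ℕ}
    (I : Finset ι) (h : ι → Fin m → K) (t : K) : ℝ :=
  ∑ y : K, max 0 (1 / (Fintype.card K : ℝ) -
    ((I.filter fun i => (cpoly (h i)).eval t = y).card : ℝ) / I.card)

/-- `f` is computed with two-sided error at most `2 ^ (-s)` -/
def SmallErr {n : ℕ} (f : Inp n → Bool) (T w s : ℕ) : Prop :=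
  ∃ (ρ : ℕ) (P : (Fin ρ → Bool) → Prog n T w),
    ∀ x, (univ.filter fun c => (P c).eval x ≠ f x).card * 2 ^ s ≤ 2 ^ ρ

end Pool.Agent.LT
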