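import Mathlib
import Pool.Agent.Lib.MP_b573ec_lc_LT.Defs2

/-!
# The cubic relation (module M8)
-/

namespace Pool.Agent.LT

open Finset Polynomial

namespace CubicAux

variable {K : Type} [Field K]

theorem coeff_cpoly {m : ℕ} (c : Fin m → K) (j : ℕ) :
    (cpoly c).coeff j = if h : j < m then c ⟨j, h⟩ else 0 := by
  unfold cpoly
  rw [finsetSum_coeff]
  simp only [coeff_C_mul_X_pow]
  by_cases h : j < m
  · rw [dif_pos h, Finset.sum_eq_single ⟨j, h⟩]
    · rw [if_pos rfl]
    · intro i _ hi
      rw [if_neg]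
      intro hji
      exact hi (Fin.ext hji.symm)
    · intro hn
      exact absurd (mem_univ _) hn
  · rw [dif_neg h]
    refine Finset.sum_eq_zero fun i _ => ?_
    rw [if_neg]
    intro hji
    exact h (hji ▸ i.2)

theorem cpoly_inj {m : ℕ} : Function.Injective (cpoly : (Fin m → K) → K[X]) := by
  intro c d h
  funext i
  have h1 := congrArg (fun p : K[X] => p.coeff i) h
  simp only [coeff_cpoly, i.2, dif_pos] at h1
  exact h1

theorem cpoly_add {m : ℕ} (c d : Fin m → K) : cpoly (c + d) = cpoly c + cpoly d := by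
  unfold cpoly
  rw [← Finset.sum_add_distrib]
  refine Finset.sum_congr rfl fun i _ => ?_
  rw [Pi.add_apply, C_add, add_mul]

theorem degree_cpoly {m : ℕ} (c : Fin m → K) : (cpoly c).degree < m := by
  rw [degree_lt_iff_coeff_zero]
  intro j hj
  rw [coeff_cpoly, dif_neg (not_lt.2 hj)]

theorem exists_cpoly {m : ℕ} (p : K[X]) (hp : p.degree < m) : ∃ c : Fin m → K, cpoly c = p := by
  refine ⟨fun i => p.coeff i, ?_⟩
  ext j
  rw [coeff_cpoly]
  by_cases h : j < m
  · rw [dif_pos h]
  · rw [dif_neg h]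
    exact ((degree_lt_iff_coeff_zero p m).1 hp j (not_lt.1 h)).symm

theorem degree_cube {m : ℕ} (c : Fin m → K) : (cpoly c ^ 3).degree < ((3 * m : ℕ) : WithBot ℕ) := by
  by_cases h : cpoly c = 0
  · rw [h, zero_pow (by norm_num), degree_zero]
    exact WithBot.bot_lt_coe _
  · have h1 : (cpoly c).natDegree < m := (natDegree_lt_iff_degree_lt h).2 (degree_cpoly c)
    rw [← natDegree_lt_iff_degree_lt (pow_ne_zero 3 h), natDegree_pow]
    omega

end CubicAux

open CubicAux

section Cubic

variable {K : Type} [Field K]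

theorem card_cub [Fintype K] [DecidableEq K] (m : ℕ) :
    Nat.card {p : (Fin m → K) × (Fin (3 * m) → K) // Cub p} = Fintype.card K ^ m := by
  choose g hg using fun c : Fin m → K => exists_cpoly (cpoly c ^ 3) (degree_cube c)
  have e : {p : (Fin m → K) × (Fin (3 * m) → K) // Cub p} ≃ (Fin m → K) :=
    { toFun := fun p => p.1.1
      invFun := fun c => ⟨(c, g c), hg c⟩
      left_inv := by
        rintro ⟨⟨c, d⟩, h⟩
        refine Subtype.ext (Prod.ext rfl ?_)
        exact cpoly_inj ((hg c).trans h.symm)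
      right_inv := fun c => rfl }
  rw [Nat.card_congr e, Nat.card_eq_fintype_card, Fintype.card_fun, Fintype.card_fin]

theorem cub_rect [CharP K 2] {m : ℕ} (a : Fin 3 → (Fin m → K) × (Fin (3 * m) → K))
    (b : Fin 2 → (Fin m → K) × (Fin (3 * m) → K)) (ha : Function.Injective a)
    (hb : Function.Injective b) (h : ∀ i j, Cub (a i + b j)) : False := by
  have h2 : (2 : K[X]) = 0 := by
    have : ((2 : ℕ) : K[X]) = 0 := CharP.cast_eq_zero K[X] 2
    exact_mod_cast this
  have e : ∀ i j, cpoly (a i).2 + cpoly (b j).2 = (cpoly (a i).1 + cpoly (b j).1) ^ 3 := by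
    intro i j
    have h1 := h i j
    unfold Cub at h1
    rw [Prod.fst_add, Prod.snd_add, cpoly_add, cpoly_add] at h1
    exact h1
  have hA : ∀ i i', cpoly (a i).1 = cpoly (a i').1 → i = i' := by
    intro i i' hi
    refine ha (Prod.ext (cpoly_inj hi) (cpoly_inj ?_))
    have h1 := e i 0
    rw [hi, ← e i' 0] at h1
    exact add_right_cancel h1
  have hB : cpoly (b 0).1 - cpoly (b 1).1 ≠ 0 := by
    intro hi
    have hi' := sub_eq_zero.1 hi
    have h3 : (0 : Fin 2) = 1 := by
      refine hb (Prod.ext (cpoly_inj hi') (cpoly_inj ?_))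
      have h1 := e 0 0
      rw [hi', ← e 0 1] at h1
      exact add_left_cancel h1
    exact absurd h3 (by decide)
  have key : ∀ i i', i ≠ i' →
      cpoly (a i).1 - cpoly (a i').1 + (cpoly (b 0).1 - cpoly (b 1).1) = 0 := by
    intro i i' hi
    have h1 : (cpoly (a i).1 - cpoly (a i').1) * (cpoly (b 0).1 - cpoly (b 1).1) *
        (cpoly (a i).1 - cpoly (a i').1 + (cpoly (b 0).1 - cpoly (b 1).1)) = 0 := by
      have e1 := e i 0
      have e2 := e i' 0
      have e3 := e i 1
      have e4 := e i' 1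
      linear_combination -e1 + e2 + e3 - e4 -
        ((cpoly (a i).1 - cpoly (a i').1) * (cpoly (b 0).1 - cpoly (b 1).1) *
        (cpoly (a i).1 - cpoly (a i').1 + (cpoly (b 0).1 - cpoly (b 1).1)) +
        3 * (cpoly (a i).1 - cpoly (a i').1) * (cpoly (b 0).1 - cpoly (b 1).1) *
          (cpoly (a i').1 + cpoly (b 1).1)) * h2
    rcases mul_eq_zero.1 h1 with h3 | h3
    · rcases mul_eq_zero.1 h3 with h4 | h4
      · exact absurd (hA i i' (sub_eq_zero.1 h4)) hi
      · exact absurd h4 hB
    · exact h3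
  have k1 := key 0 1 (by decide)
  have k2 := key 0 2 (by decide)
  have h3 : cpoly (a 1).1 = cpoly (a 2).1 := by
    linear_combination k2 - k1
  exact absurd (hA 1 2 h3) (by decide)

theorem cub_root [Fintype K] [DecidableEq K] {m : ℕ} (p : (Fin m → K) × (Fin (3 * m) → K))
    (hp : ¬ Cub p) :
    (univ.filter fun t : K => (cpoly p.2).eval t = (cpoly p.1).eval t ^ 3).card < 3 * m := by
  have hq : cpoly p.2 - cpoly p.1 ^ 3 ≠ 0 := fun h => hp (sub_eq_zero.1 h)
  have hdeg : (cpoly p.2 - cpoly p.1 ^ 3).natDegree < 3 * m := by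
    rw [natDegree_lt_iff_degree_lt hq]
    exact lt_of_le_of_lt (degree_sub_le _ _) (max_lt (degree_cpoly _) (degree_cube _))
  have hsub : (univ.filter fun t : K => (cpoly p.2).eval t = (cpoly p.1).eval t ^ 3) ⊆
      (cpoly p.2 - cpoly p.1 ^ 3).roots.toFinset := by
    intro t ht
    rw [mem_filter] at ht
    rw [Multiset.mem_toFinset, mem_roots hq, IsRoot.def, eval_sub, eval_pow, ht.2, sub_self]
  calc (univ.filter fun t : K => (cpoly p.2).eval t = (cpoly p.1).eval t ^ 3).card
      ≤ (cpoly p.2 - cpoly p.1 ^ 3).roots.toFinset.card := card_le_card hsub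
    _ ≤ Multiset.card (cpoly p.2 - cpoly p.1 ^ 3).roots := Multiset.toFinset_card_le _
    _ ≤ (cpoly p.2 - cpoly p.1 ^ 3).natDegree := card_roots' _
    _ < 3 * m := hdeg

end Cubic

end Pool.Agent.LT
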