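import Pool.Agent.Lib.MP_b573ec_lc_LT.Defs2

/-!
# A program cut into blocks of `L` steps is a block system
-/

namespace Pool.Agent.LT

open Finset Polynomial

namespace BlocksAux

variable {n T w : ℕ} (P : Prog n T w)

/-- the variables read at level `i` in state `s`, with `n` fictitious levels after level `T` -/
def rdS (i : ℕ) (s : Fin w) : Finset (Fin n) :=
  if h : i < T then {P.var ⟨i, h⟩ s} else if h' : i < T + n then {⟨i - T, by omega⟩} else ∅

/-- one step -/
def stp (i : ℕ) (s : Fin w) (x : Inp n) : Fin w :=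
  if h : i < T then P.next ⟨i, h⟩ s (x (P.var ⟨i, h⟩ s)) else s

/-- `j` steps from state `s` at level `i` -/
def run (i : ℕ) (s : Fin w) (x : Inp n) : ℕ → Fin w
  | 0 => s
  | j + 1 => stp P (i + j) (run i s x j) x

/-- the variables read in these steps -/
def rds (i : ℕ) (s : Fin w) (x : Inp n) (j : ℕ) : Finset (Fin n) :=
  (range j).biUnion fun t => rdS P (i + t) (run P i s x t)

theorem state_succ (x : Inp n) (i : ℕ) : P.state x (i + 1) = stp P i (P.state x i) x := rfl

theorem run_state (x : Inp n) (i j : ℕ) : run P i (P.state x i) x j = P.state x (i + j) := by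
  induction j with
  | zero => rfl
  | succ j ih =>
    change stp P (i + j) (run P i (P.state x i) x j) x = P.state x (i + j + 1)
    rw [ih, state_succ]

theorem stp_dep (i : ℕ) (s : Fin w) (x y : Inp n) (h : ∀ v ∈ rdS P i s, x v = y v) :
    stp P i s y = stp P i s x := by
  unfold stp
  by_cases hi : i < T
  · rw [dif_pos hi, dif_pos hi, h]
    unfold rdS
    rw [dif_pos hi]
    exact mem_singleton_self _
  · rw [dif_neg hi, dif_neg hi]

theorem run_dep (i : ℕ) (s : Fin w) (x y : Inp n) (j : ℕ)
    (h : ∀ v ∈ rds P i s x j, x v = y v) : ∀ t ≤ j, run P i s y t = run P i s x t := by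
  intro t
  induction t with
  | zero => intro _; rfl
  | succ t ih =>
    intro ht
    change stp P (i + t) (run P i s y t) y = stp P (i + t) (run P i s x t) x
    rw [ih (Nat.le_of_succ_le ht)]
    refine stp_dep P _ _ x y fun v hv => h v ?_
    exact mem_biUnion.2 ⟨t, mem_range.2 ht, hv⟩

theorem rds_dep (i : ℕ) (s : Fin w) (x y : Inp n) (j : ℕ)
    (h : ∀ v ∈ rds P i s x j, x v = y v) : rds P i s y j = rds P i s x j := by
  unfold rds
  refine Finset.biUnion_congr rfl fun t ht => ?_
  rw [run_dep P i s x y j h t (mem_range.1 ht).le]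

theorem card_rdS (i : ℕ) (s : Fin w) :
    (rdS P i s).card ≤ if i < T + n then 1 else 0 := by
  unfold rdS
  by_cases h : i < T
  · rw [dif_pos h, if_pos (by omega), card_singleton]
  · rw [dif_neg h]
    by_cases h' : i < T + n
    · rw [dif_pos h', if_pos h', card_singleton]
    · rw [dif_neg h', if_neg h', card_empty]

theorem sum_blocks (f : ℕ → ℕ) (L r : ℕ) :
    ∑ l ∈ range r, ∑ t ∈ range L, f (l * L + t) = ∑ i ∈ range (r * L), f i := by
  induction r with
  | zero => simp
  | succ r ih => rw [sum_range_succ, ih, Nat.succ_mul, ← sum_range_add]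

/-- the block system -/
def sys (L : ℕ) : BlockSys n w where
  start := P.start
  rd l s x := rds P (l * L) s x L
  nx l s x := run P (l * L) s x L
  dep_rd l s x y h := rds_dep P (l * L) s x y L h
  dep_nx l s x y h := run_dep P (l * L) s x y L h L le_rfl

theorem tr_sys (L : ℕ) (x : Inp n) (l : ℕ) : (sys P L).tr x l = P.state x (l * L) := by
  induction l with
  | zero => rw [Nat.zero_mul]; rfl
  | succ l ih =>
    change run P (l * L) ((sys P L).tr x l) x L = P.state x ((l + 1) * L)
    rw [ih, run_state, Nat.succ_mul]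

theorem state_add (x : Inp n) (j : ℕ) : P.state x (T + j) = P.state x T := by
  induction j with
  | zero => rfl
  | succ j ih =>
    rw [← add_assoc, state_succ, stp, dif_neg (by omega), ih]

end BlocksAux

open BlocksAux in
theorem exists_blockSys {n T w : ℕ} (P : Prog n T w) (L r : ℕ) (hL : 1 ≤ L)
    (hr : T + n ≤ r * L) :
    ∃ B : BlockSys n w, (∀ x l, (B.R x l).card ≤ L) ∧ (∀ x v, (B.Lay r x v).Nonempty) ∧
      (∀ x, ∑ v, (B.Lay r x v).card ≤ T + n) ∧
      ∀ x y, B.tr x r = B.tr y r → P.eval x = P.eval y := by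
  have hcard : ∀ (i : ℕ) (s : Fin w) (x : Inp n), (rds P i s x L).card ≤
      ∑ t ∈ range L, if i + t < T + n then 1 else 0 := fun i s x =>
    card_biUnion_le.trans (sum_le_sum fun t _ => card_rdS P _ _)
  refine ⟨sys P L, fun x l => ?_, fun x v => ?_, fun x => ?_, fun x y h => ?_⟩
  · refine (hcard _ _ _).trans ?_
    refine (sum_le_card_nsmul _ _ 1 fun t _ => ?_).trans ?_
    · split_ifs <;> omega
    · simp
  · have hlt : (T + v) / L < r := by
      rw [Nat.div_lt_iff_lt_mul (by omega)]
      have := v.2
      omega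
    refine ⟨⟨(T + v) / L, hlt⟩, ?_⟩
    unfold BlockSys.Lay
    rw [mem_filter]
    refine ⟨mem_univ _, ?_⟩
    refine mem_biUnion.2 ⟨(T + v) % L, mem_range.2 (Nat.mod_lt _ (by omega)), ?_⟩
    have e : (T + v) / L * L + (T + v) % L = T + v := Nat.div_add_mod' _ _
    change v ∈ rdS P ((T + v) / L * L + (T + v) % L) _
    rw [e]
    unfold rdS
    have hv := v.2
    rw [dif_neg (by omega), dif_pos (by omega), mem_singleton]
    ext
    simp
  · have e1 : ∑ v, ((sys P L).Lay r x v).card = ∑ l : Fin r, ((sys P L).R x l).card := by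
      have h1 : ∀ v, ((sys P L).Lay r x v).card =
          ∑ l : Fin r, if v ∈ (sys P L).R x l then 1 else 0 := fun v => by
        unfold BlockSys.Lay
        rw [card_filter]
      have h2 : ∀ l : Fin r, ((sys P L).R x l).card =
          ∑ v, if v ∈ (sys P L).R x l then 1 else 0 := fun l => by
        rw [← card_filter]
        congr 1
        ext v
        simp
      rw [sum_congr rfl fun v _ => h1 v, sum_comm, sum_congr rfl fun l _ => h2 l]
    rw [e1]
    calc ∑ l : Fin r, ((sys P L).R x l).card
        ≤ ∑ l : Fin r, ∑ t ∈ range L, if (l : ℕ) * L + t < T + n then 1 else 0 :=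
          sum_le_sum fun l _ => hcard _ _ _
      _ = ∑ l ∈ range r, ∑ t ∈ range L, if l * L + t < T + n then 1 else 0 :=
          (Finset.sum_range fun l => ∑ t ∈ range L, if l * L + t < T + n then 1 else 0).symm
      _ = ∑ i ∈ range (r * L), if i < T + n then 1 else 0 :=
          sum_blocks (fun i => if i < T + n then 1 else 0) L r
      _ = ((range (r * L)).filter fun i => i < T + n).card := (card_filter _ _).symm
      _ ≤ (range (T + n)).card := card_le_card fun i hi => mem_range.2 (mem_filter.1 hi).2
      _ = T + n := card_range _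
  · rw [tr_sys, tr_sys] at h
    have e : r * L = T + (r * L - T) := by omega
    rw [e, state_add, state_add] at h
    unfold Prog.eval
    rw [h]

end Pool.Agent.LT
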