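import Pool.Agent.Lib.MP_b573ec_lc_LT.Defs2

/-!
# Profile: a scale at which one multiplicity dominates
-/

namespace Pool.Agent.LT

open Finset Polynomial

namespace ProfileAux

/-- number of `v` with `f v = i` -/
def cnt {n : ℕ} (f : Fin n → ℕ) (i : ℕ) : ℕ := (univ.filter fun v => f v = i).card

theorem sum_le_cnt {n : ℕ} (f : Fin n → ℕ) (S : Finset (Fin n)) (t : Finset ℕ)
    (hS : ∀ v ∈ S, f v ∈ t) (g : ℕ → ℝ) (hg : ∀ i, 0 ≤ g i) :
    ∑ v ∈ S, g (f v) ≤ ∑ i ∈ t, (cnt f i : ℝ) * g i := by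
  rw [← Finset.sum_fiberwise_of_maps_to hS]
  apply Finset.sum_le_sum
  intro i _
  have h1 : ∑ x ∈ S with f x = i, g (f x) = ((S.filter fun x => f x = i).card : ℝ) * g i := by
    rw [Finset.sum_congr rfl (g := fun _ => g i)]
    · rw [Finset.sum_const, nsmul_eq_mul]
    · intro x hx
      rw [(Finset.mem_filter.mp hx).2]
  rw [h1]
  apply mul_le_mul_of_nonneg_right _ (hg i)
  have : (S.filter fun x => f x = i).card ≤ cnt f i :=
    Finset.card_le_card (Finset.filter_subset_filter _ (Finset.subset_univ S))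
  exact_mod_cast this

theorem exists_i0 (n k : ℕ) (hn : 1 ≤ n) (f : Fin n → ℕ)
    (hf : ∀ v, 1 ≤ f v) (hsum : ∑ v, f v ≤ k * n) :
    ∃ i ∈ Finset.Icc 1 (2 * k), n ≤ 4 * k * cnt f i := by
  by_contra hcon
  push Not at hcon
  -- few variables have multiplicity `> 2k`
  have h1 : (univ.filter fun v => 2 * k < f v).card * (2 * k + 1) ≤ k * n := by
    refine le_trans ?_ hsum
    calc (univ.filter fun v => 2 * k < f v).card * (2 * k + 1)
        = ∑ v ∈ univ.filter (fun v => 2 * k < f v), (2 * k + 1) := by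
          rw [Finset.sum_const, smul_eq_mul]
      _ ≤ ∑ v ∈ univ.filter (fun v => 2 * k < f v), f v := by
          apply Finset.sum_le_sum
          intro v hv
          exact (Finset.mem_filter.mp hv).2
      _ ≤ ∑ v, f v := Finset.sum_le_sum_of_subset (Finset.filter_subset _ _)
  have h2 : (univ.filter fun v => f v ≤ 2 * k).card + (univ.filter fun v => 2 * k < f v).card
      = n := by
    have := Finset.card_filter_add_card_filter_not (s := (univ : Finset (Fin n)))
      (fun v => f v ≤ 2 * k)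
    simp only [not_le, Finset.card_univ, Fintype.card_fin] at this
    exact this
  have h3 : (univ.filter fun v => f v ≤ 2 * k).card = ∑ i ∈ Finset.Icc 1 (2 * k), cnt f i := by
    rw [Finset.card_eq_sum_card_fiberwise (f := f) (t := Finset.Icc 1 (2 * k))]
    · apply Finset.sum_congr rfl
      intro i hi
      unfold cnt
      congr 1
      ext v
      simp only [Finset.mem_filter, Finset.mem_univ, true_and]
      constructor
      · intro h; exact h.2
      · intro h
        exact ⟨h ▸ (Finset.mem_Icc.mp hi).2, h⟩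
    · intro v hv
      have hv' : v ∈ univ.filter fun v => f v ≤ 2 * k := hv
      simp only [Finset.coe_Icc, Set.mem_Icc]
      exact ⟨hf v, (Finset.mem_filter.mp hv').2⟩
  have hk : 1 ≤ k := by
    by_contra hk0
    have hk0' : k = 0 := by omega
    subst hk0'
    have h4 : f ⟨0, hn⟩ ≤ ∑ v, f v := Finset.single_le_sum (fun _ _ => Nat.zero_le _)
      (Finset.mem_univ _)
    have h5 := hf ⟨0, hn⟩
    omega
  have h4 : 4 * k * ∑ i ∈ Finset.Icc 1 (2 * k), cnt f i < 2 * k * n := by
    rw [Finset.mul_sum]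
    calc ∑ i ∈ Finset.Icc 1 (2 * k), 4 * k * cnt f i
        < ∑ i ∈ Finset.Icc 1 (2 * k), n := by
          apply Finset.sum_lt_sum_of_nonempty
          · exact ⟨1, Finset.mem_Icc.mpr ⟨le_refl 1, by omega⟩⟩
          · exact hcon
      _ = 2 * k * n := by
          rw [Finset.sum_const, smul_eq_mul, Nat.card_Icc]
          congr 1
  rw [← h3] at h4
  have h5 : 2 * (univ.filter fun v => f v ≤ 2 * k).card < n := by
    have : 2 * k * (2 * (univ.filter fun v => f v ≤ 2 * k).card) < 2 * k * n := by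
      calc 2 * k * (2 * (univ.filter fun v => f v ≤ 2 * k).card)
          = 4 * k * (univ.filter fun v => f v ≤ 2 * k).card := by ring
        _ < 2 * k * n := h4
    exact lt_of_mul_lt_mul_left this (Nat.zero_le _)
  have h6 : n < 2 * (univ.filter fun v => 2 * k < f v).card := by omega
  have h7 : k * n < k * (2 * (univ.filter fun v => 2 * k < f v).card) :=
    Nat.mul_lt_mul_of_pos_left h6 hk
  have h8 : k * (2 * (univ.filter fun v => 2 * k < f v).card) ≤
      (univ.filter fun v => 2 * k < f v).card * (2 * k + 1) := by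
    nlinarith
  omega

/-- weight of the multiplicity `i` at the scale `q ^ (2m+1)` -/
noncomputable def aa {n : ℕ} (f : Fin n → ℕ) (q : ℝ) (i m : ℕ) : ℝ :=
  (cnt f i : ℝ) / (q ^ (2 * m + 1)) ^ i

/-- a pair of multiplicities with comparable weights -/
def Tied {n : ℕ} (f : Fin n → ℕ) (q : ℝ) (i j m : ℕ) : Prop :=
  0 < cnt f i ∧ 0 < cnt f j ∧ aa f q i m < q * aa f q j m ∧ aa f q j m < q * aa f q i m

theorem tied_lt {n : ℕ} (f : Fin n → ℕ) (q : ℝ) (hq : 1 < q) {i j m m' : ℕ} (hij : i < j)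
    (hm : m < m') (h : Tied f q i j m) (h' : Tied f q i j m') : False := by
  obtain ⟨hi, hj, _, h2⟩ := h
  obtain ⟨_, _, h3, _⟩ := h'
  have hq0 : 0 < q := by linarith
  have hi' : (0 : ℝ) < cnt f i := by exact_mod_cast hi
  have hj' : (0 : ℝ) < cnt f j := by exact_mod_cast hj
  obtain ⟨d, rfl⟩ : ∃ d, j = i + (d + 1) := ⟨j - i - 1, by omega⟩
  obtain ⟨s, rfl⟩ : ∃ s, m' = m + (s + 1) := ⟨m' - m - 1, by omega⟩
  unfold aa at h2 h3
  set A : ℝ := (cnt f i : ℝ) with hA
  set B : ℝ := (cnt f (i + (d + 1)) : ℝ) with hB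
  set Q : ℝ := q ^ (2 * m + 1) with hQ
  have hQ0 : 0 < Q := by positivity
  have hQ' : q ^ (2 * (m + (s + 1)) + 1) = Q * q ^ (2 * (s + 1)) := by
    rw [hQ, ← pow_add]; congr 1; ring
  rw [hQ'] at h3
  set R : ℝ := q ^ (2 * (s + 1)) with hR
  have hR0 : 0 < R := by positivity
  have hRq : q ^ 2 ≤ R := by
    rw [hR]
    exact pow_le_pow_right₀ hq.le (by omega)
  have hR1 : 1 ≤ R := by
    rw [hR]
    exact one_le_pow₀ hq.le
  -- h2 : B / Q^(i+(d+1)) < q * (A / Q^i), so B < q A Q^(d+1)
  have e2 : B < q * A * Q ^ (d + 1) := by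
    rw [pow_add, div_lt_iff₀ (by positivity)] at h2
    have : q * (A / Q ^ i) * (Q ^ i * Q ^ (d + 1)) = q * A * Q ^ (d + 1) := by
      field_simp
    linarith
  -- h3 : A / (QR)^i < q * (B / (QR)^(i+d+1)), so A (QR)^(d+1) < q B
  have e3 : A * (Q * R) ^ (d + 1) < q * B := by
    have hQR : 0 < Q * R := by positivity
    rw [pow_add (Q * R), div_lt_iff₀ (by positivity)] at h3
    have h5 : q * (B / ((Q * R) ^ i * (Q * R) ^ (d + 1))) * (Q * R) ^ i =
        q * B / (Q * R) ^ (d + 1) := by
      field_simp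
    rw [h5, lt_div_iff₀ (by positivity)] at h3
    exact h3
  have e4 : q * B < q * (q * A * Q ^ (d + 1)) := mul_lt_mul_of_pos_left e2 hq0
  have e5 : A * (Q * R) ^ (d + 1) < q ^ 2 * A * Q ^ (d + 1) := by
    calc A * (Q * R) ^ (d + 1) < q * B := e3
      _ < q * (q * A * Q ^ (d + 1)) := e4
      _ = q ^ 2 * A * Q ^ (d + 1) := by ring
  have e6 : q ^ 2 * A * Q ^ (d + 1) ≤ A * (Q * R) ^ (d + 1) := by
    rw [mul_pow]
    have : q ^ 2 ≤ R ^ (d + 1) := by
      calc q ^ 2 ≤ R := hRq
        _ = R ^ 1 := (pow_one R).symm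
        _ ≤ R ^ (d + 1) := pow_le_pow_right₀ hR1 (by omega)
    have hAQ : 0 ≤ A * Q ^ (d + 1) := by positivity
    calc q ^ 2 * A * Q ^ (d + 1) = (A * Q ^ (d + 1)) * q ^ 2 := by ring
      _ ≤ (A * Q ^ (d + 1)) * R ^ (d + 1) := mul_le_mul_of_nonneg_left this hAQ
      _ = A * (Q ^ (d + 1) * R ^ (d + 1)) := by ring
  linarith

theorem tied_eq {n : ℕ} (f : Fin n → ℕ) (q : ℝ) (hq : 1 < q) {i j m m' : ℕ} (hij : i < j)
    (h : Tied f q i j m) (h' : Tied f q i j m') : m = m' := by
  rcases lt_trichotomy m m' with h1 | h1 | h1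
  · exact (tied_lt f q hq hij h1 h h').elim
  · exact h1
  · exact (tied_lt f q hq hij h1 h' h).elim

theorem exists_m {n : ℕ} (k : ℕ) (hk : 1 ≤ k) (f : Fin n → ℕ) (q : ℝ) (hq : 1 < q) :
    ∃ m < 4 * k ^ 2, ∀ i j, i ∈ Finset.Icc 1 (2 * k) → j ∈ Finset.Icc 1 (2 * k) → i < j →
      ¬ Tied f q i j m := by
  by_contra hcon
  push Not at hcon
  set P : Finset (ℕ × ℕ) := ((Finset.Icc 1 (2 * k)) ×ˢ (Finset.Icc 1 (2 * k))).filter
    fun p => p.1 < p.2 with hP
  have hcard : P.card < (Finset.range (4 * k ^ 2)).card := by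
    have h1 : P.card < ((Finset.Icc 1 (2 * k)) ×ˢ (Finset.Icc 1 (2 * k))).card := by
      apply Finset.card_lt_card
      rw [Finset.ssubset_iff_of_subset (Finset.filter_subset _ _)]
      refine ⟨(1, 1), ?_, ?_⟩
      · rw [Finset.mem_product]
        exact ⟨Finset.mem_Icc.mpr ⟨le_refl _, by omega⟩, Finset.mem_Icc.mpr ⟨le_refl _, by omega⟩⟩
      · intro h
        have := (Finset.mem_filter.mp h).2
        simp at this
    rw [Finset.card_product, Nat.card_Icc] at h1
    rw [Finset.card_range]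
    calc P.card < (2 * k + 1 - 1) * (2 * k + 1 - 1) := h1
      _ = 4 * k ^ 2 := by
        rw [Nat.add_sub_cancel]; ring
  have hch : ∀ m : ℕ, ∃ p : ℕ × ℕ, m ∈ Finset.range (4 * k ^ 2) →
      p ∈ P ∧ Tied f q p.1 p.2 m := by
    intro m
    by_cases hm : m ∈ Finset.range (4 * k ^ 2)
    · obtain ⟨i, j, hi, hj, hij, ht⟩ := hcon m (Finset.mem_range.mp hm)
      refine ⟨(i, j), fun _ => ⟨?_, ht⟩⟩
      rw [hP, Finset.mem_filter, Finset.mem_product]
      exact ⟨⟨hi, hj⟩, hij⟩
    · exact ⟨(0, 0), fun h => (hm h).elim⟩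
  choose g hg using hch
  obtain ⟨m, hm, m', hm', hne, heq⟩ := Finset.exists_ne_map_eq_of_card_lt_of_maps_to hcard
    (f := g) (fun m hm => (hg m hm).1)
  have h1 := (hg m hm).2
  have h2 := (hg m' hm').2
  rw [← heq] at h2
  have h3 : (g m).1 < (g m).2 := (Finset.mem_filter.mp (hg m hm).1).2
  exact hne (tied_eq f q hq h3 h1 h2)

theorem geom_le (N : ℕ) : ∑ i ∈ Finset.range (N + 1), (2 : ℝ) ^ i ≤ 2 ^ (N + 1) := by
  rw [geom_sum_eq (by norm_num)]
  norm_num

end ProfileAux

open ProfileAux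

theorem exists_scale (n k E : ℕ) (hn : 1 ≤ n) (hk : 1 ≤ k) (hE : 1 ≤ E) (f : Fin n → ℕ)
    (hf : ∀ v, 1 ≤ f v) (hsum : ∑ v, f v ≤ k * n) :
    ∃ m < 4 * k ^ 2, ∃ j, 1 ≤ j ∧ j ≤ 2 * k ∧
      0 < (univ.filter fun v => f v = j).card ∧
      n * (Q0 k E ^ (2 * m + 1)) ^ j ≤
        4 * k * (univ.filter fun v => f v = j).card * (Q0 k E ^ (2 * m + 1)) ^ (2 * k) ∧
      (∑ v ∈ univ.filter (fun v => f v < j), 2 / ((Q0 k E : ℝ) ^ (2 * m + 1)) ^ f v) +
        (∑ v ∈ univ.filter (fun v => j < f v), (2 / ((Q0 k E : ℝ) ^ (2 * m + 1))) ^ f v) ≤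
        ((univ.filter fun v => f v = j).card : ℝ) / (E * ((Q0 k E : ℝ) ^ (2 * m + 1)) ^ j) := by
  have hkR : (1 : ℝ) ≤ k := by exact_mod_cast hk
  have hER : (1 : ℝ) ≤ E := by exact_mod_cast hE
  have h4k : (4 : ℝ) ≤ 4 ^ k := by
    calc (4 : ℝ) = 4 ^ 1 := by norm_num
      _ ≤ 4 ^ k := pow_le_pow_right₀ (by norm_num) hk
  set q : ℝ := (Q0 k E : ℝ) with hqdef
  have hqv : q = 16 * k * 4 ^ k * E := by
    rw [hqdef]; unfold Q0; push_cast; ring
  have hq64 : 64 ≤ q := by
    rw [hqv]
    have h1 : (4 : ℝ) ≤ k * 4 ^ k := by nlinarith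
    nlinarith
  have hq1 : 1 < q := by linarith
  have hq0 : 0 < q := by linarith
  obtain ⟨m, hm, htied⟩ := exists_m (n := n) k hk f q hq1
  obtain ⟨i0, hi0, hni0⟩ := exists_i0 n k hn f hf hsum
  obtain ⟨j, hj, hmax⟩ := Finset.exists_max_image (Finset.Icc 1 (2 * k)) (fun i => aa f q i m)
    ⟨i0, hi0⟩
  have hj1 := (Finset.mem_Icc.mp hj).1
  have hj2 := (Finset.mem_Icc.mp hj).2
  set Q : ℝ := q ^ (2 * m + 1) with hQdef
  have hQ0 : 0 < Q := by positivity
  have hqQ : q ≤ Q := by
    calc q = q ^ 1 := (pow_one q).symm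
      _ ≤ q ^ (2 * m + 1) := pow_le_pow_right₀ hq1.le (by omega)
  have hQ1 : 1 ≤ Q := by linarith
  have hi0pos : 0 < cnt f i0 := by
    rcases Nat.eq_zero_or_pos (cnt f i0) with h | h
    · rw [h] at hni0; omega
    · exact h
  have hai0 : 0 < aa f q i0 m := by
    unfold aa
    have : (0 : ℝ) < cnt f i0 := by exact_mod_cast hi0pos
    positivity
  have haj0 : 0 < aa f q j m := lt_of_lt_of_le hai0 (hmax i0 hi0)
  have hjpos : 0 < cnt f j := by
    rcases Nat.eq_zero_or_pos (cnt f j) with h | h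
    · unfold aa at haj0
      rw [h] at haj0
      simp at haj0
    · exact h
  -- domination
  have hdom : ∀ i ∈ Finset.Icc 1 (2 * k), i ≠ j → q * aa f q i m ≤ aa f q j m := by
    intro i hi hij
    rcases Nat.eq_zero_or_pos (cnt f i) with h | h
    · have : aa f q i m = 0 := by unfold aa; rw [h]; simp
      rw [this, mul_zero]; exact haj0.le
    · have hle := hmax i hi
      have h1 : aa f q i m < q * aa f q j m := by nlinarith
      rcases Nat.lt_or_gt_of_ne hij with h2 | h2
      · have h3 := htied i j hi hj h2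
        by_contra h4
        push Not at h4
        exact h3 ⟨h, hjpos, h1, h4⟩
      · have h3 := htied j i hj hi h2
        by_contra h4
        push Not at h4
        exact h3 ⟨hjpos, h, h4, h1⟩
  -- the third claim
  have hthird : (n : ℝ) ≤ 4 * k * aa f q j m * Q ^ (2 * k) := by
    have h1 : (n : ℝ) ≤ 4 * k * cnt f i0 := by exact_mod_cast hni0
    have h2 : (cnt f i0 : ℝ) = aa f q i0 m * Q ^ i0 := by
      unfold aa
      rw [← hQdef]
      field_simp
    have h3 : aa f q i0 m * Q ^ i0 ≤ aa f q j m * Q ^ (2 * k) :=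
      mul_le_mul (hmax i0 hi0) (pow_le_pow_right₀ hQ1 (Finset.mem_Icc.mp hi0).2)
        (by positivity) haj0.le
    calc (n : ℝ) ≤ 4 * k * cnt f i0 := h1
      _ = 4 * k * (aa f q i0 m * Q ^ i0) := by rw [h2]
      _ ≤ 4 * k * (aa f q j m * Q ^ (2 * k)) := mul_le_mul_of_nonneg_left h3 (by positivity)
      _ = 4 * k * aa f q j m * Q ^ (2 * k) := by ring
  have hajv : aa f q j m * Q ^ j = cnt f j := by
    unfold aa
    rw [← hQdef]
    field_simp
  refine ⟨m, hm, j, hj1, hj2, hjpos, ?_, ?_⟩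
  · have h1 : (n : ℝ) * Q ^ j ≤ 4 * k * cnt f j * Q ^ (2 * k) := by
      calc (n : ℝ) * Q ^ j ≤ 4 * k * aa f q j m * Q ^ (2 * k) * Q ^ j :=
            mul_le_mul_of_nonneg_right hthird (by positivity)
        _ = 4 * k * (aa f q j m * Q ^ j) * Q ^ (2 * k) := by ring
        _ = 4 * k * cnt f j * Q ^ (2 * k) := by rw [hajv]
    rw [hQdef, hqdef] at h1
    unfold cnt at h1
    exact_mod_cast h1
  · -- last claim
    have hS1 : (∑ v ∈ univ.filter (fun v => f v < j), 2 / Q ^ f v) ≤
        4 * k * (aa f q j m / q) := by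
      calc (∑ v ∈ univ.filter (fun v => f v < j), 2 / Q ^ f v)
          ≤ ∑ i ∈ Finset.Ico 1 j, (cnt f i : ℝ) * (2 / Q ^ i) := by
            apply sum_le_cnt f _ _ _ (fun i => 2 / Q ^ i)
            · intro i; positivity
            · intro v hv
              exact Finset.mem_Ico.mpr ⟨hf v, (Finset.mem_filter.mp hv).2⟩
        _ ≤ ∑ i ∈ Finset.Ico 1 j, 2 * (aa f q j m / q) := by
            apply Finset.sum_le_sum
            intro i hi
            have hi' := Finset.mem_Ico.mp hi
            have h1 := hdom i (Finset.mem_Icc.mpr ⟨hi'.1, by omega⟩) (by omega)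
            have h2 : aa f q i m ≤ aa f q j m / q := by
              rw [le_div_iff₀ hq0]; linarith
            have h3 : (cnt f i : ℝ) * (2 / Q ^ i) = 2 * aa f q i m := by
              unfold aa; rw [← hQdef]; ring
            rw [h3]
            linarith
        _ = ((j - 1 : ℕ) : ℝ) * (2 * (aa f q j m / q)) := by
            rw [Finset.sum_const, Nat.card_Ico, nsmul_eq_mul]
        _ ≤ (2 * k) * (2 * (aa f q j m / q)) := by
            apply mul_le_mul_of_nonneg_right
            · have : j - 1 ≤ 2 * k := by omega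
              exact_mod_cast this
            · positivity
        _ = 4 * k * (aa f q j m / q) := by ring
    have hS2 : (∑ v ∈ univ.filter (fun v => j < f v ∧ f v ≤ 2 * k), (2 / Q) ^ f v) ≤
        2 * 4 ^ k * (aa f q j m / q) := by
      calc (∑ v ∈ univ.filter (fun v => j < f v ∧ f v ≤ 2 * k), (2 / Q) ^ f v)
          ≤ ∑ i ∈ Finset.Ioc j (2 * k), (cnt f i : ℝ) * ((2 / Q) ^ i) := by
            apply sum_le_cnt f _ _ _ (fun i => (2 / Q) ^ i)
            · intro i; positivity
            · intro v hv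
              exact Finset.mem_Ioc.mpr (Finset.mem_filter.mp hv).2
        _ ≤ ∑ i ∈ Finset.Ioc j (2 * k), 2 ^ i * (aa f q j m / q) := by
            apply Finset.sum_le_sum
            intro i hi
            have hi' := Finset.mem_Ioc.mp hi
            have h1 := hdom i (Finset.mem_Icc.mpr ⟨by omega, hi'.2⟩) (by omega)
            have h2 : aa f q i m ≤ aa f q j m / q := by
              rw [le_div_iff₀ hq0]; linarith
            have h3 : (cnt f i : ℝ) * ((2 / Q) ^ i) = 2 ^ i * aa f q i m := by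
              unfold aa; rw [← hQdef, div_pow]; ring
            rw [h3]
            exact mul_le_mul_of_nonneg_left h2 (by positivity)
        _ = (∑ i ∈ Finset.Ioc j (2 * k), (2 : ℝ) ^ i) * (aa f q j m / q) := by
            rw [Finset.sum_mul]
        _ ≤ 2 ^ (2 * k + 1) * (aa f q j m / q) := by
            apply mul_le_mul_of_nonneg_right _ (by positivity)
            calc (∑ i ∈ Finset.Ioc j (2 * k), (2 : ℝ) ^ i)
                ≤ ∑ i ∈ Finset.range (2 * k + 1), (2 : ℝ) ^ i := by
                  apply Finset.sum_le_sum_of_subset_of_nonneg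
                  · intro i hi
                    have := Finset.mem_Ioc.mp hi
                    exact Finset.mem_range.mpr (by omega)
                  · intro i _ _; positivity
              _ ≤ 2 ^ (2 * k + 1) := geom_le _
        _ = 2 * 4 ^ k * (aa f q j m / q) := by
            have h22 : (2 : ℝ) ^ (2 * k + 1) = 2 * 4 ^ k := by
              rw [pow_succ, pow_mul, mul_comm]
              norm_num
            rw [h22]
    have hS3 : (∑ v ∈ univ.filter (fun v => 2 * k < f v), (2 / Q) ^ f v) ≤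
        8 * k * 4 ^ k * (aa f q j m / q) := by
      have h2Q : 2 / Q ≤ 1 := by
        rw [div_le_one hQ0]; linarith
      calc (∑ v ∈ univ.filter (fun v => 2 * k < f v), (2 / Q) ^ f v)
          ≤ ∑ v ∈ univ.filter (fun v => 2 * k < f v), (2 / Q) ^ (2 * k + 1) := by
            apply Finset.sum_le_sum
            intro v hv
            exact pow_le_pow_of_le_one (by positivity) h2Q (Finset.mem_filter.mp hv).2
        _ = ((univ.filter (fun v => 2 * k < f v)).card : ℝ) * (2 / Q) ^ (2 * k + 1) := by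
            rw [Finset.sum_const, nsmul_eq_mul]
        _ ≤ n * (2 / Q) ^ (2 * k + 1) := by
            apply mul_le_mul_of_nonneg_right _ (by positivity)
            have : (univ.filter (fun v => 2 * k < f v)).card ≤ n := by
              calc (univ.filter (fun v => 2 * k < f v)).card
                  ≤ (univ : Finset (Fin n)).card := Finset.card_filter_le _ _
                _ = n := by simp
            exact_mod_cast this
        _ ≤ (4 * k * aa f q j m * Q ^ (2 * k)) * (2 / Q) ^ (2 * k + 1) :=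
            mul_le_mul_of_nonneg_right hthird (by positivity)
        _ = 8 * k * 4 ^ k * (aa f q j m / Q) := by
            rw [div_pow, pow_succ (2 : ℝ), pow_succ Q, pow_mul (2 : ℝ)]
            field_simp
            norm_num
            try ring
        _ ≤ 8 * k * 4 ^ k * (aa f q j m / q) := by
            apply mul_le_mul_of_nonneg_left _ (by positivity)
            exact div_le_div_of_nonneg_left haj0.le hq0 hqQ
    have hsplit : (∑ v ∈ univ.filter (fun v => j < f v), (2 / Q) ^ f v) =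
        (∑ v ∈ univ.filter (fun v => j < f v ∧ f v ≤ 2 * k), (2 / Q) ^ f v) +
        (∑ v ∈ univ.filter (fun v => 2 * k < f v), (2 / Q) ^ f v) := by
      rw [← Finset.sum_filter_add_sum_filter_not (univ.filter (fun v => j < f v))
        (fun v => f v ≤ 2 * k), Finset.filter_filter, Finset.filter_filter]
      congr 1
      apply Finset.sum_congr _ (fun _ _ => rfl)
      ext v
      simp only [Finset.mem_filter, Finset.mem_univ, true_and, not_le]
      constructor
      · exact fun h => h.2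
      · exact fun h => ⟨by omega, h⟩
    have hfin : ((univ.filter fun v => f v = j).card : ℝ) / (E * Q ^ j) = aa f q j m / E := by
      unfold aa cnt
      rw [← hQdef]
      field_simp
    rw [hfin, hsplit]
    have hX : 0 ≤ aa f q j m / q := by positivity
    have hk4 : 4 * (k : ℝ) + 2 * 4 ^ k ≤ 8 * k * 4 ^ k := by nlinarith
    have hEq : aa f q j m / E = 16 * k * 4 ^ k * (aa f q j m / q) := by
      rw [hqv]
      field_simp
    rw [hEq]
    nlinarith

end Pool.Agent.LT
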