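import Pool.Agent.Lib.MP_b573ec_lc_LT.Defs2

/-!
# M5: random colourings of the blocks and random samples of the variables

`Pool.Agent.LT.good_pairs`: for at least half of the pairs `(F, u)` of a colouring `F` of the
blocks by `Q` colours and a map `u` from the variables to `s` classes, both feet of the class `0`
are large and the set of exceptional variables is small.
-/

namespace Pool.Agent.LT

open Finset Polynomial

namespace RandomAux

/-- the number of functions with values in `T` on `S` -/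
theorem card_pi {ι α : Type} [Fintype ι] [DecidableEq ι] [Fintype α] [DecidableEq α]
    (S : Finset ι) (T : Finset α) [∀ F : ι → α, Decidable (∀ l ∈ S, F l ∈ T)] :
    (univ.filter fun F : ι → α => ∀ l ∈ S, F l ∈ T).card * Fintype.card α ^ S.card =
      T.card ^ S.card * Fintype.card α ^ Fintype.card ι := by
  have h1 : (univ.filter fun F : ι → α => ∀ l ∈ S, F l ∈ T) =
      Fintype.piFinset (fun l => if l ∈ S then T else univ) := by
    ext F
    simp only [mem_filter, mem_univ, true_and, Fintype.mem_piFinset]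
    constructor
    · intro h l
      by_cases hl : l ∈ S
      · simp [hl, h l hl]
      · simp [hl]
    · intro h l hl
      have := h l
      simpa [hl] using this
  rw [h1, Fintype.card_piFinset]
  have h2 : ∀ l, (if l ∈ S then T else univ).card = if l ∈ S then T.card else Fintype.card α := by
    intro l
    split_ifs <;> rfl
  simp only [h2]
  rw [Finset.prod_ite, Finset.prod_const, Finset.prod_const]
  have h3 : (univ.filter fun l => l ∈ S) = S := by
    ext l; simp
  have h4 : (univ.filter fun l => l ∉ S) = Sᶜ := by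
    ext l; simp
  rw [h3, h4, Finset.card_compl, mul_assoc, ← pow_add]
  congr 2
  have := Finset.card_le_univ S
  omega

/-- the number of pairs with prescribed colours and prescribed classes -/
theorem card_pairs {n r Q s : ℕ} (hs : 1 ≤ s) (S : Finset (Fin r)) (T : Finset (Fin Q))
    (V : Finset (Fin n)) :
    (univ.filter fun p : (Fin r → Fin Q) × (Fin n → Fin s) =>
      (∀ l ∈ S, p.1 l ∈ T) ∧ ∀ v ∈ V, (p.2 v : ℕ) = 0).card * (Q ^ S.card * s ^ V.card) =
      T.card ^ S.card * (Q ^ r * s ^ n) := by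
  have h1 : (univ.filter fun p : (Fin r → Fin Q) × (Fin n → Fin s) =>
      (∀ l ∈ S, p.1 l ∈ T) ∧ ∀ v ∈ V, (p.2 v : ℕ) = 0) =
      (univ.filter fun F : Fin r → Fin Q => ∀ l ∈ S, F l ∈ T) ×ˢ
      (univ.filter fun u : Fin n → Fin s => ∀ v ∈ V, u v ∈ ({⟨0, hs⟩} : Finset (Fin s))) := by
    ext p
    simp only [mem_filter, mem_univ, true_and, mem_product, mem_singleton, Fin.ext_iff]
  rw [h1, card_product]
  have h2 := card_pi S T
  have h3 := card_pi V ({⟨0, hs⟩} : Finset (Fin s))
  simp only [Fintype.card_fin, card_singleton, one_pow, one_mul] at h2 h3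
  calc _ = ((univ.filter fun F : Fin r → Fin Q => ∀ l ∈ S, F l ∈ T).card * Q ^ S.card) *
      ((univ.filter fun u : Fin n → Fin s =>
        ∀ v ∈ V, u v ∈ ({⟨0, hs⟩} : Finset (Fin s))).card * s ^ V.card) := by ring
    _ = _ := by rw [h2, h3]; ring

/-- real version of `card_pairs` -/
theorem card_pairs_real {n r Q s : ℕ} (hQ : 2 ≤ Q) (hs : 1 ≤ s) (S : Finset (Fin r))
    (T : Finset (Fin Q)) (V : Finset (Fin n)) :
    ((univ.filter fun p : (Fin r → Fin Q) × (Fin n → Fin s) =>
      (∀ l ∈ S, p.1 l ∈ T) ∧ ∀ v ∈ V, (p.2 v : ℕ) = 0).card : ℝ) =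
      (T.card : ℝ) ^ S.card / ((Q : ℝ) ^ S.card * (s : ℝ) ^ V.card) *
        ((Q : ℝ) ^ r * (s : ℝ) ^ n) := by
  have hQ0 : (0 : ℝ) < Q := by
    have : 0 < Q := by omega
    exact_mod_cast this
  have hs0 : (0 : ℝ) < s := by
    have : 0 < s := by omega
    exact_mod_cast this
  have h := card_pairs (n := n) (r := r) hs S T V
  have h' : ((univ.filter fun p : (Fin r → Fin Q) × (Fin n → Fin s) =>
      (∀ l ∈ S, p.1 l ∈ T) ∧ ∀ v ∈ V, (p.2 v : ℕ) = 0).card : ℝ) *
      ((Q : ℝ) ^ S.card * (s : ℝ) ^ V.card) =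
      (T.card : ℝ) ^ S.card * ((Q : ℝ) ^ r * (s : ℝ) ^ n) := by
    exact_mod_cast h
  have hpos : (0 : ℝ) < (Q : ℝ) ^ S.card * (s : ℝ) ^ V.card := by positivity
  rw [div_mul_eq_mul_div, eq_div_iff hpos.ne', h']

/-- Chebyshev -/
theorem chebyshev {Ω : Type} [Fintype Ω] (X : Ω → ℝ) (μ V : ℝ) (hμ : 0 < μ)
    (h1 : ∑ ω, X ω = μ * Fintype.card Ω)
    (h2 : ∑ ω, X ω ^ 2 ≤ (μ ^ 2 + V) * Fintype.card Ω) :
    ((univ.filter fun ω => X ω < μ / 2).card : ℝ) * (μ / 2) ^ 2 ≤ V * Fintype.card Ω := by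
  have h3 : ((univ.filter fun ω => X ω < μ / 2).card : ℝ) * (μ / 2) ^ 2 ≤
      ∑ ω ∈ univ.filter (fun ω => X ω < μ / 2), (X ω - μ) ^ 2 := by
    rw [← nsmul_eq_mul]
    apply Finset.card_nsmul_le_sum
    intro ω hω
    rw [mem_filter] at hω
    nlinarith [hω.2]
  have h4 : ∑ ω ∈ univ.filter (fun ω => X ω < μ / 2), (X ω - μ) ^ 2 ≤ ∑ ω, (X ω - μ) ^ 2 :=
    Finset.sum_le_sum_of_subset_of_nonneg (filter_subset _ _) (fun _ _ _ => sq_nonneg _)
  have h5 : ∑ ω, (X ω - μ) ^ 2 = ∑ ω, X ω ^ 2 - 2 * μ * ∑ ω, X ω + μ ^ 2 * Fintype.card Ω := by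
    have : ∀ ω, (X ω - μ) ^ 2 = X ω ^ 2 - 2 * μ * X ω + μ ^ 2 := fun ω => by ring
    simp only [this]
    rw [Finset.sum_add_distrib, Finset.sum_sub_distrib, ← Finset.mul_sum, Finset.sum_const,
      card_univ, nsmul_eq_mul]
    ring
  rw [h1] at h5
  nlinarith

/-- Markov -/
theorem markov {Ω : Type} [Fintype Ω] (X : Ω → ℕ) (e : ℕ) (B : ℝ)
    (h1 : ∑ ω, (X ω : ℝ) ≤ B) :
    ((univ.filter fun ω => e < X ω).card : ℝ) * (e + 1) ≤ B := by
  have h3 : ((univ.filter fun ω => e < X ω).card : ℝ) * ((e : ℝ) + 1) ≤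
      ∑ ω ∈ univ.filter (fun ω => e < X ω), (X ω : ℝ) := by
    rw [← nsmul_eq_mul]
    apply Finset.card_nsmul_le_sum
    intro ω hω
    rw [mem_filter] at hω
    exact_mod_cast hω.2
  have h4 : ∑ ω ∈ univ.filter (fun ω => e < X ω), (X ω : ℝ) ≤ ∑ ω, (X ω : ℝ) :=
    Finset.sum_le_sum_of_subset_of_nonneg (filter_subset _ _) (fun _ _ _ => by positivity)
  linarith

/-- double counting, first moment -/
theorem sum_card {Ω ι : Type} [Fintype Ω] (A : Finset ι) (R : ι → Ω → Prop)
    [∀ i ω, Decidable (R i ω)] :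
    ∑ ω, ((A.filter fun i => R i ω).card : ℝ) =
      ∑ i ∈ A, ((univ.filter fun ω => R i ω).card : ℝ) := by
  simp only [Finset.card_filter, Nat.cast_sum]
  rw [Finset.sum_comm]

/-- double counting, second moment -/
theorem sum_card_sq {Ω ι : Type} [Fintype Ω] (A : Finset ι) (R : ι → Ω → Prop)
    [∀ i ω, Decidable (R i ω)] :
    ∑ ω, ((A.filter fun i => R i ω).card : ℝ) ^ 2 =
      ∑ i ∈ A, ∑ k ∈ A, ((univ.filter fun ω => R i ω ∧ R k ω).card : ℝ) := by
  have h : ∀ ω, ((A.filter fun i => R i ω).card : ℝ) ^ 2 =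
      ∑ i ∈ A, ∑ k ∈ A, (if R i ω ∧ R k ω then (1 : ℝ) else 0) := by
    intro ω
    rw [sq, Finset.card_filter, Nat.cast_sum, Finset.sum_mul_sum]
    refine Finset.sum_congr rfl fun i _ => Finset.sum_congr rfl fun k _ => ?_
    by_cases h1 : R i ω <;> by_cases h2 : R k ω <;> simp [h1, h2]
  simp only [h]
  rw [Finset.sum_comm]
  refine Finset.sum_congr rfl fun i _ => ?_
  rw [Finset.sum_comm]
  refine Finset.sum_congr rfl fun k _ => ?_
  rw [Finset.card_filter, Nat.cast_sum]
  refine Finset.sum_congr rfl fun ω _ => ?_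
  split_ifs <;> simp

/-- the number of pairs of intersecting layers -/
theorem card_inter {n r : ℕ} (Lay : Fin n → Finset (Fin r)) (j L : ℕ)
    (hL : ∀ l, (univ.filter fun v => l ∈ Lay v).card ≤ L) (A : Finset (Fin n)) (v : Fin n)
    (hv : (Lay v).card = j) :
    (A.filter fun w => ¬ Disjoint (Lay v) (Lay w)).card ≤ j * L := by
  have h1 : (A.filter fun w => ¬ Disjoint (Lay v) (Lay w)) ⊆
      (Lay v).biUnion fun l => univ.filter fun w => l ∈ Lay w := by
    intro w hw
    rw [mem_filter] at hw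
    rw [Finset.not_disjoint_iff] at hw
    obtain ⟨_, l, hl1, hl2⟩ := hw
    rw [mem_biUnion]
    exact ⟨l, hl1, by simp [hl2]⟩
  calc _ ≤ _ := card_le_card h1
    _ ≤ ∑ l ∈ Lay v, (univ.filter fun w => l ∈ Lay w).card := card_biUnion_le
    _ ≤ ∑ _l ∈ Lay v, L := Finset.sum_le_sum fun l _ => hL l
    _ = j * L := by rw [Finset.sum_const, hv, smul_eq_mul]

/-- the event that `v` belongs to the foot `c` -/
def Ev {n r Q s : ℕ} (Lay : Fin n → Finset (Fin r)) (T : Finset (Fin Q)) (v : Fin n)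
    (p : (Fin r → Fin Q) × (Fin n → Fin s)) : Prop :=
  (∀ l ∈ Lay v, p.1 l ∈ T) ∧ (p.2 v : ℕ) = 0

instance {n r Q s : ℕ} (Lay : Fin n → Finset (Fin r)) (T : Finset (Fin Q)) (v : Fin n)
    (p : (Fin r → Fin Q) × (Fin n → Fin s)) : Decidable (Ev Lay T v p) := by
  unfold Ev; infer_instance

theorem card_Ev {n r Q s : ℕ} (hQ : 2 ≤ Q) (hs : 1 ≤ s) (Lay : Fin n → Finset (Fin r))
    (T : Finset (Fin Q)) (v : Fin n) :
    ((univ.filter fun p : (Fin r → Fin Q) × (Fin n → Fin s) => Ev Lay T v p).card : ℝ) =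
      (T.card : ℝ) ^ (Lay v).card / ((Q : ℝ) ^ (Lay v).card * s) *
        ((Q : ℝ) ^ r * (s : ℝ) ^ n) := by
  have h := card_pairs_real (n := n) (r := r) hQ hs (Lay v) T {v}
  rw [card_singleton, pow_one] at h
  rw [← h]
  congr 2
  ext p
  simp [Ev]

theorem card_Ev_pair {n r Q s : ℕ} (hQ : 2 ≤ Q) (hs : 1 ≤ s) (Lay : Fin n → Finset (Fin r))
    (T : Finset (Fin Q)) (v w : Fin n) (hvw : v ≠ w) :
    ((univ.filter fun p : (Fin r → Fin Q) × (Fin n → Fin s) =>
      Ev Lay T v p ∧ Ev Lay T w p).card : ℝ) =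
      (T.card : ℝ) ^ (Lay v ∪ Lay w).card / ((Q : ℝ) ^ (Lay v ∪ Lay w).card * (s : ℝ) ^ 2) *
        ((Q : ℝ) ^ r * (s : ℝ) ^ n) := by
  have h := card_pairs_real (n := n) (r := r) hQ hs (Lay v ∪ Lay w) T {v, w}
  rw [card_pair hvw] at h
  rw [← h]
  congr 2
  ext p
  simp only [Ev, mem_filter, mem_univ, true_and, mem_union, mem_insert, mem_singleton]
  constructor
  · rintro ⟨⟨h1, h2⟩, h3, h4⟩
    refine ⟨fun l hl => ?_, fun x hx => ?_⟩
    · rcases hl with hl | hl
      · exact h1 l hl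
      · exact h3 l hl
    · rcases hx with rfl | rfl
      · exact h2
      · exact h4
  · rintro ⟨h1, h2⟩
    exact ⟨⟨fun l hl => h1 l (Or.inl hl), h2 v (Or.inl rfl)⟩,
      fun l hl => h1 l (Or.inr hl), h2 w (Or.inr rfl)⟩

/-- the second moment bound for one pair -/
theorem pair_le {n r Q s j : ℕ} (hQ : 2 ≤ Q) (hs : 1 ≤ s) (Lay : Fin n → Finset (Fin r))
    (T : Finset (Fin Q)) (hT : T.card = 1) (v w : Fin n) (hv : (Lay v).card = j)
    (hw : (Lay w).card = j) :
    ((univ.filter fun p : (Fin r → Fin Q) × (Fin n → Fin s) =>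
      Ev Lay T v p ∧ Ev Lay T w p).card : ℝ) ≤
      ((if v = w then 1 / ((Q : ℝ) ^ j * s) else 0) + (1 / ((Q : ℝ) ^ j * s)) ^ 2 +
        (if ¬ Disjoint (Lay v) (Lay w) then 1 / ((Q : ℝ) ^ j * s) / s else 0)) *
        ((Q : ℝ) ^ r * (s : ℝ) ^ n) := by
  have hQ0 : (0 : ℝ) < Q := by
    have : 0 < Q := by omega
    exact_mod_cast this
  have hQ1 : (1 : ℝ) ≤ Q := by
    have : 1 ≤ Q := by omega
    exact_mod_cast this
  have hs0 : (0 : ℝ) < s := by
    have : 0 < s := by omega
    exact_mod_cast this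
  have hM : (0 : ℝ) ≤ (Q : ℝ) ^ r * (s : ℝ) ^ n := by positivity
  by_cases hvw : v = w
  · subst hvw
    have h := card_Ev (n := n) (r := r) hQ hs Lay T v
    rw [hT, hv] at h
    simp only [and_self, if_true]
    rw [h]
    apply mul_le_mul_of_nonneg_right _ hM
    have h1 : (0 : ℝ) ≤ (if ¬ Disjoint (Lay v) (Lay v) then 1 / ((Q : ℝ) ^ j * s) / s else 0) := by
      split_ifs <;> positivity
    have h2 : (0 : ℝ) ≤ (1 / ((Q : ℝ) ^ j * s)) ^ 2 := by positivity
    simp only [Nat.cast_one, one_pow]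
    linarith
  · rw [card_Ev_pair hQ hs Lay T v w hvw, hT]
    apply mul_le_mul_of_nonneg_right _ hM
    rw [if_neg hvw, zero_add]
    simp only [Nat.cast_one, one_pow]
    by_cases hd : Disjoint (Lay v) (Lay w)
    · rw [if_neg (not_not.mpr hd), add_zero, card_union_of_disjoint hd, hv, hw]
      apply le_of_eq
      rw [pow_add]
      field_simp
    · rw [if_pos hd]
      have h1 : (0 : ℝ) ≤ (1 / ((Q : ℝ) ^ j * s)) ^ 2 := by positivity
      have h2 : 1 / ((Q : ℝ) ^ (Lay v ∪ Lay w).card * (s : ℝ) ^ 2) ≤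
          1 / ((Q : ℝ) ^ j * s) / s := by
        rw [div_div, mul_assoc, ← sq]
        apply one_div_le_one_div_of_le (by positivity)
        apply mul_le_mul_of_nonneg_right _ (by positivity)
        apply pow_le_pow_right₀ hQ1
        rw [← hv]
        exact card_le_card subset_union_left
      linarith

/-- one foot is large with probability at least `7/8` -/
theorem foot_large {n r : ℕ} (Lay : Fin n → Finset (Fin r)) (Q s j L D : ℕ) (hQ : 2 ≤ Q)
    (hs : 1 ≤ s) (hL : ∀ l, (univ.filter fun v => l ∈ Lay v).card ≤ L) (hD : 16 ≤ D)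
    (h1 : 4 * D * s * Q ^ j ≤ (univ.filter fun v => (Lay v).card = j).card)
    (h2 : 64 * j * L * Q ^ j ≤ (univ.filter fun v => (Lay v).card = j).card)
    (c : ℕ) (hc : c < Q) :
    8 * ((univ.filter fun p : (Fin r → Fin Q) × (Fin n → Fin s) =>
        ¬ (2 * D ≤ (afoot Lay (fun l => (p.1 l : ℕ))
          (univ.filter fun v => (p.2 v : ℕ) = 0) c).card)).card : ℝ) ≤
      (Q : ℝ) ^ r * (s : ℝ) ^ n := by
  have hQ0 : (0 : ℝ) < Q := by
    have : 0 < Q := by omega
    exact_mod_cast this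
  have hs0 : (0 : ℝ) < s := by
    have : 0 < s := by omega
    exact_mod_cast this
  set A : Finset (Fin n) := univ.filter fun v => (Lay v).card = j with hA
  set T : Finset (Fin Q) := {⟨c, hc⟩} with hTdef
  have hT : T.card = 1 := card_singleton _
  set M : ℝ := (Q : ℝ) ^ r * (s : ℝ) ^ n with hMdef
  have hM : 0 < M := by positivity
  have hcard : (Fintype.card ((Fin r → Fin Q) × (Fin n → Fin s)) : ℝ) = M := by
    simp [hMdef]
  set N : ℝ := (A.card : ℝ) with hN
  set p : ℝ := 1 / ((Q : ℝ) ^ j * s) with hp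
  have hp0 : 0 < p := by positivity
  have h1' : 4 * (D : ℝ) * s * (Q : ℝ) ^ j ≤ N := by
    rw [hN]; exact_mod_cast h1
  have h2' : 64 * (j : ℝ) * L * (Q : ℝ) ^ j ≤ N := by
    rw [hN]; exact_mod_cast h2
  have hD' : (16 : ℝ) ≤ D := by exact_mod_cast hD
  have hμD : 4 * (D : ℝ) ≤ N * p := by
    rw [hp, mul_one_div, le_div_iff₀ (by positivity)]
    calc 4 * (D : ℝ) * ((Q : ℝ) ^ j * s) = 4 * (D : ℝ) * s * (Q : ℝ) ^ j := by ring
      _ ≤ N := h1'
  have hμ : 0 < N * p := by linarith
  -- first moment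
  have e1 : ∑ ω : (Fin r → Fin Q) × (Fin n → Fin s),
      ((A.filter fun v => Ev Lay T v ω).card : ℝ) =
      N * p * Fintype.card ((Fin r → Fin Q) × (Fin n → Fin s)) := by
    rw [sum_card, hcard]
    have : ∀ v ∈ A, ((univ.filter fun ω : (Fin r → Fin Q) × (Fin n → Fin s) =>
        Ev Lay T v ω).card : ℝ) = p * M := by
      intro v hv
      rw [hA, mem_filter] at hv
      rw [card_Ev hQ hs, hT, hv.2]
      simp [hp, hMdef]
    rw [Finset.sum_congr rfl this, Finset.sum_const, nsmul_eq_mul]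
    ring
  -- second moment
  have e2 : ∑ ω : (Fin r → Fin Q) × (Fin n → Fin s),
      ((A.filter fun v => Ev Lay T v ω).card : ℝ) ^ 2 ≤
      ((N * p) ^ 2 + (N * p + N * (j * L) * (p / s))) *
        Fintype.card ((Fin r → Fin Q) × (Fin n → Fin s)) := by
    rw [sum_card_sq, hcard]
    have b1 : ∀ v ∈ A, ∑ w ∈ A, ((univ.filter fun ω : (Fin r → Fin Q) × (Fin n → Fin s) =>
        Ev Lay T v ω ∧ Ev Lay T w ω).card : ℝ) ≤ (p + N * p ^ 2 + (j * L) * (p / s)) * M := by
      intro v hv
      have hv' : (Lay v).card = j := by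
        rw [hA, mem_filter] at hv
        exact hv.2
      calc _ ≤ ∑ w ∈ A, ((if v = w then p else 0) + p ^ 2 +
            (if ¬ Disjoint (Lay v) (Lay w) then p / s else 0)) * M := by
            apply Finset.sum_le_sum
            intro w hw
            have hw' : (Lay w).card = j := by
              rw [hA, mem_filter] at hw
              exact hw.2
            exact pair_le hQ hs Lay T hT v w hv' hw'
        _ = (p + N * p ^ 2 +
            ((A.filter fun w => ¬ Disjoint (Lay v) (Lay w)).card : ℝ) * (p / s)) * M := by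
            rw [← Finset.sum_mul, Finset.sum_add_distrib, Finset.sum_add_distrib,
              Finset.sum_ite_eq, if_pos hv, Finset.sum_const, nsmul_eq_mul, ← Finset.sum_filter,
              Finset.sum_const, nsmul_eq_mul]
        _ ≤ _ := by
            apply mul_le_mul_of_nonneg_right _ hM.le
            have hc2 : ((A.filter fun w => ¬ Disjoint (Lay v) (Lay w)).card : ℝ) ≤ j * L := by
              exact_mod_cast card_inter Lay j L hL A v hv'
            have : ((A.filter fun w => ¬ Disjoint (Lay v) (Lay w)).card : ℝ) * (p / s) ≤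
                (j * L) * (p / s) := mul_le_mul_of_nonneg_right hc2 (by positivity)
            linarith
    calc _ ≤ ∑ _v ∈ A, (p + N * p ^ 2 + (j * L) * (p / s)) * M := Finset.sum_le_sum b1
      _ = _ := by
        rw [Finset.sum_const, nsmul_eq_mul]
        ring
  have e3 := chebyshev _ (N * p) _ hμ e1 e2
  rw [hcard] at e3
  -- the variance is at most `μ ^ 2 / 32`
  have e4 : N * p + N * (j * L) * (p / s) ≤ (N * p) ^ 2 / 32 := by
    have a1 : N * p ≤ (N * p) ^ 2 / 64 := by
      have : 64 ≤ N * p := by linarith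
      nlinarith
    have a2 : N * (j * L) * (p / s) ≤ (N * p) ^ 2 / 64 := by
      have a3 : (j * L : ℝ) / s ≤ N * p / 64 := by
        rw [hp, mul_one_div, div_div, div_le_div_iff₀ hs0 (by positivity)]
        calc (j * L : ℝ) * ((Q : ℝ) ^ j * s * 64) = (64 * (j : ℝ) * L * (Q : ℝ) ^ j) * s := by ring
          _ ≤ N * s := mul_le_mul_of_nonneg_right h2' hs0.le
      calc N * (j * L) * (p / s) = (N * p) * ((j * L : ℝ) / s) := by ring
        _ ≤ (N * p) * (N * p / 64) := mul_le_mul_of_nonneg_left a3 hμ.le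
        _ = _ := by ring
    linarith
  have e5 : 8 * ((univ.filter fun ω : (Fin r → Fin Q) × (Fin n → Fin s) =>
      ((A.filter fun v => Ev Lay T v ω).card : ℝ) < N * p / 2).card : ℝ) ≤ M := by
    have hsq : 0 < (N * p) ^ 2 := by positivity
    have : ((univ.filter fun ω : (Fin r → Fin Q) × (Fin n → Fin s) =>
      ((A.filter fun v => Ev Lay T v ω).card : ℝ) < N * p / 2).card : ℝ) * (N * p / 2) ^ 2 ≤
      (N * p) ^ 2 / 32 * M := le_trans e3 (mul_le_mul_of_nonneg_right e4 hM.le)
    have h' : (8 * ((univ.filter fun ω : (Fin r → Fin Q) × (Fin n → Fin s) =>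
      ((A.filter fun v => Ev Lay T v ω).card : ℝ) < N * p / 2).card : ℝ)) * (N * p) ^ 2 ≤
      M * (N * p) ^ 2 := by nlinarith
    exact le_of_mul_le_mul_right h' hsq
  refine le_trans ?_ e5
  have e6 : (univ.filter fun p : (Fin r → Fin Q) × (Fin n → Fin s) =>
        ¬ (2 * D ≤ (afoot Lay (fun l => (p.1 l : ℕ))
          (univ.filter fun v => (p.2 v : ℕ) = 0) c).card)) ⊆
      (univ.filter fun ω : (Fin r → Fin Q) × (Fin n → Fin s) =>
        ((A.filter fun v => Ev Lay T v ω).card : ℝ) < N * p / 2) := by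
    intro ω hω
    rw [mem_filter] at hω ⊢
    refine ⟨mem_univ _, ?_⟩
    have hω2 := hω.2
    push Not at hω2
    have hsub : (A.filter fun v => Ev Lay T v ω) ⊆ afoot Lay (fun l => (ω.1 l : ℕ))
          (univ.filter fun v => (ω.2 v : ℕ) = 0) c := by
      intro v hv
      rw [mem_filter] at hv
      obtain ⟨_, hv2, hv3⟩ := hv
      unfold afoot
      rw [mem_filter, mem_filter]
      refine ⟨⟨mem_univ _, hv3⟩, fun l hl => ?_⟩
      have := hv2 l hl
      rw [hTdef, mem_singleton] at this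
      simp only [this]
    have hlt : (A.filter fun v => Ev Lay T v ω).card < 2 * D :=
      lt_of_le_of_lt (card_le_card hsub) hω2
    have hlt' : ((A.filter fun v => Ev Lay T v ω).card : ℝ) < 2 * D := by exact_mod_cast hlt
    linarith
  have e7 := card_le_card e6
  have e8 : ((univ.filter fun p : (Fin r → Fin Q) × (Fin n → Fin s) =>
        ¬ (2 * D ≤ (afoot Lay (fun l => (p.1 l : ℕ))
          (univ.filter fun v => (p.2 v : ℕ) = 0) c).card)).card : ℝ) ≤
      ((univ.filter fun ω : (Fin r → Fin Q) × (Fin n → Fin s) =>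
        ((A.filter fun v => Ev Lay T v ω).card : ℝ) < N * p / 2).card : ℝ) := by
    exact_mod_cast e7
  linarith

/-- the exceptional set is small with probability at least `7/8` -/
theorem bad_small {n r : ℕ} (Lay : Fin n → Finset (Fin r)) (Q s j e E : ℕ) (hQ : 2 ≤ Q)
    (hs : 1 ≤ s) (hE : 1 ≤ E)
    (h3 : (∑ v ∈ univ.filter (fun v => (Lay v).card < j), 2 / (Q : ℝ) ^ (Lay v).card) +
        (∑ v ∈ univ.filter (fun v => j < (Lay v).card), (2 / (Q : ℝ)) ^ (Lay v).card) ≤
        ((univ.filter fun v => (Lay v).card = j).card : ℝ) / (E * (Q : ℝ) ^ j))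
    (h4 : 8 * (univ.filter fun v => (Lay v).card = j).card ≤ (e + 1) * E * s * Q ^ j) :
    8 * ((univ.filter fun p : (Fin r → Fin Q) × (Fin n → Fin s) =>
        ¬ ((abad Lay (fun l => (p.1 l : ℕ))
          (univ.filter fun v => (p.2 v : ℕ) = 0) j).card ≤ e)).card : ℝ) ≤
      (Q : ℝ) ^ r * (s : ℝ) ^ n := by
  have hQ0 : (0 : ℝ) < Q := by
    have : 0 < Q := by omega
    exact_mod_cast this
  have hs0 : (0 : ℝ) < s := by
    have : 0 < s := by omega
    exact_mod_cast this
  have hE0 : (0 : ℝ) < E := by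
    have : 0 < E := by omega
    exact_mod_cast this
  set M : ℝ := (Q : ℝ) ^ r * (s : ℝ) ^ n with hMdef
  have hM : 0 < M := by positivity
  set N : ℝ := ((univ.filter fun v => (Lay v).card = j).card : ℝ) with hN
  set T0 : Finset (Fin Q) := {⟨0, by omega⟩} with hT0
  set T1 : Finset (Fin Q) := {⟨1, by omega⟩} with hT1
  set T2 : Finset (Fin Q) := {⟨0, by omega⟩, ⟨1, by omega⟩} with hT2
  have hc0 : T0.card = 1 := card_singleton _
  have hc1 : T1.card = 1 := card_singleton _
  have hc2 : T2.card = 2 := by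
    rw [hT2]
    apply card_pair
    intro h
    rw [Fin.ext_iff] at h
    simp at h
  -- the expectation
  have e1 : ∑ ω : (Fin r → Fin Q) × (Fin n → Fin s),
      ((abad Lay (fun l => (ω.1 l : ℕ)) (univ.filter fun v => (ω.2 v : ℕ) = 0) j).card : ℝ) ≤
      N / (E * (Q : ℝ) ^ j) / s * M := by
    have b1 : ∀ ω : (Fin r → Fin Q) × (Fin n → Fin s),
        ((abad Lay (fun l => (ω.1 l : ℕ)) (univ.filter fun v => (ω.2 v : ℕ) = 0) j).card : ℝ) ≤
        (((univ.filter fun v => (Lay v).card < j).filter fun v => Ev Lay T0 v ω).card : ℝ) +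
        (((univ.filter fun v => (Lay v).card < j).filter fun v => Ev Lay T1 v ω).card : ℝ) +
        (((univ.filter fun v => j < (Lay v).card).filter fun v => Ev Lay T2 v ω).card : ℝ) := by
      intro ω
      have hsub : abad Lay (fun l => (ω.1 l : ℕ)) (univ.filter fun v => (ω.2 v : ℕ) = 0) j ⊆
          (((univ.filter fun v => (Lay v).card < j).filter fun v => Ev Lay T0 v ω) ∪
          ((univ.filter fun v => (Lay v).card < j).filter fun v => Ev Lay T1 v ω)) ∪
          ((univ.filter fun v => j < (Lay v).card).filter fun v => Ev Lay T2 v ω) := by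
        intro v hv
        unfold abad at hv
        rw [mem_filter, mem_filter] at hv
        obtain ⟨⟨_, hu⟩, hv⟩ := hv
        rcases hv with ⟨hj1, h0 | h0⟩ | ⟨hj1, h0⟩
        · apply mem_union_left
          apply mem_union_left
          simp only [mem_filter, mem_univ, true_and]
          refine ⟨hj1, fun l hl => ?_, hu⟩
          rw [hT0, mem_singleton, Fin.ext_iff]
          exact h0 l hl
        · apply mem_union_left
          apply mem_union_right
          simp only [mem_filter, mem_univ, true_and]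
          refine ⟨hj1, fun l hl => ?_, hu⟩
          rw [hT1, mem_singleton, Fin.ext_iff]
          exact h0 l hl
        · apply mem_union_right
          simp only [mem_filter, mem_univ, true_and]
          refine ⟨hj1, fun l hl => ?_, hu⟩
          rw [hT2, mem_insert, mem_singleton, Fin.ext_iff, Fin.ext_iff]
          have := h0 l hl
          simp only at this ⊢
          omega
      have := le_trans (card_le_card hsub) (le_trans (card_union_le _ _)
        (Nat.add_le_add_right (card_union_le _ _) _))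
      exact_mod_cast this
    calc _ ≤ ∑ ω : (Fin r → Fin Q) × (Fin n → Fin s),
        ((((univ.filter fun v => (Lay v).card < j).filter fun v => Ev Lay T0 v ω).card : ℝ) +
        (((univ.filter fun v => (Lay v).card < j).filter fun v => Ev Lay T1 v ω).card : ℝ) +
        (((univ.filter fun v => j < (Lay v).card).filter fun v => Ev Lay T2 v ω).card : ℝ)) :=
          Finset.sum_le_sum fun ω _ => b1 ω
      _ = (∑ v ∈ univ.filter (fun v => (Lay v).card < j), 1 / ((Q : ℝ) ^ (Lay v).card * s) * M) +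
          (∑ v ∈ univ.filter (fun v => (Lay v).card < j), 1 / ((Q : ℝ) ^ (Lay v).card * s) * M) +
          (∑ v ∈ univ.filter (fun v => j < (Lay v).card),
            2 ^ (Lay v).card / ((Q : ℝ) ^ (Lay v).card * s) * M) := by
          rw [Finset.sum_add_distrib, Finset.sum_add_distrib, sum_card, sum_card, sum_card]
          congr 1
          · congr 1
            · refine Finset.sum_congr rfl fun v _ => ?_
              rw [card_Ev hQ hs, hc0]
              simp [hMdef]
            · refine Finset.sum_congr rfl fun v _ => ?_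
              rw [card_Ev hQ hs, hc1]
              simp [hMdef]
          · refine Finset.sum_congr rfl fun v _ => ?_
            rw [card_Ev hQ hs, hc2]
            simp [hMdef]
      _ = ((∑ v ∈ univ.filter (fun v => (Lay v).card < j), 2 / (Q : ℝ) ^ (Lay v).card) +
        (∑ v ∈ univ.filter (fun v => j < (Lay v).card), (2 / (Q : ℝ)) ^ (Lay v).card)) / s * M := by
          rw [← Finset.sum_add_distrib, add_div, add_mul, Finset.sum_div, Finset.sum_div,
            Finset.sum_mul, Finset.sum_mul]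
          congr 1
          · refine Finset.sum_congr rfl fun v _ => ?_
            field_simp
            ring
          · refine Finset.sum_congr rfl fun v _ => ?_
            rw [div_pow]
            field_simp
      _ ≤ _ := by
          apply mul_le_mul_of_nonneg_right _ hM.le
          exact div_le_div_of_nonneg_right h3 hs0.le
  have e2 := markov (fun ω : (Fin r → Fin Q) × (Fin n → Fin s) =>
    (abad Lay (fun l => (ω.1 l : ℕ)) (univ.filter fun v => (ω.2 v : ℕ) = 0) j).card) e _ e1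
  have e3 : (univ.filter fun p : (Fin r → Fin Q) × (Fin n → Fin s) =>
        ¬ ((abad Lay (fun l => (p.1 l : ℕ))
          (univ.filter fun v => (p.2 v : ℕ) = 0) j).card ≤ e)) =
      (univ.filter fun ω : (Fin r → Fin Q) × (Fin n → Fin s) =>
        e < (abad Lay (fun l => (ω.1 l : ℕ)) (univ.filter fun v => (ω.2 v : ℕ) = 0) j).card) := by
    ext ω
    simp only [mem_filter, mem_univ, true_and, not_le]
  rw [e3]
  have h4' : 8 * N ≤ ((e : ℝ) + 1) * E * s * (Q : ℝ) ^ j := by
    rw [hN]; exact_mod_cast h4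
  have e4 : N / (E * (Q : ℝ) ^ j) / s ≤ ((e : ℝ) + 1) / 8 := by
    rw [div_div, div_le_div_iff₀ (by positivity) (by norm_num)]
    nlinarith
  have he : (0 : ℝ) < (e : ℝ) + 1 := by positivity
  have e5 : ((univ.filter fun ω : (Fin r → Fin Q) × (Fin n → Fin s) =>
        e < (abad Lay (fun l => (ω.1 l : ℕ)) (univ.filter fun v => (ω.2 v : ℕ) = 0) j).card).card
        : ℝ) * (e + 1) ≤ ((e : ℝ) + 1) / 8 * M :=
    le_trans e2 (mul_le_mul_of_nonneg_right e4 hM.le)
  have e6 : (8 * ((univ.filter fun ω : (Fin r → Fin Q) × (Fin n → Fin s) =>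
        e < (abad Lay (fun l => (ω.1 l : ℕ)) (univ.filter fun v => (ω.2 v : ℕ) = 0) j).card).card
        : ℝ)) * ((e : ℝ) + 1) ≤ M * ((e : ℝ) + 1) := by nlinarith
  exact le_of_mul_le_mul_right e6 he

end RandomAux

theorem good_pairs {n r : ℕ} (Lay : Fin n → Finset (Fin r)) (Q s j L D e E : ℕ) (hQ : 2 ≤ Q)
    (hs : 1 ≤ s) (hj : 1 ≤ j) (hE : 1 ≤ E)
    (hL : ∀ l, (univ.filter fun v => l ∈ Lay v).card ≤ L) (hD : 16 ≤ D)
    (h1 : 4 * D * s * Q ^ j ≤ (univ.filter fun v => (Lay v).card = j).card)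
    (h2 : 64 * j * L * Q ^ j ≤ (univ.filter fun v => (Lay v).card = j).card)
    (h3 : (∑ v ∈ univ.filter (fun v => (Lay v).card < j), 2 / (Q : ℝ) ^ (Lay v).card) +
        (∑ v ∈ univ.filter (fun v => j < (Lay v).card), (2 / (Q : ℝ)) ^ (Lay v).card) ≤
        ((univ.filter fun v => (Lay v).card = j).card : ℝ) / (E * (Q : ℝ) ^ j))
    (h4 : 8 * (univ.filter fun v => (Lay v).card = j).card ≤ (e + 1) * E * s * Q ^ j) :
    Fintype.card ((Fin r → Fin Q) × (Fin n → Fin s)) ≤
      2 * (univ.filter fun p : (Fin r → Fin Q) × (Fin n → Fin s) =>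
        2 * D ≤ (afoot Lay (fun l => (p.1 l : ℕ)) (univ.filter fun v => (p.2 v : ℕ) = 0) 0).card ∧
        2 * D ≤ (afoot Lay (fun l => (p.1 l : ℕ)) (univ.filter fun v => (p.2 v : ℕ) = 0) 1).card ∧
        (abad Lay (fun l => (p.1 l : ℕ)) (univ.filter fun v => (p.2 v : ℕ) = 0) j).card ≤ e).card := by
  have a0 := RandomAux.foot_large Lay Q s j L D hQ hs hL hD h1 h2 0 (by omega)
  have a1 := RandomAux.foot_large Lay Q s j L D hQ hs hL hD h1 h2 1 (by omega)
  have a2 := RandomAux.bad_small Lay Q s j e E hQ hs hE h3 h4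
  set G := univ.filter fun p : (Fin r → Fin Q) × (Fin n → Fin s) =>
        2 * D ≤ (afoot Lay (fun l => (p.1 l : ℕ)) (univ.filter fun v => (p.2 v : ℕ) = 0) 0).card ∧
        2 * D ≤ (afoot Lay (fun l => (p.1 l : ℕ)) (univ.filter fun v => (p.2 v : ℕ) = 0) 1).card ∧
        (abad Lay (fun l => (p.1 l : ℕ)) (univ.filter fun v => (p.2 v : ℕ) = 0) j).card ≤ e
    with hG
  set B0 := univ.filter fun p : (Fin r → Fin Q) × (Fin n → Fin s) =>
        ¬ (2 * D ≤ (afoot Lay (fun l => (p.1 l : ℕ))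
          (univ.filter fun v => (p.2 v : ℕ) = 0) 0).card) with hB0
  set B1 := univ.filter fun p : (Fin r → Fin Q) × (Fin n → Fin s) =>
        ¬ (2 * D ≤ (afoot Lay (fun l => (p.1 l : ℕ))
          (univ.filter fun v => (p.2 v : ℕ) = 0) 1).card) with hB1
  set B2 := univ.filter fun p : (Fin r → Fin Q) × (Fin n → Fin s) =>
        ¬ ((abad Lay (fun l => (p.1 l : ℕ))
          (univ.filter fun v => (p.2 v : ℕ) = 0) j).card ≤ e) with hB2
  have hcov : (univ : Finset ((Fin r → Fin Q) × (Fin n → Fin s))) ⊆ G ∪ (B0 ∪ (B1 ∪ B2)) := by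
    intro p _
    simp only [hG, hB0, hB1, hB2, mem_union, mem_filter, mem_univ, true_and]
    tauto
  have hc := card_le_card hcov
  have hc' : (univ : Finset ((Fin r → Fin Q) × (Fin n → Fin s))).card ≤
      G.card + (B0.card + (B1.card + B2.card)) := by
    refine le_trans hc (le_trans (card_union_le _ _) ?_)
    refine Nat.add_le_add_left (le_trans (card_union_le _ _) ?_) _
    exact Nat.add_le_add_left (card_union_le _ _) _
  have hM : (Fintype.card ((Fin r → Fin Q) × (Fin n → Fin s)) : ℝ) =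
      (Q : ℝ) ^ r * (s : ℝ) ^ n := by simp
  rw [card_univ] at hc'
  have hc'' : (Fintype.card ((Fin r → Fin Q) × (Fin n → Fin s)) : ℝ) ≤
      G.card + (B0.card + (B1.card + B2.card)) := by exact_mod_cast hc'
  rw [← hM] at a0 a1 a2
  have hn : (0 : ℝ) ≤ (Fintype.card ((Fin r → Fin Q) × (Fin n → Fin s)) : ℝ) := by positivity
  have hfin : (Fintype.card ((Fin r → Fin Q) × (Fin n → Fin s)) : ℝ) ≤ 2 * (G.card : ℝ) := by
    linarith
  exact_mod_cast hfin

end Pool.Agent.LT
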