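import Pool.Agent.Lib.MP_b573ec_lc_LT.Defs2

/-!
# The classes of a block system are rectangles
-/

set_option autoImplicit false

namespace Pool.Agent.LT

open Finset Polynomial

namespace RectAux

variable {n w r : ℕ} (B : BlockSys n w) (F : Fin r → ℕ) (U : Finset (Fin n))

/-- The mixed input: `y` on `A`, `z` off `A`. -/
def mix (A : Finset (Fin n)) (y z : Inp n) : Inp n := fun v => if v ∈ A then y v else z v

theorem mix_pos {A : Finset (Fin n)} (y z : Inp n) {v : Fin n} (hv : v ∈ A) :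
    mix A y z v = y v := if_pos hv

theorem mix_neg {A : Finset (Fin n)} (y z : Inp n) {v : Fin n} (hv : v ∉ A) :
    mix A y z v = z v := if_neg hv

theorem mem_Lay {x : Inp n} {v : Fin n} {l : Fin r} :
    l ∈ B.Lay r x v ↔ v ∈ B.R x l := by
  simp [BlockSys.Lay]

theorem mem_foot {c : ℕ} {x : Inp n} {v : Fin n} :
    v ∈ B.foot F U c x ↔ v ∈ U ∧ ∀ l : Fin r, v ∈ B.R x l → F l = c := by
  unfold BlockSys.foot
  rw [mem_filter]
  refine and_congr_right fun _ => forall_congr' fun l => ?_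
  rw [mem_Lay]

theorem mem_cls {x y : Inp n} :
    y ∈ B.cls F U x ↔ (∀ l ≤ r, B.tr y l = B.tr x l) ∧
      B.foot F U 0 y = B.foot F U 0 x ∧ B.foot F U 1 y = B.foot F U 1 x ∧
      ∀ v, v ∉ B.foot F U 0 x → v ∉ B.foot F U 1 x → y v = x v := by
  unfold BlockSys.cls
  rw [mem_filter]
  exact ⟨fun h => h.2, fun h => ⟨mem_univ _, h⟩⟩

/-- Two inputs with the same state before a block which agree on the variables read by one of
them read the same variables and reach the same state. -/
theorem step_congr {x y : Inp n} {l : ℕ} (ht : B.tr y l = B.tr x l)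
    (h : ∀ v ∈ B.R x l, x v = y v) : B.R y l = B.R x l ∧ B.tr y (l + 1) = B.tr x (l + 1) := by
  constructor
  · unfold BlockSys.R
    rw [ht]
    exact B.dep_rd l _ x y h
  · change B.nx l (B.tr y l) y = B.nx l (B.tr x l) x
    rw [ht]
    exact B.dep_nx l _ x y h

end RectAux

open RectAux

theorem foot_disjoint {n w r : ℕ} (B : BlockSys n w) (F : Fin r → ℕ) (U : Finset (Fin n))
    (x : Inp n) (hcov : ∀ v, (B.Lay r x v).Nonempty) :
    Disjoint (B.foot F U 0 x) (B.foot F U 1 x) := by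
  rw [Finset.disjoint_left]
  intro v h0 h1
  obtain ⟨l, hl⟩ := hcov v
  rw [mem_Lay] at hl
  have e0 := ((mem_foot B F U).mp h0).2 l hl
  have e1 := ((mem_foot B F U).mp h1).2 l hl
  omega

theorem mem_cls_self {n w r : ℕ} (B : BlockSys n w) (F : Fin r → ℕ) (U : Finset (Fin n))
    (x : Inp n) : x ∈ B.cls F U x := by
  rw [mem_cls]
  exact ⟨fun _ _ => rfl, rfl, rfl, fun _ _ _ => rfl⟩

theorem cls_eq {n w r : ℕ} (B : BlockSys n w) (F : Fin r → ℕ) (U : Finset (Fin n))
    {x y : Inp n} (h : y ∈ B.cls F U x) : B.cls F U y = B.cls F U x := by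
  rw [mem_cls] at h
  obtain ⟨h1, h2, h3, h4⟩ := h
  ext z
  rw [mem_cls, mem_cls, h2, h3]
  constructor
  · rintro ⟨k1, k2, k3, k4⟩
    exact ⟨fun l hl => (k1 l hl).trans (h1 l hl), k2, k3,
      fun v hv hv' => (k4 v hv hv').trans (h4 v hv hv')⟩
  · rintro ⟨k1, k2, k3, k4⟩
    exact ⟨fun l hl => (k1 l hl).trans (h1 l hl).symm, k2, k3,
      fun v hv hv' => (k4 v hv hv').trans (h4 v hv hv').symm⟩

theorem mix_mem {n w r : ℕ} (B : BlockSys n w) (F : Fin r → ℕ) (U : Finset (Fin n))
    (hcov : ∀ x v, (B.Lay r x v).Nonempty) {x y z : Inp n} (hy : y ∈ B.cls F U x)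
    (hz : z ∈ B.cls F U x) :
    (fun v => if v ∈ B.foot F U 0 x then y v else z v) ∈ B.cls F U x := by
  have _ := hcov
  change mix (B.foot F U 0 x) y z ∈ B.cls F U x
  rw [mem_cls] at hy hz
  obtain ⟨y1, y2, y3, y4⟩ := hy
  obtain ⟨z1, z2, z3, z4⟩ := hz
  set A := B.foot F U 0 x with hA
  set D := B.foot F U 1 x with hD
  set m := mix A y z with hm
  have my : ∀ v, v ∉ D → m v = y v := by
    intro v hv
    by_cases hvA : v ∈ A
    · exact mix_pos y z hvA
    · rw [hm, mix_neg y z hvA, z4 v hvA hv, y4 v hvA hv]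
  have mz : ∀ v, v ∉ A → m v = z v := fun v hv => mix_neg y z hv
  -- the variables read in blocks of the different colours
  have ryD : ∀ l : Fin r, F l ≠ 1 → ∀ v ∈ B.R y l, v ∉ D := by
    intro l hl v hv hvD
    rw [← y3] at hvD
    exact hl (((mem_foot B F U).mp hvD).2 l hv)
  have ryA : ∀ l : Fin r, F l ≠ 0 → ∀ v ∈ B.R y l, v ∉ A := by
    intro l hl v hv hvA
    rw [← y2] at hvA
    exact hl (((mem_foot B F U).mp hvA).2 l hv)
  have rzA : ∀ l : Fin r, F l ≠ 0 → ∀ v ∈ B.R z l, v ∉ A := by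
    intro l hl v hv hvA
    rw [← z2] at hvA
    exact hl (((mem_foot B F U).mp hvA).2 l hv)
  have hstep : ∀ l : Fin r, B.tr m l = B.tr x l →
      (F l = 0 → B.R m l = B.R y l ∧ B.tr m (l + 1) = B.tr y (l + 1)) ∧
      (F l ≠ 0 → B.R m l = B.R z l ∧ B.tr m (l + 1) = B.tr z (l + 1)) := by
    intro l hl
    constructor
    · intro h0
      refine step_congr B (hl.trans (y1 l l.2.le).symm) fun v hv => ?_
      exact (my v (ryD l (by omega) v hv)).symm
    · intro h0
      refine step_congr B (hl.trans (z1 l l.2.le).symm) fun v hv => ?_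
      exact (mz v (rzA l h0 v hv)).symm
  have htr : ∀ l ≤ r, B.tr m l = B.tr x l := by
    intro l
    induction l with
    | zero => intro _; rfl
    | succ l ih =>
      intro hl
      have hlr : l < r := by omega
      have ih' := ih (by omega)
      obtain ⟨s0, s1⟩ := hstep ⟨l, hlr⟩ ih'
      by_cases h0 : F ⟨l, hlr⟩ = 0
      · exact ((s0 h0).2).trans (y1 (l + 1) hl)
      · exact ((s1 h0).2).trans (z1 (l + 1) hl)
  have hRy : ∀ l : Fin r, F l ≠ 1 → B.R m l = B.R y l := by
    intro l hl1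
    obtain ⟨s0, s1⟩ := hstep l (htr l l.2.le)
    by_cases h0 : F l = 0
    · exact (s0 h0).1
    · rw [(s1 h0).1]
      refine (step_congr B ((z1 l l.2.le).trans (y1 l l.2.le).symm) fun v hv => ?_).1
      have hvA := ryA l h0 v hv
      have hvD := ryD l hl1 v hv
      rw [y4 v hvA hvD, z4 v hvA hvD]
  have hRz : ∀ l : Fin r, F l ≠ 0 → B.R m l = B.R z l := fun l h0 =>
    ((hstep l (htr l l.2.le)).2 h0).1
  rw [mem_cls]
  refine ⟨htr, ?_, ?_, ?_⟩
  · rw [← hA, ← z2]
    ext v
    rw [mem_foot, mem_foot]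
    refine and_congr_right fun _ => forall_congr' fun l => ?_
    by_cases h0 : F l = 0
    · simp only [h0, implies_true]
    · rw [hRz l h0]
  · rw [← hD, ← y3]
    ext v
    rw [mem_foot, mem_foot]
    refine and_congr_right fun _ => forall_congr' fun l => ?_
    by_cases h1 : F l = 1
    · simp only [h1, implies_true]
    · rw [hRy l h1]
  · intro v hvA hvD
    rw [mz v hvA, z4 v hvA hvD]

theorem card_cls {n w r : ℕ} (B : BlockSys n w) (F : Fin r → ℕ) (U : Finset (Fin n))
    (hcov : ∀ x v, (B.Lay r x v).Nonempty) (x : Inp n) :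
    (B.cls F U x).card = (B.side F U 0 x).card * (B.side F U 1 x).card := by
  rw [← Finset.card_product]
  symm
  have hdis := foot_disjoint B F U x (hcov x)
  set A := B.foot F U 0 x with hA
  set D := B.foot F U 1 x with hD
  have hself := mem_cls_self B F U x
  have hmix : ∀ {y z : Inp n}, y ∈ B.cls F U x → z ∈ B.cls F U x →
      mix A y z ∈ B.cls F U x := fun hy hz => mix_mem B F U hcov hy hz
  have hside0 : ∀ {y : Inp n}, y ∈ B.side F U 0 x ↔ y ∈ B.cls F U x ∧ ∀ v, v ∉ A → y v = x v := by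
    intro y
    unfold BlockSys.side
    rw [mem_filter]
  have hside1 : ∀ {y : Inp n}, y ∈ B.side F U 1 x ↔ y ∈ B.cls F U x ∧ ∀ v, v ∉ D → y v = x v := by
    intro y
    unfold BlockSys.side
    rw [mem_filter]
  refine Finset.card_nbij' (fun p : Inp n × Inp n => mix A p.1 p.2)
    (fun y => (mix A y x, mix A x y)) ?_ ?_ ?_ ?_
  · intro p hp
    rw [Finset.mem_coe, Finset.mem_product, hside0, hside1] at hp
    exact hmix hp.1.1 hp.2.1
  · intro y hy
    rw [Finset.mem_coe] at hy
    rw [Finset.mem_coe, Finset.mem_product, hside0, hside1]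
    refine ⟨⟨hmix hy hself, fun v hv => mix_neg y x hv⟩, hmix hself hy, fun v hv => ?_⟩
    by_cases hvA : v ∈ A
    · exact mix_pos x y hvA
    · exact (mix_neg x y hvA).trans (((mem_cls B F U).mp hy).2.2.2 v hvA hv)
  · intro p hp
    rw [Finset.mem_coe, Finset.mem_product, hside0, hside1] at hp
    obtain ⟨⟨_, h0⟩, _, h1⟩ := hp
    refine Prod.ext ?_ ?_
    · funext v
      by_cases hvA : v ∈ A
      · exact (mix_pos _ x hvA).trans (mix_pos _ _ hvA)
      · exact (mix_neg _ x hvA).trans (h0 v hvA).symm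
    · funext v
      by_cases hvA : v ∈ A
      · have hvD : v ∉ D := Finset.disjoint_left.mp hdis hvA
        exact (mix_pos x _ hvA).trans (h1 v hvD).symm
      · exact (mix_neg x _ hvA).trans (mix_neg _ _ hvA)
  · intro y _
    funext v
    by_cases hvA : v ∈ A
    · exact (mix_pos _ _ hvA).trans (mix_pos _ _ hvA)
    · exact (mix_neg _ _ hvA).trans (mix_neg _ _ hvA)

end Pool.Agent.LT
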