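import Pool.Agent.Lib.MP_b573ec_lc_LT.Model

/-!
# The explicit functions

The input describes a hash function (a Hankel matrix over `GF(2)`, given by the sequence `a` of the
bits entering a sliding window; the further sequences repeat the bits which leave the windows, so
that one reading of the input is enough) and a vector `d` which is hashed.
-/

namespace Pool.Agent.LT

open Polynomial

/-- bit `j` of the input as an element of `GF(2)`; `0` beyond the end of the input -/
def bit {n : ℕ} (x : Inp n) (j : ℕ) : ZMod 2 :=
  if h : j < n then (if x ⟨j, h⟩ then 1 else 0) else 0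

/-- The sliding window polynomials `W_0 = 0`, `W_{i+1} = T W_i + a_i + b_i T^t` over `GF(2)`.  If
`b_i = a_{i-t}`, then `W_{i+1} = a_i + a_{i-1} T + ... + a_{i-t+1} T^{t-1}`. -/
noncomputable def window (t : ℕ) (a b : ℕ → ZMod 2) : ℕ → (ZMod 2)[X]
  | 0 => 0
  | i + 1 => X * window t a b i + C (a i) + C (b i) * X ^ t

/-- `∑_{i < N} d_i W_{i+1}` -/
noncomputable def wsum (N : ℕ) (d : ℕ → ZMod 2) (W : ℕ → (ZMod 2)[X]) : (ZMod 2)[X] :=
  ∑ i ∈ Finset.range N, C (d i) * W (i + 1)

open Classical in
/-- The function `Z ≠ X^3`.  The input is read as four sequences `a, b, c, d` of `n/4` bits, in the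
order `a_0 b_0 c_0 d_0 a_1 b_1 c_1 d_1 ...`; `Z = ∑ d_i Z_{i+1}`, where `Z_i` are the windows of
length `3M` with entering bits `a` and leaving bits `b`, and `X = ∑ d_i X_{i+1}`, where `X_i` are
the windows of length `M` with entering bits `b` and leaving bits `c`.  The value is `1` iff
`Z ≠ X^3` in `GF(2)[T]`. -/
noncomputable def cubeFn (n M : ℕ) (x : Inp n) : Bool :=
  decide (wsum (n / 4) (fun i => bit x (4 * i + 3))
      (window (3 * M) (fun i => bit x (4 * i)) (fun i => bit x (4 * i + 1))) ≠
    wsum (n / 4) (fun i => bit x (4 * i + 3))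
      (window M (fun i => bit x (4 * i + 1)) (fun i => bit x (4 * i + 2))) ^ 3)

open Classical in
/-- The function `X has an irreducible factor of degree ℓ`.  The input is read as three sequences
`a, b, d` of `n/3` bits, in the order `a_0 b_0 d_0 a_1 b_1 d_1 ...`; `X = ∑ d_i X_{i+1}`, where
`X_i` are the windows of length `D` with entering bits `a` and leaving bits `b`. -/
noncomputable def factorFn (n D ℓ : ℕ) (x : Inp n) : Bool :=
  decide (∃ π : (ZMod 2)[X], Irreducible π ∧ π.natDegree = ℓ ∧
    π ∣ wsum (n / 3) (fun i => bit x (3 * i + 2))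
      (window D (fun i => bit x (3 * i)) (fun i => bit x (3 * i + 1))))

end Pool.Agent.LT
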