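import Pool.Agent.Lib.MP_b573ec_lc_LT.Defs2

/-!
# Module M11a of project LT: the moment bound for the deficits

`moment`: the number of points `t` at which the values `h i (t)`, `i ∈ I`, are far from uniform is
small, if the coefficient vectors `h i` have small multiplicities.
-/

namespace Pool.Agent.LT

open Finset Polynomial

namespace MomentAux

variable {K : Type} [Field K]

/-- evaluation of `cpoly` -/
theorem eval_cpoly {m : ℕ} (c : Fin m → K) (t : K) :
    (cpoly c).eval t = ∑ i, c i * t ^ (i : ℕ) := by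
  simp [cpoly, eval_finsetSum]

/-- evaluation of a translate -/
theorem eval_add {m : ℕ} (c d : Fin m → K) (a t : K) :
    (cpoly (c + a • d)).eval t = (cpoly c).eval t + a * (cpoly d).eval t := by
  rw [eval_cpoly, eval_cpoly, eval_cpoly, Finset.mul_sum, ← Finset.sum_add_distrib]
  refine Finset.sum_congr rfl fun i _ => ?_
  simp only [Pi.add_apply, Pi.smul_apply, smul_eq_mul]
  ring

/-- a Lagrange polynomial -/
theorem exists_lagrange {m : ℕ} (T : Finset K) (t0 : K) (h0 : t0 ∉ T) (hT : T.card < m) :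
    ∃ d : Fin m → K, (cpoly d).eval t0 = 1 ∧ ∀ t ∈ T, (cpoly d).eval t = 0 := by
  classical
  set c : K := ∏ t ∈ T, (t0 - t) with hc
  have hc0 : c ≠ 0 := by
    rw [hc, Finset.prod_ne_zero_iff]
    intro t ht h
    rw [sub_eq_zero] at h
    exact h0 (h ▸ ht)
  set P : K[X] := C c⁻¹ * ∏ t ∈ T, (X - C t) with hP
  have hdeg : P.natDegree < m := by
    refine lt_of_le_of_lt ?_ hT
    calc P.natDegree ≤ (C c⁻¹ : K[X]).natDegree + (∏ t ∈ T, (X - C t)).natDegree := natDegree_mul_le
      _ = (∏ t ∈ T, (X - C t)).natDegree := by rw [natDegree_C, zero_add]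
      _ ≤ ∑ t ∈ T, (X - C t).natDegree := natDegree_prod_le _ _
      _ = T.card := by simp
  have hPc : cpoly (fun i : Fin m => P.coeff i) = P := by
    rw [cpoly]
    conv_rhs => rw [P.as_sum_range_C_mul_X_pow' hdeg]
    rw [Finset.sum_range]
  refine ⟨fun i => P.coeff i, ?_, ?_⟩
  · rw [hPc, hP, eval_mul, eval_C, eval_prod]
    simp only [eval_sub, eval_X, eval_C]
    exact inv_mul_cancel₀ hc0
  · intro t ht
    rw [hPc, hP, eval_mul, eval_prod]
    rw [Finset.prod_eq_zero ht (by simp), mul_zero]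

variable [Fintype K] [DecidableEq K]

/-- a product in which one point is taken exactly once has mean zero -/
theorem vanish {m s : ℕ} (hs : s ≤ m) (τ : Fin s → K) (φ : K → K → ℝ)
    (hφ : ∀ t, ∑ y, φ t y = 0) (j0 : Fin s) (hj : ∀ j, j ≠ j0 → τ j ≠ τ j0) :
    ∑ z : Fin m → K, ∏ j, φ (τ j) ((cpoly z).eval (τ j)) = 0 := by
  classical
  set T : Finset K := (univ.erase j0).image τ with hT
  have h0 : τ j0 ∉ T := by
    rw [hT, mem_image]
    rintro ⟨j, hj', h⟩
    exact hj j (ne_of_mem_erase hj') h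
  have hTc : T.card < m := by
    calc T.card ≤ (univ.erase j0).card := card_image_le
      _ < (univ : Finset (Fin s)).card := card_erase_lt_of_mem (mem_univ _)
      _ = s := by simp
      _ ≤ m := hs
  obtain ⟨d, hd0, hd1⟩ := exists_lagrange T (τ j0) h0 hTc
  set F : (Fin m → K) → ℝ := fun z => ∏ j, φ (τ j) ((cpoly z).eval (τ j)) with hF
  have h1 : ∀ a : K, ∑ z, F (z + a • d) = ∑ z, F z := fun a =>
    Equiv.sum_comp (Equiv.addRight (a • d)) F
  have h2 : ∀ (z : Fin m → K) (a : K), F (z + a • d) =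
      φ (τ j0) ((cpoly z).eval (τ j0) + a) *
        ∏ j ∈ univ.erase j0, φ (τ j) ((cpoly z).eval (τ j)) := by
    intro z a
    rw [hF]
    simp only
    rw [← Finset.mul_prod_erase univ _ (mem_univ j0), eval_add, hd0, mul_one]
    congr 1
    refine Finset.prod_congr rfl fun j hj' => ?_
    rw [eval_add, hd1 (τ j) (by rw [hT]; exact mem_image_of_mem _ hj'), mul_zero, add_zero]
  have h3 : (Fintype.card K : ℝ) * ∑ z, F z = 0 := by
    calc (Fintype.card K : ℝ) * ∑ z, F z = ∑ a : K, ∑ z, F (z + a • d) := by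
          rw [Finset.sum_congr rfl fun a _ => h1 a, Finset.sum_const, nsmul_eq_mul, card_univ]
      _ = ∑ z, ∑ a : K, F (z + a • d) := Finset.sum_comm
      _ = ∑ z : Fin m → K, (∑ a : K, φ (τ j0) ((cpoly z).eval (τ j0) + a)) *
            ∏ j ∈ univ.erase j0, φ (τ j) ((cpoly z).eval (τ j)) := by
          refine Finset.sum_congr rfl fun z _ => ?_
          rw [Finset.sum_congr rfl fun a _ => h2 z a, Finset.sum_mul]
      _ = 0 := by
          refine Finset.sum_eq_zero fun z _ => ?_
          have : ∑ a : K, φ (τ j0) ((cpoly z).eval (τ j0) + a) = 0 := by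
            rw [← hφ (τ j0)]
            exact Equiv.sum_comp (Equiv.addLeft ((cpoly z).eval (τ j0))) (φ (τ j0))
          rw [this, zero_mul]
  have h4 : (Fintype.card K : ℝ) ≠ 0 := by
    have : 0 < Fintype.card K := Fintype.card_pos
    positivity
  exact (mul_eq_zero.1 h3).resolve_left h4

omit [Field K] [Fintype K] in
/-- the number of maps without a value taken exactly once -/
theorem card_multi (p : ℕ) (hp : 1 ≤ p) (B : Finset K) :
    ((Fintype.piFinset fun _ : Fin (2 * p) => B).filter fun τ =>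
      ∀ j, ∃ j', j' ≠ j ∧ τ j' = τ j).card ≤ B.card ^ p * p ^ (2 * p) := by
  classical
  rcases B.eq_empty_or_nonempty with rfl | ⟨b0, hb0⟩
  · have : (Fintype.piFinset fun _ : Fin (2 * p) => (∅ : Finset K)) = ∅ := by
      rw [Finset.eq_empty_iff_forall_notMem]
      intro τ hτ
      rw [Fintype.mem_piFinset] at hτ
      exact absurd (hτ ⟨0, by omega⟩) (notMem_empty _)
    rw [this]
    simp
  have hsub : ((Fintype.piFinset fun _ : Fin (2 * p) => B).filter fun τ =>
      ∀ j, ∃ j', j' ≠ j ∧ τ j' = τ j) ⊆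
      ((Fintype.piFinset fun _ : Fin p => B) ×ˢ (univ : Finset (Fin (2 * p) → Fin p))).image
        fun q => q.1 ∘ q.2 := by
    intro τ hτ
    rw [mem_filter, Fintype.mem_piFinset] at hτ
    obtain ⟨hτB, hτ2⟩ := hτ
    have hcard : (univ.image τ).card ≤ p := by
      have h1 := Finset.card_eq_sum_card_image τ (univ : Finset (Fin (2 * p)))
      rw [card_univ, Fintype.card_fin] at h1
      have h2 : ∑ b ∈ univ.image τ, 2 ≤ ∑ b ∈ univ.image τ, (univ.filter fun x => τ x = b).card := by
        refine Finset.sum_le_sum fun b hb => ?_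
        obtain ⟨j, -, rfl⟩ := mem_image.1 hb
        obtain ⟨j', hj', he⟩ := hτ2 j
        have : ({j, j'} : Finset (Fin (2 * p))) ⊆ univ.filter fun x => τ x = τ j := by
          intro x hx
          rw [mem_insert, mem_singleton] at hx
          rcases hx with rfl | rfl
          · simp
          · simp [he]
        calc 2 = ({j, j'} : Finset (Fin (2 * p))).card := (card_pair hj'.symm).symm
          _ ≤ _ := card_le_card this
      rw [← h1, Finset.sum_const, smul_eq_mul] at h2
      omega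
    -- enumerate the image
    obtain ⟨e⟩ : Nonempty ((univ.image τ : Finset K) ↪ Fin p) := by
      refine Function.Embedding.nonempty_of_card_le ?_
      rw [Fintype.card_coe, Fintype.card_fin]
      exact hcard
    have hmem : ∀ j, τ j ∈ univ.image τ := fun j => mem_image_of_mem _ (mem_univ _)
    rw [mem_image]
    refine ⟨(fun i => if h : ∃ b, e b = i then (h.choose : K) else b0,
      fun j => e ⟨τ j, hmem j⟩), ?_, ?_⟩
    · rw [mem_product]
      refine ⟨?_, mem_univ _⟩
      rw [Fintype.mem_piFinset]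
      intro i
      simp only
      split_ifs with h
      · obtain ⟨j, -, hj⟩ := mem_image.1 h.choose.2
        rw [← hj]
        exact hτB j
      · exact hb0
    · funext j
      simp only [Function.comp_apply]
      have h : ∃ b, e b = e ⟨τ j, hmem j⟩ := ⟨_, rfl⟩
      rw [dif_pos h]
      have := e.injective h.choose_spec
      rw [this]
  calc _ ≤ _ := card_le_card hsub
    _ ≤ _ := card_image_le
    _ = B.card ^ p * p ^ (2 * p) := by
      rw [card_product, Fintype.card_piFinset, Finset.prod_const, card_univ, card_univ,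
        Fintype.card_fin, Fintype.card_fun, Fintype.card_fin, Fintype.card_fin]

/-- the `2p`-th moment of a sum of mean-zero functions of the values at distinct points -/
theorem moment_le {m : ℕ} (p : ℕ) (hp : 1 ≤ p) (hpm : 2 * p ≤ m) (B : Finset K) (φ : K → K → ℝ)
    (hφ : ∀ t, ∑ y, φ t y = 0) (hφ1 : ∀ t y, |φ t y| ≤ 1) :
    ∑ z : Fin m → K, (∑ t ∈ B, φ t ((cpoly z).eval t)) ^ (2 * p) ≤
      (Fintype.card K : ℝ) ^ m * ((B.card : ℝ) ^ p * (p : ℝ) ^ (2 * p)) := by
  classical
  have h1 : ∀ z : Fin m → K, (∑ t ∈ B, φ t ((cpoly z).eval t)) ^ (2 * p) =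
      ∑ τ ∈ Fintype.piFinset (fun _ : Fin (2 * p) => B), ∏ j, φ (τ j) ((cpoly z).eval (τ j)) := by
    intro z
    have h := Finset.prod_univ_sum (fun _ : Fin (2 * p) => B)
      (fun _ t => φ t ((cpoly z).eval t))
    rw [← h, Finset.prod_const, card_univ, Fintype.card_fin]
  rw [Finset.sum_congr rfl fun z _ => h1 z, Finset.sum_comm]
  set M := (Fintype.piFinset fun _ : Fin (2 * p) => B).filter fun τ =>
      ∀ j, ∃ j', j' ≠ j ∧ τ j' = τ j with hM
  have h2 : ∑ τ ∈ Fintype.piFinset (fun _ : Fin (2 * p) => B),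
      ∑ z : Fin m → K, ∏ j, φ (τ j) ((cpoly z).eval (τ j)) =
      ∑ τ ∈ M, ∑ z : Fin m → K, ∏ j, φ (τ j) ((cpoly z).eval (τ j)) := by
    rw [hM, Finset.sum_filter]
    refine Finset.sum_congr rfl fun τ _ => ?_
    split_ifs with h
    · rfl
    · push Not at h
      obtain ⟨j0, hj0⟩ := h
      exact vanish hpm τ φ hφ j0 hj0
  rw [h2]
  have h3 : ∀ τ ∈ M, ∑ z : Fin m → K, ∏ j, φ (τ j) ((cpoly z).eval (τ j)) ≤
      (Fintype.card K : ℝ) ^ m := by
    intro τ _
    calc ∑ z : Fin m → K, ∏ j, φ (τ j) ((cpoly z).eval (τ j)) ≤ ∑ z : Fin m → K, 1 := by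
          refine Finset.sum_le_sum fun z _ => ?_
          refine (le_abs_self _).trans ?_
          rw [Finset.abs_prod]
          exact Finset.prod_le_one (fun _ _ => abs_nonneg _) fun j _ => hφ1 _ _
      _ = (Fintype.card K : ℝ) ^ m := by simp
  calc ∑ τ ∈ M, ∑ z : Fin m → K, ∏ j, φ (τ j) ((cpoly z).eval (τ j))
      ≤ ∑ τ ∈ M, (Fintype.card K : ℝ) ^ m := Finset.sum_le_sum h3
    _ = (M.card : ℝ) * (Fintype.card K : ℝ) ^ m := by rw [Finset.sum_const, nsmul_eq_mul]
    _ ≤ ((B.card : ℝ) ^ p * (p : ℝ) ^ (2 * p)) * (Fintype.card K : ℝ) ^ m := by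
        refine mul_le_mul_of_nonneg_right ?_ (by positivity)
        have := card_multi p hp B
        exact_mod_cast this
    _ = _ := mul_comm _ _

end MomentAux

section Moment

variable {K : Type} [Field K] [Fintype K] [DecidableEq K]

theorem moment {ι : Type} {m : ℕ} (I : Finset ι) (hI : I.Nonempty) (h : ι → Fin m → K)
    (Bd p : ℕ) (hp : 1 ≤ p) (hpm : 2 * p ≤ m)
    (hfib : ∀ z, (I.filter fun i => h i = z).card * Fintype.card K ^ m ≤ Bd * I.card) :
    (univ.filter fun t : K => 1 / 8 < deficit I h t).card ^ p ≤ (64 * p ^ 2) ^ p * Bd := by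
  classical
  set B : Finset K := univ.filter fun t : K => 1 / 8 < deficit I h t with hB
  set q : ℝ := (Fintype.card K : ℝ) with hq
  have hq0 : 0 < q := by
    have : 0 < Fintype.card K := Fintype.card_pos
    rw [hq]; positivity
  set N : ℝ := (I.card : ℝ) with hN
  have hN0 : 0 < N := by
    rw [hN]; exact_mod_cast hI.card_pos
  -- the test functions
  set Pr : K → K → ℝ := fun t y => ((I.filter fun i => (cpoly (h i)).eval t = y).card : ℝ) / N
    with hPr
  set G : K → Finset K := fun t => univ.filter fun y => Pr t y < 1 / q with hG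
  set φ : K → K → ℝ := fun t y => ((G t).card : ℝ) / q - if y ∈ G t then 1 else 0 with hφ
  have hφ0 : ∀ t, ∑ y, φ t y = 0 := by
    intro t
    rw [hφ]
    simp only
    rw [Finset.sum_sub_distrib, Finset.sum_const, nsmul_eq_mul, card_univ, ← hq,
      mul_div_cancel₀ _ hq0.ne', Finset.sum_ite_mem, univ_inter, Finset.sum_const, nsmul_eq_mul,
      mul_one, sub_self]
  have hφ1 : ∀ t y, |φ t y| ≤ 1 := by
    intro t y
    have h1 : 0 ≤ ((G t).card : ℝ) / q := by positivity
    have h2 : ((G t).card : ℝ) / q ≤ 1 := by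
      rw [div_le_one hq0, hq]
      exact_mod_cast Finset.card_le_univ _
    rw [hφ]
    simp only
    rw [abs_le]
    split_ifs <;> constructor <;> linarith
  -- the deficit is the mean of the test function
  have hdef : ∀ t, deficit I h t = (∑ i ∈ I, φ t ((cpoly (h i)).eval t)) / N := by
    intro t
    have e1 : deficit I h t = ∑ y ∈ G t, (1 / q - Pr t y) := by
      rw [deficit, hG]
      simp only
      rw [Finset.sum_filter]
      refine Finset.sum_congr rfl fun y _ => ?_
      split_ifs with hy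
      · exact max_eq_right (sub_nonneg.2 hy.le)
      · exact max_eq_left (sub_nonpos.2 (not_lt.1 hy))
    have e2 : ∑ y ∈ G t, Pr t y = (∑ i ∈ I, if (cpoly (h i)).eval t ∈ G t then (1 : ℝ) else 0) / N := by
      rw [hPr]
      simp only
      rw [← Finset.sum_div]
      congr 1
      have : ∀ y ∈ G t, ((I.filter fun i => (cpoly (h i)).eval t = y).card : ℝ) =
          ∑ i ∈ I, if (cpoly (h i)).eval t = y then (1 : ℝ) else 0 := by
        intro y _
        rw [Finset.card_filter]
        push_cast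
        rfl
      rw [Finset.sum_congr rfl this, Finset.sum_comm]
      refine Finset.sum_congr rfl fun i _ => ?_
      rw [Finset.sum_ite_eq]
    rw [e1, Finset.sum_sub_distrib, e2, Finset.sum_const, nsmul_eq_mul, hφ]
    simp only
    rw [Finset.sum_sub_distrib, Finset.sum_const, nsmul_eq_mul, ← hN]
    field_simp
  -- power mean
  set Φ : (Fin m → K) → ℝ := fun z => ∑ t ∈ B, φ t ((cpoly z).eval t) with hΦ
  have hmean : (B.card : ℝ) / 8 ≤ ∑ i ∈ I, 1 / N * Φ (h i) := by
    calc (B.card : ℝ) / 8 = ∑ t ∈ B, (1 / 8 : ℝ) := by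
          rw [Finset.sum_const, nsmul_eq_mul]; ring
      _ ≤ ∑ t ∈ B, deficit I h t := by
          refine Finset.sum_le_sum fun t ht => ?_
          rw [hB, mem_filter] at ht
          exact ht.2.le
      _ = ∑ t ∈ B, ∑ i ∈ I, 1 / N * φ t ((cpoly (h i)).eval t) := by
          refine Finset.sum_congr rfl fun t _ => ?_
          rw [hdef t, Finset.sum_div]
          refine Finset.sum_congr rfl fun i _ => ?_
          ring
      _ = ∑ i ∈ I, 1 / N * Φ (h i) := by
          rw [Finset.sum_comm]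
          refine Finset.sum_congr rfl fun i _ => ?_
          rw [hΦ]
          simp only
          rw [Finset.mul_sum]
  have hpow : (∑ i ∈ I, 1 / N * Φ (h i)) ^ (2 * p) ≤ ∑ i ∈ I, 1 / N * Φ (h i) ^ (2 * p) := by
    refine Real.pow_arith_mean_le_arith_mean_pow_of_even I (fun _ => 1 / N) (fun i => Φ (h i))
      (fun _ _ => by positivity) ?_ (even_two_mul p)
    rw [Finset.sum_const, nsmul_eq_mul, ← hN]
    field_simp
  have hgroup : ∑ i ∈ I, 1 / N * Φ (h i) ^ (2 * p) =
      ∑ z : Fin m → K, ((I.filter fun i => h i = z).card : ℝ) / N * Φ z ^ (2 * p) := by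
    rw [← Finset.sum_fiberwise_of_maps_to (s := I) (t := univ) (g := h) (fun _ _ => mem_univ _)]
    refine Finset.sum_congr rfl fun z _ => ?_
    rw [Finset.sum_congr rfl (g := fun _ => 1 / N * Φ z ^ (2 * p))]
    · rw [Finset.sum_const, nsmul_eq_mul]; ring
    · intro i hi
      rw [(mem_filter.1 hi).2]
  have hbound : ∑ z : Fin m → K, ((I.filter fun i => h i = z).card : ℝ) / N * Φ z ^ (2 * p) ≤
      ∑ z : Fin m → K, (Bd : ℝ) / q ^ m * Φ z ^ (2 * p) := by
    refine Finset.sum_le_sum fun z _ => ?_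
    refine mul_le_mul_of_nonneg_right ?_ ?_
    · rw [div_le_div_iff₀ hN0 (by positivity), hq, hN]
      exact_mod_cast hfib z
    · rw [pow_mul]; positivity
  have hmom := MomentAux.moment_le (m := m) p hp hpm B φ hφ0 hφ1
  have hfin : ((B.card : ℝ) / 8) ^ (2 * p) ≤
      (Bd : ℝ) * ((B.card : ℝ) ^ p * (p : ℝ) ^ (2 * p)) := by
    calc ((B.card : ℝ) / 8) ^ (2 * p) ≤ (∑ i ∈ I, 1 / N * Φ (h i)) ^ (2 * p) :=
          pow_le_pow_left₀ (by positivity) hmean _
      _ ≤ ∑ i ∈ I, 1 / N * Φ (h i) ^ (2 * p) := hpow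
      _ = _ := hgroup
      _ ≤ _ := hbound
      _ = (Bd : ℝ) / q ^ m * ∑ z : Fin m → K, Φ z ^ (2 * p) := by rw [Finset.mul_sum]
      _ ≤ (Bd : ℝ) / q ^ m * (q ^ m * ((B.card : ℝ) ^ p * (p : ℝ) ^ (2 * p))) :=
          mul_le_mul_of_nonneg_left hmom (by positivity)
      _ = (Bd : ℝ) * ((B.card : ℝ) ^ p * (p : ℝ) ^ (2 * p)) := by
          field_simp
  rcases Nat.eq_zero_or_pos B.card with h0 | h0
  · rw [h0, zero_pow (by omega)]
    exact Nat.zero_le _
  · have hb : (0 : ℝ) < B.card := by exact_mod_cast h0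
    have h1 : (B.card : ℝ) ^ p * (B.card : ℝ) ^ p ≤
        (B.card : ℝ) ^ p * ((64 * (p : ℝ) ^ 2) ^ p * Bd) := by
      calc (B.card : ℝ) ^ p * (B.card : ℝ) ^ p = 64 ^ p * ((B.card : ℝ) / 8) ^ (2 * p) := by
            rw [pow_mul, ← mul_pow, ← mul_pow]
            congr 1
            ring
        _ ≤ 64 ^ p * ((Bd : ℝ) * ((B.card : ℝ) ^ p * (p : ℝ) ^ (2 * p))) :=
            mul_le_mul_of_nonneg_left hfin (by positivity)
        _ = (B.card : ℝ) ^ p * ((64 * (p : ℝ) ^ 2) ^ p * Bd) := by
            rw [mul_pow, ← pow_mul]; ring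
    have h2 := le_of_mul_le_mul_left h1 (by positivity)
    exact_mod_cast h2

end Moment

end Pool.Agent.LT
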