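import Pool.Agent.Lib.MP_b573ec_lc_LT.Explicit

/-!
# The two explicit languages

The size parameter of the functions of `Explicit.lean` is given by the first `log2 n` bits of the
input, so that one language serves for all bounds on the space.
-/

namespace Pool.Agent.LT

/-- the number of ones among the first `m` bits -/
def ones {n : ℕ} (m : ℕ) (x : Inp n) : ℕ :=
  (Finset.univ.filter fun i : Fin n => (i : ℕ) < m ∧ x i = true).card

/-- the input without its first `m` bits -/
def dropFirst {n : ℕ} (m : ℕ) (x : Inp n) : Inp (n - m) :=
  fun i => x ⟨m + i, by have := i.isLt; omega⟩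

/-- The language for `P ≠ RP` (inputs of length `n`).  Let `h` be the number of ones among the
first `m = log2 n` bits; the remaining `n - m` bits are an input of `cubeFn` of size
`(n - m) / 2 ^ h`. -/
noncomputable def langRP (n : ℕ) (x : Inp n) : Bool :=
  cubeFn (n - Nat.log 2 n) ((n - Nat.log 2 n) / 2 ^ ones (Nat.log 2 n) x)
    (dropFirst (Nat.log 2 n) x)

/-- The language for `RP ≠ NP` (inputs of length `n`).  Let `h` be the number of ones among the
first `m = log2 n` bits; the remaining `n - m` bits are an input of `factorFn` of size
`(n - m) / 2 ^ h`. -/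
noncomputable def langNP (n : ℕ) (x : Inp n) : Bool :=
  factorFn (n - Nat.log 2 n) ((n - Nat.log 2 n) / 2 ^ ones (Nat.log 2 n) x)
    (3 * (Nat.log 2 (n - Nat.log 2 n) + 1)) (dropFirst (Nat.log 2 n) x)

end Pool.Agent.LT
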