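import Pool.Agent.Lib.MP_b573ec_lc_LT.Defs2

/-!
# Repetition of a randomized program with a threshold
-/

namespace Pool.Agent.LT

open Finset Polynomial

namespace MajorityAux

variable {n T w a : ℕ}

/-- number of accepting copies among the first `q` -/
def cnt (Q : Fin a → Prog n T w) (x : Inp n) (q : ℕ) : ℕ :=
  (univ.filter fun j : Fin a => (j : ℕ) < q ∧ (Q j).eval x = true).card

theorem cnt_le (Q : Fin a → Prog n T w) (x : Inp n) (q : ℕ) : cnt Q x q ≤ a := by
  unfold cnt
  refine (card_le_univ _).trans ?_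
  simp

theorem cnt_zero (Q : Fin a → Prog n T w) (x : Inp n) : cnt Q x 0 = 0 := by
  unfold cnt
  simp

theorem cnt_succ (Q : Fin a → Prog n T w) (x : Inp n) (q : ℕ) (hq : q < a) :
    cnt Q x (q + 1) = cnt Q x q + if (Q ⟨q, hq⟩).eval x = true then 1 else 0 := by
  unfold cnt
  by_cases h : (Q ⟨q, hq⟩).eval x = true
  · rw [if_pos h]
    have : (univ.filter fun j : Fin a => (j : ℕ) < q + 1 ∧ (Q j).eval x = true) =
        insert ⟨q, hq⟩ (univ.filter fun j : Fin a => (j : ℕ) < q ∧ (Q j).eval x = true) := by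
      ext j
      simp only [mem_filter, mem_univ, true_and, mem_insert]
      constructor
      · rintro ⟨h1, h2⟩
        rcases Nat.lt_succ_iff_lt_or_eq.1 h1 with h3 | h3
        · exact Or.inr ⟨h3, h2⟩
        · left
          exact Fin.ext h3
      · rintro (h1 | ⟨h1, h2⟩)
        · subst h1
          exact ⟨Nat.lt_succ_self q, h⟩
        · exact ⟨Nat.lt_succ_of_lt h1, h2⟩
    rw [this, card_insert_of_notMem]
    simp
  · rw [if_neg h]
    show _ = (univ.filter fun j : Fin a => (j : ℕ) < q ∧ (Q j).eval x = true).card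
    refine congrArg Finset.card ?_
    ext j
    simp only [mem_filter, mem_univ, true_and]
    constructor
    · rintro ⟨h1, h2⟩
      rcases Nat.lt_succ_iff_lt_or_eq.1 h1 with h3 | h3
      · exact ⟨h3, h2⟩
      · exfalso
        have : j = ⟨q, hq⟩ := Fin.ext h3
        rw [this] at h2
        exact h h2
    · rintro ⟨h1, h2⟩
      exact ⟨Nat.lt_succ_of_lt h1, h2⟩

theorem div_lt (t : Fin (a * T)) : (t : ℕ) / T < a := by
  exact Nat.div_lt_of_lt_mul (lt_of_lt_of_eq t.2 (Nat.mul_comm a T))

theorem mod_lt (t : Fin (a * T)) : (t : ℕ) % T < T := by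
  refine Nat.mod_lt _ ?_
  rcases Nat.eq_zero_or_pos T with h | h
  · exfalso
    have h2 : (t : ℕ) < a * T := t.2
    have h3 : a * T = 0 := by rw [h, Nat.mul_zero]
    omega
  · exact h

/-- the repeated program with a counter -/
def amp (ha : 0 < a) (Q : Fin a → Prog n T w) (tau : ℕ) : Prog n (a * T) (w * (a + 1)) where
  start := finProdFinEquiv ((Q ⟨0, ha⟩).start, 0)
  var t S := (Q ⟨t / T, div_lt t⟩).var ⟨t % T, mod_lt t⟩ (finProdFinEquiv.symm S).1
  next t S b :=
    if (t : ℕ) % T + 1 < T then
      finProdFinEquiv ((Q ⟨t / T, div_lt t⟩).next ⟨t % T, mod_lt t⟩ (finProdFinEquiv.symm S).1 b,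
        (finProdFinEquiv.symm S).2)
    else
      finProdFinEquiv (if h : (t : ℕ) / T + 1 < a then (Q ⟨t / T + 1, h⟩).start else
          (Q ⟨t / T, div_lt t⟩).next ⟨t % T, mod_lt t⟩ (finProdFinEquiv.symm S).1 b,
        if (Q ⟨t / T, div_lt t⟩).acc ((Q ⟨t / T, div_lt t⟩).next ⟨t % T, mod_lt t⟩
            (finProdFinEquiv.symm S).1 b) = true then
          Fin.ofNat (a + 1) (((finProdFinEquiv.symm S).2 : ℕ) + 1)
        else (finProdFinEquiv.symm S).2)
  acc S := decide (tau ≤ ((finProdFinEquiv.symm S).2 : ℕ))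

theorem state_succ {n T w : ℕ} (P : Prog n T w) (x : Inp n) (i : ℕ) (h : i < T) :
    P.state x (i + 1) = P.next ⟨i, h⟩ (P.state x i) (x (P.var ⟨i, h⟩ (P.state x i))) := by
  show (if h : i < T then
      P.next ⟨i, h⟩ (P.state x i) (x (P.var ⟨i, h⟩ (P.state x i))) else P.state x i) = _
  rw [dif_pos h]

theorem amp_inner (ha : 0 < a) (Q : Fin a → Prog n T w) (tau : ℕ) (x : Inp n) (q : ℕ)
    (hq : q < a) (c : Fin (a + 1))
    (h0 : (amp ha Q tau).state x (q * T) = finProdFinEquiv ((Q ⟨q, hq⟩).start, c)) :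
    ∀ i, i < T → (amp ha Q tau).state x (q * T + i) =
      finProdFinEquiv ((Q ⟨q, hq⟩).state x i, c) := by
  intro i
  induction i with
  | zero =>
    intro _
    exact h0
  | succ i ih =>
    intro hi
    have hi' : i < T := Nat.lt_of_succ_lt hi
    have hT : 0 < T := lt_of_le_of_lt (Nat.zero_le _) hi'
    have e1 := ih hi'
    have hlt : q * T + i < a * T := by
      calc q * T + i < q * T + T := by omega
        _ = (q + 1) * T := by ring
        _ ≤ a * T := Nat.mul_le_mul_right _ hq
    have hdiv : (q * T + i) / T = q := by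
      rw [Nat.add_comm, Nat.add_mul_div_right _ _ hT, Nat.div_eq_of_lt hi', Nat.zero_add]
    have hmod : (q * T + i) % T = i := by
      rw [Nat.add_comm, Nat.add_mul_mod_self_right, Nat.mod_eq_of_lt hi']
    rw [← Nat.add_assoc, state_succ _ _ _ hlt, e1, state_succ _ _ _ hi']
    simp only [amp, hdiv, hmod, Equiv.symm_apply_apply]
    rw [if_pos hi]

theorem amp_outer (hT : 1 ≤ T) (ha : 0 < a) (Q : Fin a → Prog n T w) (tau : ℕ) (x : Inp n) :
    ∀ q, q ≤ a → ∃ s, (amp ha Q tau).state x (q * T) =
      finProdFinEquiv (s, Fin.ofNat (a + 1) (cnt Q x q)) ∧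
      ∀ h : q < a, s = (Q ⟨q, h⟩).start := by
  intro q
  induction q with
  | zero =>
    intro _
    refine ⟨(Q ⟨0, ha⟩).start, ?_, fun _ => rfl⟩
    rw [Nat.zero_mul, cnt_zero]
    rfl
  | succ q ih =>
    intro hq
    obtain ⟨s, hs, hs'⟩ := ih (Nat.le_of_succ_le hq)
    have hqa : q < a := hq
    rw [hs' hqa] at hs
    have hTi : T - 1 < T := Nat.sub_lt hT Nat.one_pos
    have e1 := amp_inner ha Q tau x q hqa _ hs (T - 1) hTi
    have hlt : q * T + (T - 1) < a * T := by
      calc q * T + (T - 1) < q * T + T := by omega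
        _ = (q + 1) * T := by ring
        _ ≤ a * T := Nat.mul_le_mul_right _ hq
    have hdiv : (q * T + (T - 1)) / T = q := by
      rw [Nat.add_comm, Nat.add_mul_div_right _ _ hT, Nat.div_eq_of_lt hTi, Nat.zero_add]
    have hmod : (q * T + (T - 1)) % T = T - 1 := by
      rw [Nat.add_comm, Nat.add_mul_mod_self_right, Nat.mod_eq_of_lt hTi]
    have hidx : (q + 1) * T = q * T + (T - 1) + 1 := by
      have : (q + 1) * T = q * T + T := by ring
      omega
    have hfin : (Q ⟨q, hqa⟩).next ⟨T - 1, hTi⟩ ((Q ⟨q, hqa⟩).state x (T - 1))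
        (x ((Q ⟨q, hqa⟩).var ⟨T - 1, hTi⟩ ((Q ⟨q, hqa⟩).state x (T - 1)))) =
        (Q ⟨q, hqa⟩).state x T := by
      have := state_succ (Q ⟨q, hqa⟩) x (T - 1) hTi
      rw [Nat.sub_add_cancel hT] at this
      exact this.symm
    have hstep : (amp ha Q tau).state x ((q + 1) * T) =
        finProdFinEquiv (if h : q + 1 < a then (Q ⟨q + 1, h⟩).start else
          (Q ⟨q, hqa⟩).state x T,
          if (Q ⟨q, hqa⟩).acc ((Q ⟨q, hqa⟩).state x T) = true then
            Fin.ofNat (a + 1) ((Fin.ofNat (a + 1) (cnt Q x q) : ℕ) + 1)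
          else Fin.ofNat (a + 1) (cnt Q x q)) := by
      rw [hidx, state_succ _ _ _ hlt, e1]
      simp only [amp, hdiv, hmod, Equiv.symm_apply_apply]
      rw [if_neg (by omega), hfin]
    refine ⟨if h : q + 1 < a then (Q ⟨q + 1, h⟩).start else (Q ⟨q, hqa⟩).state x T, ?_, ?_⟩
    · rw [hstep]
      congr 2
      rw [cnt_succ Q x q hqa]
      have hval : ((Fin.ofNat (a + 1) (cnt Q x q) : Fin (a + 1)) : ℕ) = cnt Q x q := by
        simp only [Fin.ofNat]
        exact Nat.mod_eq_of_lt (Nat.lt_succ_of_le (cnt_le Q x q))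
      rw [hval]
      unfold Prog.eval
      by_cases h : (Q ⟨q, hqa⟩).acc ((Q ⟨q, hqa⟩).state x T) = true
      · rw [if_pos h, if_pos h]
      · rw [if_neg h, if_neg h]
        rfl
    · intro h
      rw [dif_pos h]

theorem amp_eval (hT : 1 ≤ T) (ha : 0 < a) (Q : Fin a → Prog n T w) (tau : ℕ) (x : Inp n) :
    (amp ha Q tau).eval x =
      decide (tau ≤ (univ.filter fun j : Fin a => (Q j).eval x = true).card) := by
  obtain ⟨s, hs, -⟩ := amp_outer hT ha Q tau x a le_rfl
  have hc : cnt Q x a = (univ.filter fun j : Fin a => (Q j).eval x = true).card := by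
    unfold cnt
    congr 1
    ext j
    simp
  have hval : ((Fin.ofNat (a + 1) (cnt Q x a) : Fin (a + 1)) : ℕ) = cnt Q x a := by
    simp only [Fin.ofNat]
    exact Nat.mod_eq_of_lt (Nat.lt_succ_of_le (cnt_le Q x a))
  unfold Prog.eval
  rw [hs]
  simp only [amp, Equiv.symm_apply_apply]
  rw [hval, hc]
  rfl

/-- random bits of the repeated program -/
def split (a ρ : ℕ) : (Fin (a * ρ) → Bool) ≃ (Fin a → Fin ρ → Bool) :=
  (Equiv.arrowCongr finProdFinEquiv.symm (Equiv.refl Bool)).trans (Equiv.curry _ _ _)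

/-- the number of `c` whose split satisfies `p` -/
theorem card_split (a ρ : ℕ) (p : (Fin a → Fin ρ → Bool) → Prop) [DecidablePred p] :
    (univ.filter fun c : Fin (a * ρ) → Bool => p (split a ρ c)).card =
      (univ.filter fun d : Fin a → Fin ρ → Bool => p d).card := by
  refine card_bij (fun c _ => split a ρ c) ?_ ?_ ?_
  · intro c hc
    simpa using hc
  · intro c _ d _ h
    exact (split a ρ).injective h
  · intro d hd
    refine ⟨(split a ρ).symm d, ?_, ?_⟩
    · simpa using hd
    · simp

/-- few copies are wrong, most of the time -/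
theorem card_many {C : Type} [Fintype C] [DecidableEq C] (a m : ℕ) (p : C → Prop)
    [DecidablePred p] :
    (univ.filter fun d : Fin a → C => m ≤ (univ.filter fun i => p (d i)).card).card * 2 ^ m ≤
      (Fintype.card C + (univ.filter fun c => p c).card) ^ a := by
  have h1 : (Fintype.card C + (univ.filter fun c => p c).card) ^ a =
      ∑ d : Fin a → C, 2 ^ (univ.filter fun i => p (d i)).card := by
    have h2 : ∏ _i : Fin a, ∑ c : C, (1 + if p c then 1 else 0) =
        ∑ d : Fin a → C, ∏ i : Fin a, (1 + if p (d i) then 1 else 0) := by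
      rw [Finset.prod_univ_sum]
      simp
    have h3 : ∑ c : C, (1 + if p c then 1 else 0) =
        Fintype.card C + (univ.filter fun c => p c).card := by
      rw [sum_add_distrib, card_filter]
      simp
    rw [h3] at h2
    rw [prod_const, card_univ, Fintype.card_fin] at h2
    rw [h2]
    refine sum_congr rfl fun d _ => ?_
    rw [card_filter, ← prod_pow_eq_pow_sum]
    refine prod_congr rfl fun i _ => ?_
    by_cases h : p (d i)
    · simp [h]
    · simp [h]
  rw [h1]
  calc (univ.filter fun d : Fin a → C => m ≤ (univ.filter fun i => p (d i)).card).card * 2 ^ m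
      = ∑ _d ∈ univ.filter (fun d : Fin a → C => m ≤ (univ.filter fun i => p (d i)).card),
          2 ^ m := by rw [sum_const, smul_eq_mul]
    _ ≤ ∑ d ∈ univ.filter (fun d : Fin a → C => m ≤ (univ.filter fun i => p (d i)).card),
          2 ^ (univ.filter fun i => p (d i)).card := by
        refine sum_le_sum fun d hd => ?_
        exact Nat.pow_le_pow_right (by norm_num) (mem_filter.1 hd).2
    _ ≤ ∑ d : Fin a → C, 2 ^ (univ.filter fun i => p (d i)).card :=
        sum_le_sum_of_subset (filter_subset _ _)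

end MajorityAux

open MajorityAux

theorem majority {n T w s : ℕ} (hT : 1 ≤ T) (hs : 1 ≤ s) (f : Inp n → Bool)
    (h : TwoSided f T w) : SmallErr f (12 * s * T) (w * (12 * s + 1)) s := by
  obtain ⟨ρ, P, hP⟩ := h
  have ha : 0 < 12 * s := by omega
  refine ⟨12 * s * ρ, fun c => amp ha (fun i => P (split (12 * s) ρ c i)) (6 * s), ?_⟩
  intro x
  set W := (univ.filter fun c => (P c).eval x ≠ f x).card with hW
  have hcard : Fintype.card (Fin ρ → Bool) = 2 ^ ρ := by simp
  have hW3 : 3 * W ≤ 2 ^ ρ := by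
    have h1 := hP x
    have h2 : (univ.filter fun c => (P c).eval x = f x).card + W = 2 ^ ρ := by
      rw [hW, card_filter_add_card_filter_not, card_univ, hcard]
    omega
  have hsub : (univ.filter fun c : Fin (12 * s * ρ) → Bool =>
      (amp ha (fun i => P (split (12 * s) ρ c i)) (6 * s)).eval x ≠ f x).card ≤
      (univ.filter fun c : Fin (12 * s * ρ) → Bool =>
        6 * s ≤ (univ.filter fun i => (P (split (12 * s) ρ c i)).eval x ≠ f x).card).card := by
    refine card_le_card ?_
    intro c hc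
    simp only [mem_filter, mem_univ, true_and] at hc ⊢
    rw [amp_eval hT] at hc
    by_cases hf : f x = true
    · rw [hf] at hc ⊢
      have h1 : ¬ (6 * s ≤ (univ.filter fun j : Fin (12 * s) =>
          (P (split (12 * s) ρ c j)).eval x = true).card) := by
        simpa using hc
      have h2 : (univ.filter fun j : Fin (12 * s) =>
          (P (split (12 * s) ρ c j)).eval x = true).card +
          (univ.filter fun j : Fin (12 * s) =>
            (P (split (12 * s) ρ c j)).eval x ≠ true).card = 12 * s := by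
        rw [card_filter_add_card_filter_not, card_univ, Fintype.card_fin]
      omega
    · have hf' : f x = false := by simpa using hf
      rw [hf'] at hc ⊢
      have h1 : 6 * s ≤ (univ.filter fun j : Fin (12 * s) =>
          (P (split (12 * s) ρ c j)).eval x = true).card := by
        simpa using hc
      simpa using h1
  have hcnt := card_split (12 * s) ρ
    (fun d => 6 * s ≤ (univ.filter fun i => (P (d i)).eval x ≠ f x).card)
  have hmany := card_many (12 * s) (6 * s) (fun c : Fin ρ → Bool => (P c).eval x ≠ f x)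
  rw [hcnt] at hsub
  rw [hcard, ← hW] at hmany
  set N := (univ.filter fun d : Fin (12 * s) → Fin ρ → Bool =>
    6 * s ≤ (univ.filter fun i => (P (d i)).eval x ≠ f x).card).card with hN
  refine (Nat.mul_le_mul_right _ hsub).trans ?_
  -- numeric part
  have e1 : 3 ^ (12 * s) * (2 ^ ρ + W) ^ (12 * s) ≤ 4 ^ (12 * s) * (2 ^ ρ) ^ (12 * s) := by
    rw [← mul_pow, ← mul_pow]
    exact Nat.pow_le_pow_left (by omega) _
  have e2 : 2 ^ s * 4 ^ (12 * s) ≤ 3 ^ (12 * s) * 2 ^ (6 * s) := by
    rw [pow_mul, pow_mul 3, pow_mul 2 6, ← mul_pow, ← mul_pow]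
    exact Nat.pow_le_pow_left (by norm_num) _
  have e3 : (N * 2 ^ s) * (3 ^ (12 * s) * 2 ^ (6 * s)) ≤
      2 ^ (12 * s * ρ) * (3 ^ (12 * s) * 2 ^ (6 * s)) := by
    calc (N * 2 ^ s) * (3 ^ (12 * s) * 2 ^ (6 * s))
        = 2 ^ s * (3 ^ (12 * s) * (N * 2 ^ (6 * s))) := by ring
      _ ≤ 2 ^ s * (3 ^ (12 * s) * (2 ^ ρ + W) ^ (12 * s)) := by gcongr
      _ ≤ 2 ^ s * (4 ^ (12 * s) * (2 ^ ρ) ^ (12 * s)) := by gcongr
      _ = (2 ^ s * 4 ^ (12 * s)) * (2 ^ ρ) ^ (12 * s) := by ring
      _ ≤ (3 ^ (12 * s) * 2 ^ (6 * s)) * (2 ^ ρ) ^ (12 * s) := by gcongr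
      _ = 2 ^ (12 * s * ρ) * (3 ^ (12 * s) * 2 ^ (6 * s)) := by
        rw [← pow_mul, mul_comm ρ]
        ring
  exact Nat.le_of_mul_le_mul_right e3 (by positivity)

theorem one_amp {n T w s : ℕ} (hT : 1 ≤ T) (hs : 1 ≤ s) (f : Inp n → Bool)
    (h : OneSided f T w) : SmallErr f (12 * s * T) (w * (12 * s + 1)) s := by
  obtain ⟨ρ, P, hP1, hP0⟩ := h
  have ha : 0 < 12 * s := by omega
  refine ⟨12 * s * ρ, fun c => amp ha (fun i => P (split (12 * s) ρ c i)) 1, ?_⟩
  intro x
  have hcard : Fintype.card (Fin ρ → Bool) = 2 ^ ρ := by simp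
  by_cases hf : f x = true
  · set W := (univ.filter fun c => (P c).eval x = false).card with hW
    have hW2 : 2 * W ≤ 2 ^ ρ := by
      have h1 := hP1 x hf
      have h2 : (univ.filter fun c => (P c).eval x = true).card + W = 2 ^ ρ := by
        have h3 : (univ.filter fun c => (P c).eval x = false) =
            univ.filter fun c => ¬ (P c).eval x = true := by
          ext c
          simp
        rw [hW, h3, card_filter_add_card_filter_not, card_univ, hcard]
      omega
    have hsub : (univ.filter fun c : Fin (12 * s * ρ) → Bool =>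
        (amp ha (fun i => P (split (12 * s) ρ c i)) 1).eval x ≠ f x).card ≤
        (univ.filter fun c : Fin (12 * s * ρ) → Bool =>
          ∀ i, (P (split (12 * s) ρ c i)).eval x = false).card := by
      refine card_le_card ?_
      intro c hc
      simp only [mem_filter, mem_univ, true_and] at hc ⊢
      rw [amp_eval hT, hf] at hc
      have h1 : ¬ (1 ≤ (univ.filter fun j : Fin (12 * s) =>
          (P (split (12 * s) ρ c j)).eval x = true).card) := by
        simpa using hc
      intro i
      by_contra h2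
      apply h1
      refine card_pos.2 ⟨i, ?_⟩
      simp only [mem_filter, mem_univ, true_and]
      simpa using h2
    have hcnt := card_split (12 * s) ρ (fun d => ∀ i, (P (d i)).eval x = false)
    rw [hcnt] at hsub
    have hpow : (univ.filter fun d : Fin (12 * s) → Fin ρ → Bool =>
        ∀ i, (P (d i)).eval x = false).card = W ^ (12 * s) := by
      have h3 : (univ.filter fun d : Fin (12 * s) → Fin ρ → Bool =>
          ∀ i, (P (d i)).eval x = false) =
          Fintype.piFinset fun _ : Fin (12 * s) =>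
            (univ.filter fun c => (P c).eval x = false) := by
        ext d
        simp [Fintype.mem_piFinset]
      rw [h3, Fintype.card_piFinset_const, ← hW]
    rw [hpow] at hsub
    refine (Nat.mul_le_mul_right _ hsub).trans ?_
    calc W ^ (12 * s) * 2 ^ s ≤ W ^ (12 * s) * 2 ^ (12 * s) := by
          gcongr
          · norm_num
          · omega
      _ = (2 * W) ^ (12 * s) := by rw [mul_pow, mul_comm]
      _ ≤ (2 ^ ρ) ^ (12 * s) := Nat.pow_le_pow_left hW2 _
      _ = 2 ^ (12 * s * ρ) := by rw [← pow_mul, mul_comm]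
  · have hf' : f x = false := by simpa using hf
    have hemp : (univ.filter fun c : Fin (12 * s * ρ) → Bool =>
        (amp ha (fun i => P (split (12 * s) ρ c i)) 1).eval x ≠ f x) = ∅ := by
      ext c
      simp only [mem_filter, mem_univ, true_and, notMem_empty, iff_false, ne_eq, not_not]
      rw [amp_eval hT, hf', decide_eq_false_iff_not]
      have : (univ.filter fun j : Fin (12 * s) =>
          (P (split (12 * s) ρ c j)).eval x = true) = ∅ := by
        ext j
        simp [hP0 x hf']
      rw [this]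
      simp
    rw [hemp]
    simp

end Pool.Agent.LT
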