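import Pool.Agent.Lib.MP_b573ec_lc_LT.Defs2
import Pool.Agent.Lib.MP_b573ec_lc_LT.Rect

/-!
# Small facts used by both lower bounds
-/

namespace Pool.Agent.LT

open Finset

/-- the hash of a mixed input -/
lemma hash_mix {n : ℕ} {W : Type*} [AddCommGroup W] (γ : Fin n → W) (A Bf : Finset (Fin n))
    (hd : Disjoint A Bf) (x y z : Inp n) (hy : ∀ v, v ∉ A → y v = x v)
    (hz : ∀ v, v ∉ Bf → z v = x v) :
    hash γ (fun v => if v ∈ A then y v else z v) = hash γ y + (hash γ z - hash γ x) := by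
  unfold hash
  rw [← sum_sub_distrib, ← sum_add_distrib]
  refine sum_congr rfl fun v _ => ?_
  by_cases hv : v ∈ A
  · have h1 : z v = x v := hz v (disjoint_left.mp hd hv)
    simp [hv, h1]
  · have h1 : y v = x v := hy v hv
    simp [hv, h1]

/-- many values of the hash on a large side -/
lemma many_values {n : ℕ} {W : Type} [AddCommGroup W] [DecidableEq W] (γ : Fin n → W)
    (D g lam : ℕ) (hγ : GoodHash γ D g) (A : Finset (Fin n)) (hA : 2 * D ≤ A.card) (x : Inp n)
    (S : Finset (Inp n)) (hS : ∀ y ∈ S, ∀ v, v ∉ A → y v = x v)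
    (hcard : 2 ^ A.card ≤ S.card * 2 ^ lam) :
    2 ^ D ≤ (S.image (hash γ)).card * 2 ^ (lam + g) := by
  have hfib : ∀ z ∈ S.image (hash γ), (S.filter fun y => hash γ y = z).card * 2 ^ D ≤
      2 ^ (A.card + g) := by
    intro z _
    refine le_trans (Nat.mul_le_mul_right _ (card_le_card ?_)) (hγ A hA x z)
    intro y hy
    rw [mem_filter] at hy ⊢
    exact ⟨mem_univ _, hS y hy.1, hy.2⟩
  have h1 : S.card * 2 ^ D ≤ (S.image (hash γ)).card * 2 ^ (A.card + g) := by
    rw [card_eq_sum_card_image (hash γ) S, sum_mul]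
    calc ∑ z ∈ S.image (hash γ), (S.filter fun y => hash γ y = z).card * 2 ^ D
        ≤ ∑ _z ∈ S.image (hash γ), 2 ^ (A.card + g) := sum_le_sum hfib
      _ = (S.image (hash γ)).card * 2 ^ (A.card + g) := by rw [sum_const, smul_eq_mul]
  have h2 : 2 ^ A.card * 2 ^ D ≤
      2 ^ A.card * ((S.image (hash γ)).card * 2 ^ (lam + g)) := by
    calc 2 ^ A.card * 2 ^ D ≤ S.card * 2 ^ lam * 2 ^ D := Nat.mul_le_mul_right _ hcard
      _ = S.card * 2 ^ D * 2 ^ lam := by ring
      _ ≤ (S.image (hash γ)).card * 2 ^ (A.card + g) * 2 ^ lam := Nat.mul_le_mul_right _ h1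
      _ = 2 ^ A.card * ((S.image (hash γ)).card * 2 ^ (lam + g)) := by
          rw [pow_add, pow_add]; ring
  exact Nat.le_of_mul_le_mul_left h2 (by positivity)

/-- on a class of a block system the hash of a mixture of members of the sides -/
lemma cls_mix {n w r : ℕ} {W : Type*} [AddCommGroup W] (γ : Fin n → W) (B : BlockSys n w)
    (F : Fin r → ℕ) (U : Finset (Fin n)) (hcov : ∀ x v, (B.Lay r x v).Nonempty) (x y z : Inp n)
    (hy : y ∈ B.side F U 0 x) (hz : z ∈ B.side F U 1 x) :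
    ∃ u ∈ B.cls F U x, hash γ u = hash γ y + (hash γ z - hash γ x) := by
  rw [BlockSys.side, mem_filter] at hy hz
  refine ⟨_, mix_mem B F U hcov hy.1 hz.1, ?_⟩
  exact hash_mix γ _ _ (foot_disjoint B F U x (hcov x)) x y z hy.2 hz.2

end Pool.Agent.LT
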