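import Pool.Agent.Lib.MP_b573ec_lc_LT.Model

/-!
# Block systems (auxiliary, not used in the final statements)
-/

namespace Pool.Agent.LT

/-! ### Block systems (the general form of a program cut into blocks of steps) -/

/-- A block system: in block `l` from state `s` the set `rd l s x` of variables of `x` is read, and
the next state is `nx l s x`; both depend only on the values read. -/
structure BlockSys (n w : ℕ) where
  start : Fin w
  rd : ℕ → Fin w → Inp n → Finset (Fin n)
  nx : ℕ → Fin w → Inp n → Fin w
  dep_rd : ∀ l s x y, (∀ v ∈ rd l s x, x v = y v) → rd l s y = rd l s x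
  dep_nx : ∀ l s x y, (∀ v ∈ rd l s x, x v = y v) → nx l s y = nx l s x

namespace BlockSys

variable {n w : ℕ} (B : BlockSys n w)

/-- the state before block `l` -/
def tr (x : Inp n) : ℕ → Fin w
  | 0 => B.start
  | l + 1 => B.nx l (tr x l) x

/-- the variables read in block `l` on the input `x` -/
def R (x : Inp n) (l : ℕ) : Finset (Fin n) := B.rd l (B.tr x l) x

/-- the blocks in which `x` reads the variable `v` -/
def Lay (r : ℕ) (x : Inp n) (v : Fin n) : Finset (Fin r) :=
  Finset.univ.filter fun l => v ∈ B.R x l

/-- the variables of `U` which `x` reads only in blocks of colour `c` -/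
def foot {r : ℕ} (F : Fin r → ℕ) (U : Finset (Fin n)) (c : ℕ) (x : Inp n) : Finset (Fin n) :=
  U.filter fun v => ∀ l ∈ B.Lay r x v, F l = c

/-- the class of `x`: same states at the block boundaries, same feet, same values off the feet -/
def cls {r : ℕ} (F : Fin r → ℕ) (U : Finset (Fin n)) (x : Inp n) : Finset (Inp n) :=
  Finset.univ.filter fun y => (∀ l ≤ r, B.tr y l = B.tr x l) ∧
    B.foot F U 0 y = B.foot F U 0 x ∧ B.foot F U 1 y = B.foot F U 1 x ∧
    ∀ v, v ∉ B.foot F U 0 x → v ∉ B.foot F U 1 x → y v = x v

/-- the members of the class of `x` which agree with `x` off the foot of colour `c` -/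
def side {r : ℕ} (F : Fin r → ℕ) (U : Finset (Fin n)) (c : ℕ) (x : Inp n) : Finset (Inp n) :=
  (B.cls F U x).filter fun y => ∀ v, v ∉ B.foot F U c x → y v = x v

/-- the exceptional variables: fewer than `j` blocks, all of one of the colours `0, 1`; or more
than `j` blocks, all of colours `0` and `1` -/
def bad {r : ℕ} (F : Fin r → ℕ) (U : Finset (Fin n)) (j : ℕ) (x : Inp n) : Finset (Fin n) :=
  U.filter fun v => ((B.Lay r x v).card < j ∧
      ((∀ l ∈ B.Lay r x v, F l = 0) ∨ ∀ l ∈ B.Lay r x v, F l = 1)) ∨
    (j < (B.Lay r x v).card ∧ ∀ l ∈ B.Lay r x v, F l < 2)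

end BlockSys

/-- the hash `∑ x_v γ_v` of an input -/
def hash {n : ℕ} {W : Type*} [AddCommGroup W] (γ : Fin n → W) (x : Inp n) : W :=
  ∑ v, if x v then γ v else 0

/-- number of subsets with at most `e` elements of a set with `n` elements -/
def nsub (n e : ℕ) : ℕ := ∑ i ∈ Finset.range (e + 1), n.choose i

end Pool.Agent.LT
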