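import Pool.Agent.Lib.MP_b573ec_lc_LT.Defs2

/-!
# Module M7 of project LT: a linear hash with small fibres on all large subcubes

`exists_gamma`: union bound over the pairs `(A, φ)`, `φ` a surjective linear map `W → (ZMod 2)^g`
killing all `γ v`, `v ∈ A`.
-/

namespace Pool.Agent.LT

open Finset Polynomial

namespace GammaAux

variable {W : Type} [AddCommGroup W] [Module (ZMod 2) W] [Fintype W]

/-- the kernel of a surjective map to `(ZMod 2)^g`, counted -/
theorem card_ker {D g : ℕ} (hW : Fintype.card W = 2 ^ D) (φ : W →ₗ[ZMod 2] (Fin g → ZMod 2))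
    (hφ : Function.Surjective φ) :
    Nat.card (LinearMap.ker φ) * 2 ^ g = 2 ^ D := by
  classical
  have h1 : Nat.card (LinearMap.ker φ) = 2 ^ Module.finrank (ZMod 2) (LinearMap.ker φ) := by
    have := Module.natCard_eq_pow_finrank (K := ZMod 2) (V := LinearMap.ker φ)
    simpa using this
  have h2 : Nat.card W = 2 ^ Module.finrank (ZMod 2) W := by
    have := Module.natCard_eq_pow_finrank (K := ZMod 2) (V := W)
    simpa using this
  have h3 : Module.finrank (ZMod 2) W = D := by
    rw [Nat.card_eq_fintype_card, hW] at h2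
    exact (Nat.pow_right_injective le_rfl h2).symm
  have h4 := LinearMap.finrank_range_add_finrank_ker φ
  rw [LinearMap.range_eq_top.2 hφ, finrank_top, Module.finrank_fin_fun, h3] at h4
  rw [h1, ← pow_add, add_comm, h4]

/-- the number of `γ` such that `φ` kills all `γ v`, `v ∈ A` -/
theorem card_bad {n D g : ℕ} [DecidableEq W] (hW : Fintype.card W = 2 ^ D)
    (φ : W →ₗ[ZMod 2] (Fin g → ZMod 2)) (hφ : Function.Surjective φ) (A : Finset (Fin n)) :
    (univ.filter fun γ : Fin n → W => ∀ v ∈ A, φ (γ v) = 0).card * 2 ^ (g * A.card) =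
      2 ^ (D * n) := by
  classical
  have h0 : (univ.filter fun γ : Fin n → W => ∀ v ∈ A, φ (γ v) = 0) =
      Fintype.piFinset (fun v => if v ∈ A then univ.filter (fun w : W => φ w = 0) else univ) := by
    ext γ
    simp only [mem_filter, mem_univ, true_and, Fintype.mem_piFinset]
    constructor
    · intro h v
      by_cases hv : v ∈ A
      · simp [hv, h v hv]
      · simp [hv]
    · intro h v hv
      have := h v
      simpa [hv] using this
  have hk : (univ.filter (fun w : W => φ w = 0)).card * 2 ^ g = 2 ^ D := by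
    rw [← card_ker hW φ hφ]
    congr 1
    rw [Nat.card_eq_fintype_card, Fintype.card_subtype]
    refine congrArg _ (Finset.filter_congr fun w _ => ?_)
    rw [LinearMap.mem_ker]
  have h1 : ∀ v : Fin n, (if v ∈ A then univ.filter (fun w : W => φ w = 0) else univ).card =
      if v ∈ A then (univ.filter (fun w : W => φ w = 0)).card else 2 ^ D := by
    intro v
    split_ifs
    · rfl
    · rw [card_univ, hW]
  rw [h0, Fintype.card_piFinset, Finset.prod_congr rfl (fun v _ => h1 v), Finset.prod_ite,
    Finset.prod_const, Finset.prod_const]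
  have h2 : (univ.filter fun v => v ∈ A) = A := by ext; simp
  have h3 : (univ.filter fun v => v ∉ A).card = n - A.card := by
    have : (univ.filter fun v => v ∉ A) = univ \ A := by ext; simp
    rw [this, Finset.card_sdiff_of_subset (subset_univ _), card_univ, Fintype.card_fin]
  rw [h2, h3]
  have hA : A.card ≤ n := by
    have := Finset.card_le_univ A
    simpa using this
  calc (univ.filter (fun w : W => φ w = 0)).card ^ A.card * (2 ^ D) ^ (n - A.card) *
        2 ^ (g * A.card)
      = ((univ.filter (fun w : W => φ w = 0)).card * 2 ^ g) ^ A.card * (2 ^ D) ^ (n - A.card) := by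
        rw [mul_pow, pow_mul]; ring
    _ = (2 ^ D) ^ A.card * (2 ^ D) ^ (n - A.card) := by rw [hk]
    _ = 2 ^ (D * n) := by
        rw [← pow_add, Nat.add_sub_cancel' hA, pow_mul]

/-- there is a `γ` without bad pairs -/
theorem exists_good {n D g : ℕ} [DecidableEq W] (hW : Fintype.card W = 2 ^ D)
    (hg : n < D * g) :
    ∃ γ : Fin n → W, ∀ A : Finset (Fin n), 2 * D ≤ A.card →
      ∀ φ : W →ₗ[ZMod 2] (Fin g → ZMod 2), Function.Surjective φ → ∃ v ∈ A, φ (γ v) ≠ 0 := by
  classical
  by_contra hcon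
  push Not at hcon
  have : Finite (W →ₗ[ZMod 2] (Fin g → ZMod 2)) :=
    Finite.of_injective (fun φ => (φ : W → (Fin g → ZMod 2))) DFunLike.coe_injective
  let _ : Fintype (W →ₗ[ZMod 2] (Fin g → ZMod 2)) := Fintype.ofFinite _
  -- the number of linear maps
  have hD : Module.finrank (ZMod 2) W = D := by
    have h2 : Nat.card W = 2 ^ Module.finrank (ZMod 2) W := by
      have := Module.natCard_eq_pow_finrank (K := ZMod 2) (V := W)
      simpa using this
    rw [Nat.card_eq_fintype_card, hW] at h2
    exact (Nat.pow_right_injective le_rfl h2).symm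
  have hlin : Fintype.card (W →ₗ[ZMod 2] (Fin g → ZMod 2)) = 2 ^ (D * g) := by
    have := Module.natCard_eq_pow_finrank (K := ZMod 2) (V := W →ₗ[ZMod 2] (Fin g → ZMod 2))
    rw [Nat.card_eq_fintype_card, Module.finrank_linearMap, Module.finrank_fin_fun, hD] at this
    simpa using this
  set S : Finset (Finset (Fin n) × (W →ₗ[ZMod 2] (Fin g → ZMod 2))) :=
    univ.filter fun p => 2 * D ≤ p.1.card ∧ Function.Surjective p.2 with hS
  have hcov : (univ : Finset (Fin n → W)) ⊆
      S.biUnion fun p => univ.filter fun γ : Fin n → W => ∀ v ∈ p.1, p.2 (γ v) = 0 := by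
    intro γ _
    obtain ⟨A, hA, φ, hφ, h⟩ := hcon γ
    rw [mem_biUnion]
    exact ⟨(A, φ), by simp [hS, hA, hφ], by simpa using h⟩
  have h1 : Fintype.card (Fin n → W) ≤
      ∑ p ∈ S, (univ.filter fun γ : Fin n → W => ∀ v ∈ p.1, p.2 (γ v) = 0).card := by
    rw [← card_univ]
    exact (card_le_card hcov).trans card_biUnion_le
  have h2 : ∀ p ∈ S, (univ.filter fun γ : Fin n → W => ∀ v ∈ p.1, p.2 (γ v) = 0).card *
      2 ^ (2 * (D * g)) ≤ 2 ^ (D * n) := by
    intro p hp
    rw [hS, mem_filter] at hp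
    rw [← card_bad hW p.2 hp.2.2 p.1]
    refine Nat.mul_le_mul_left _ (Nat.pow_le_pow_right (by norm_num) ?_)
    calc 2 * (D * g) = g * (2 * D) := by ring
      _ ≤ g * p.1.card := Nat.mul_le_mul_left _ hp.2.1
  have h3 : S.card ≤ 2 ^ n * 2 ^ (D * g) := by
    calc S.card ≤ (univ : Finset (Finset (Fin n) × (W →ₗ[ZMod 2] (Fin g → ZMod 2)))).card :=
          card_le_card (filter_subset _ _)
      _ = 2 ^ n * 2 ^ (D * g) := by
          rw [card_univ, Fintype.card_prod, Fintype.card_finset, Fintype.card_fin, hlin]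
  have h4 : 2 ^ (D * n) * 2 ^ (2 * (D * g)) ≤ 2 ^ n * 2 ^ (D * g) * 2 ^ (D * n) := by
    calc 2 ^ (D * n) * 2 ^ (2 * (D * g)) = Fintype.card (Fin n → W) * 2 ^ (2 * (D * g)) := by
          rw [Fintype.card_fun, Fintype.card_fin, hW, ← pow_mul]
      _ ≤ (∑ p ∈ S, (univ.filter fun γ : Fin n → W => ∀ v ∈ p.1, p.2 (γ v) = 0).card) *
          2 ^ (2 * (D * g)) := Nat.mul_le_mul_right _ h1
      _ = ∑ p ∈ S, (univ.filter fun γ : Fin n → W => ∀ v ∈ p.1, p.2 (γ v) = 0).card *
          2 ^ (2 * (D * g)) := by rw [Finset.sum_mul]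
      _ ≤ ∑ p ∈ S, 2 ^ (D * n) := Finset.sum_le_sum h2
      _ = S.card * 2 ^ (D * n) := by rw [Finset.sum_const, smul_eq_mul]
      _ ≤ 2 ^ n * 2 ^ (D * g) * 2 ^ (D * n) := Nat.mul_le_mul_right _ h3
  rw [← pow_add, ← pow_add, ← pow_add] at h4
  have h5 := (Nat.pow_le_pow_iff_right (by norm_num : 1 < 2)).1 h4
  omega

end GammaAux

theorem exists_gamma {W : Type} [AddCommGroup W] [Module (ZMod 2) W] [Fintype W]
    [DecidableEq W] (n D g : ℕ) (hW : Fintype.card W = 2 ^ D) (hg : n < D * g) :
    ∃ γ : Fin n → W, GoodHash γ D g := by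
  classical
  obtain ⟨γ, hγ⟩ := GammaAux.exists_good hW hg
  refine ⟨γ, ?_⟩
  intro A hA x z
  have hDim : Module.finrank (ZMod 2) W = D := by
    have h2 : Nat.card W = 2 ^ Module.finrank (ZMod 2) W := by
      have := Module.natCard_eq_pow_finrank (K := ZMod 2) (V := W)
      simpa using this
    rw [Nat.card_eq_fintype_card, hW] at h2
    exact (Nat.pow_right_injective le_rfl h2).symm
  -- the linear map
  set L : (A → ZMod 2) →ₗ[ZMod 2] W :=
    ∑ v : A, (LinearMap.proj v : (A → ZMod 2) →ₗ[ZMod 2] ZMod 2).smulRight (γ v) with hL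
  have hLa : ∀ a, L a = ∑ v : A, a v • γ v := by
    intro a
    simp [hL, LinearMap.sum_apply]
  set V : Submodule (ZMod 2) W := LinearMap.range L with hV
  have hmem : ∀ v ∈ A, γ v ∈ V := by
    intro v hv
    refine ⟨Pi.single ⟨v, hv⟩ 1, ?_⟩
    rw [hLa, Finset.sum_eq_single ⟨v, hv⟩]
    · simp
    · intro b _ hb
      rw [Pi.single_eq_of_ne hb, zero_smul]
    · intro h
      exact absurd (mem_univ _) h
  -- the dimension of the range
  have hdim : D < Module.finrank (ZMod 2) V + g := by
    by_contra hcon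
    push Not at hcon
    have hq : Module.finrank (ZMod 2) (W ⧸ V) + Module.finrank (ZMod 2) V = D := by
      rw [Submodule.finrank_quotient_add_finrank, hDim]
    have hle : g ≤ Module.finrank (ZMod 2) (W ⧸ V) := by omega
    let e : (W ⧸ V) ≃ₗ[ZMod 2] (Fin (Module.finrank (ZMod 2) (W ⧸ V)) → ZMod 2) :=
      (Module.finBasis (ZMod 2) (W ⧸ V)).equivFun
    let φ : W →ₗ[ZMod 2] (Fin g → ZMod 2) :=
      (LinearMap.funLeft (ZMod 2) (ZMod 2) (Fin.castLE hle)) ∘ₗ e.toLinearMap ∘ₗ V.mkQ
    have hφ : Function.Surjective φ := by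
      have s1 : Function.Surjective (LinearMap.funLeft (ZMod 2) (ZMod 2) (Fin.castLE hle)) :=
        LinearMap.funLeft_surjective_of_injective (ZMod 2) (ZMod 2) _ (Fin.castLE_injective hle)
      exact s1.comp (e.surjective.comp (Submodule.mkQ_surjective V))
    obtain ⟨v, hv, hne⟩ := hγ A hA φ hφ
    apply hne
    have h0 : V.mkQ (γ v) = 0 := by
      rw [Submodule.mkQ_apply, Submodule.Quotient.mk_eq_zero]
      exact hmem v hv
    simp only [φ, LinearMap.comp_apply, h0, map_zero]
  -- the kernel
  have hker : Nat.card (LinearMap.ker L) * 2 ^ Module.finrank (ZMod 2) V = 2 ^ A.card := by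
    have h1 : Nat.card (LinearMap.ker L) = 2 ^ Module.finrank (ZMod 2) (LinearMap.ker L) := by
      have := Module.natCard_eq_pow_finrank (K := ZMod 2) (V := LinearMap.ker L)
      simpa using this
    have h4 := LinearMap.finrank_range_add_finrank_ker L
    rw [Module.finrank_fintype_fun_eq_card, Fintype.card_coe] at h4
    rw [h1, ← pow_add, add_comm, h4]
  -- the fibre
  set S := univ.filter fun y : Inp n => (∀ v, v ∉ A → y v = x v) ∧ hash γ y = z with hS
  have hSm : ∀ y ∈ S, (∀ v, v ∉ A → y v = x v) ∧ hash γ y = z := by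
    intro y hy
    rw [hS, mem_filter] at hy
    exact hy.2
  have hfib : S.card ≤ Nat.card (LinearMap.ker L) := by
    rcases S.eq_empty_or_nonempty with h | ⟨y0, hy0⟩
    · rw [h]; simp
    rw [hS, mem_filter] at hy0
    obtain ⟨-, hy0A, hy0z⟩ := hy0
    rw [Nat.card_eq_fintype_card, ← Fintype.card_coe]
    refine Fintype.card_le_of_injective (fun y => (⟨fun v => (if y.1 v then 1 else 0) -
      (if y0 v then 1 else 0), ?_⟩ : LinearMap.ker L)) ?_
    · rw [LinearMap.mem_ker, hLa]
      obtain ⟨hyA, hyz⟩ := hSm y.1 y.2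
      have e1 : (∑ v : A, ((if y.1 v then (1 : ZMod 2) else 0) - (if y0 v then 1 else 0)) • γ v) =
          ∑ v ∈ A, ((if y.1 v then γ v else 0) - (if y0 v then γ v else 0)) := by
        rw [← Finset.sum_coe_sort A]
        refine Finset.sum_congr rfl fun v _ => ?_
        rw [sub_smul, ite_smul, ite_smul, one_smul, zero_smul]
      have e2 : (∑ v ∈ A, ((if y.1 v then γ v else 0) - (if y0 v then γ v else 0))) =
          ∑ v, ((if y.1 v then γ v else 0) - (if y0 v then γ v else 0)) := by
        refine Finset.sum_subset (subset_univ _) fun v _ hv => ?_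
        rw [hyA v hv, hy0A v hv, sub_self]
      rw [e1, e2, Finset.sum_sub_distrib]
      have e3 : hash γ y.1 - hash γ y0 = 0 := by rw [hyz, hy0z, sub_self]
      exact e3
    · intro y y' hyy
      have hy := hSm y.1 y.2
      have hy' := hSm y'.1 y'.2
      apply Subtype.ext
      funext v
      by_cases hv : v ∈ A
      · have h1 := congrArg Subtype.val hyy
        have h2 := congrFun h1 ⟨v, hv⟩
        replace h2 : (if y.1 v then (1 : ZMod 2) else 0) = if y'.1 v then 1 else 0 :=
          sub_left_injective h2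
        cases h3 : y.1 v <;> cases h4 : y'.1 v
        · rfl
        · rw [h3, h4] at h2
          exact absurd h2 (by decide)
        · rw [h3, h4] at h2
          exact absurd h2 (by decide)
        · rfl
      · rw [hy.1 v hv, hy'.1 v hv]
  calc S.card * 2 ^ D ≤ S.card * 2 ^ (Module.finrank (ZMod 2) V + g) :=
        Nat.mul_le_mul_left _ (Nat.pow_le_pow_right (by norm_num) hdim.le)
    _ ≤ Nat.card (LinearMap.ker L) * 2 ^ (Module.finrank (ZMod 2) V + g) :=
        Nat.mul_le_mul_right _ hfib
    _ = 2 ^ (A.card + g) := by rw [pow_add, ← mul_assoc, hker, ← pow_add]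

end Pool.Agent.LT
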