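import Mathlib
import Pool.Agent.Lib.MP_b573ec_lc_LT.Defs2

set_option autoImplicit false

namespace Pool.Agent.LT

open Finset Polynomial

namespace NumericAux

theorem nsub_le (n e w : ℕ) (he : 1 ≤ e) (hen : e ≤ n) (hw : 3 * n ≤ e * 2 ^ w) :
    nsub n e ≤ 2 ^ (w * e) := by
  have he0 : (0 : ℝ) < e := by exact_mod_cast he
  have hn0 : (0 : ℝ) < n := lt_of_lt_of_le he0 (by exact_mod_cast hen)
  set x : ℝ := e / n with hx
  have hx0 : 0 < x := by positivity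
  have hx1 : x ≤ 1 := by
    rw [hx, div_le_one hn0]
    exact_mod_cast hen
  have h1 : (nsub n e : ℝ) * x ^ e ≤ ∑ i ∈ range (e + 1), (n.choose i : ℝ) * x ^ i := by
    unfold nsub
    push_cast
    rw [Finset.sum_mul]
    refine Finset.sum_le_sum fun i hi => ?_
    have hi' : i ≤ e := by
      have := Finset.mem_range.1 hi
      omega
    exact mul_le_mul_of_nonneg_left (pow_le_pow_of_le_one hx0.le hx1 hi') (by positivity)
  have h2 : ∑ i ∈ range (e + 1), (n.choose i : ℝ) * x ^ i ≤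
      ∑ i ∈ range (n + 1), (n.choose i : ℝ) * x ^ i := by
    refine Finset.sum_le_sum_of_subset_of_nonneg ?_ fun i _ _ => by positivity
    exact Finset.range_subset_range.2 (by omega)
  have h3 : ∑ i ∈ range (n + 1), (n.choose i : ℝ) * x ^ i = (x + 1) ^ n := by
    rw [add_pow]
    refine Finset.sum_congr rfl fun i _ => ?_
    rw [one_pow]
    ring
  have h4 : (x + 1) ^ n ≤ Real.exp e := by
    have h5 : (x + 1) ^ n ≤ (Real.exp x) ^ n :=
      pow_le_pow_left₀ (by positivity) (Real.add_one_le_exp x) n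
    have h6 : (Real.exp x) ^ n = Real.exp e := by
      rw [← Real.exp_nat_mul]
      congr 1
      rw [hx]
      field_simp
    rwa [h6] at h5
  have h7 : Real.exp e ≤ 3 ^ e := by
    have h8 : Real.exp e = (Real.exp 1) ^ e := by
      rw [← Real.exp_nat_mul, mul_one]
    rw [h8]
    exact pow_le_pow_left₀ (Real.exp_pos 1).le (by linarith [Real.exp_one_lt_d9]) e
  have h9 : (nsub n e : ℝ) * x ^ e ≤ 3 ^ e := by
    calc (nsub n e : ℝ) * x ^ e ≤ ∑ i ∈ range (e + 1), (n.choose i : ℝ) * x ^ i := h1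
      _ ≤ ∑ i ∈ range (n + 1), (n.choose i : ℝ) * x ^ i := h2
      _ = (x + 1) ^ n := h3
      _ ≤ Real.exp e := h4
      _ ≤ 3 ^ e := h7
  have h10 : (3 : ℝ) ^ e ≤ (2 ^ w * x) ^ e := by
    apply pow_le_pow_left₀ (by norm_num)
    have h11 : (3 * n : ℝ) ≤ e * 2 ^ w := by exact_mod_cast hw
    rw [hx, mul_div_assoc', le_div_iff₀ hn0]
    linarith
  rw [mul_pow] at h10
  have h12 : (nsub n e : ℝ) ≤ (2 ^ w) ^ e :=
    le_of_mul_le_mul_right (h9.trans h10) (pow_pos hx0 e)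
  rw [← pow_mul] at h12
  exact_mod_cast h12

theorem pow4_le (k : ℕ) : k ^ 4 ≤ 2 ^ (k + 5) := by
  rcases Nat.lt_or_ge k 16 with h | h
  · interval_cases k <;> norm_num
  · induction k, h using Nat.le_induction with
    | base => norm_num
    | succ k hk ih =>
      have h1 : (k + 1) ^ 4 ≤ 2 * k ^ 4 := by
        have h2 : 16 * (k + 1) ≤ 17 * k := by omega
        have h3 : (16 * (k + 1)) ^ 4 ≤ (17 * k) ^ 4 := Nat.pow_le_pow_left h2 4
        rw [mul_pow, mul_pow] at h3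
        norm_num at h3
        omega
      calc (k + 1) ^ 4 ≤ 2 * k ^ 4 := h1
        _ ≤ 2 * 2 ^ (k + 5) := Nat.mul_le_mul_left 2 ih
        _ = 2 ^ (k + 1 + 5) := by ring

theorem sq_le (a : ℕ) : a ^ 2 ≤ 2 * 2 ^ a := by
  rcases Nat.lt_or_ge a 3 with h | h
  · interval_cases a <;> norm_num
  · induction a, h using Nat.le_induction with
    | base => norm_num
    | succ a ha ih =>
      have h1 : (a + 1) ^ 2 ≤ 2 * a ^ 2 := by nlinarith
      calc (a + 1) ^ 2 ≤ 2 * a ^ 2 := h1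
        _ ≤ 2 * (2 * 2 ^ a) := Nat.mul_le_mul_left 2 ih
        _ = 2 * 2 ^ (a + 1) := by ring

theorem k_lt (k : ℕ) : k ≤ 2 ^ k := (Nat.lt_two_pow_self).le

theorem le4 (k : ℕ) (_hk : 1 ≤ k) : k ≤ k ^ 4 := Nat.le_self_pow (by norm_num) k

theorem RR_le (k : ℕ) (_hk : 1 ≤ k) : RR k (2 ^ (k + 40)) ≤ 2 ^ (768 * k ^ 4) := by
  unfold RR Q0
  have h1 : 16 * k * 4 ^ k * 2 ^ (k + 40) ≤ 2 ^ (48 * k) := by
    calc 16 * k * 4 ^ k * 2 ^ (k + 40) ≤ 2 ^ 4 * 2 ^ k * 2 ^ (2 * k) * 2 ^ (k + 40) := by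
          have h2 : (4 : ℕ) ^ k = 2 ^ (2 * k) := by
            rw [pow_mul]
            norm_num
          rw [h2]
          gcongr
          · norm_num
          · exact k_lt k
      _ = 2 ^ (4 + k + 2 * k + (k + 40)) := by
          rw [← pow_add, ← pow_add, ← pow_add]
      _ ≤ 2 ^ (48 * k) := Nat.pow_le_pow_right (by norm_num) (by omega)
  calc (16 * k * 4 ^ k * 2 ^ (k + 40)) ^ (16 * k ^ 3) ≤ (2 ^ (48 * k)) ^ (16 * k ^ 3) :=
        Nat.pow_le_pow_left h1 _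
    _ = 2 ^ (768 * k ^ 4) := by
        rw [← pow_mul]
        congr 1
        ring

theorem RR_pos (k : ℕ) (hk : 1 ≤ k) : 1 ≤ RR k (2 ^ (k + 40)) := by
  unfold RR Q0
  apply Nat.one_le_iff_ne_zero.2
  positivity

theorem log_bound (k R : ℕ) (hR : R ≤ 2 ^ (768 * k ^ 4)) :
    Nat.log 2 (8 * k * R) ≤ 3 + k + 768 * k ^ 4 := by
  have h1 : 8 * k * R ≤ 2 ^ (3 + k + 768 * k ^ 4) := by
    rw [pow_add, pow_add]
    exact Nat.mul_le_mul (Nat.mul_le_mul (by norm_num) (k_lt k)) hR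
  exact (Nat.log_mono_right h1).trans (Nat.log_pow (by norm_num) _).le

theorem typ_le (k : ℕ) (hk : 1 ≤ k) : typ k (2 ^ (k + 40)) ≤ 2 ^ 20 * k ^ 7 := by
  have hR := RR_le k hk
  unfold typ
  generalize RR k (2 ^ (k + 40)) = R at hR
  have h2 := log_bound k R hR
  have h3 := le4 k hk
  have h4 : 1 ≤ k ^ 4 := Nat.one_le_pow _ _ hk
  generalize Nat.log 2 (8 * k * R) = l at h2
  have h5 : l + 1 ≤ 773 * k ^ 4 := by omega
  calc 8 * k ^ 3 * (l + 1) ≤ 8 * k ^ 3 * (773 * k ^ 4) :=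
        Nat.mul_le_mul_left _ h5
    _ = 6184 * k ^ 7 := by ring
    _ ≤ 2 ^ 20 * k ^ 7 := Nat.mul_le_mul_right _ (by norm_num)

/-- `b * k ^ c * R ^ d` against powers of two. -/
theorem pbound (k R c d b N : ℕ) (hk : 1 ≤ k) (hR : R ≤ 2 ^ (768 * k ^ 4))
    (hN : b + c + 768 * d ≤ N) : 2 ^ b * k ^ c * R ^ d ≤ 2 ^ (N * k ^ 4) := by
  have h4 : 1 ≤ k ^ 4 := Nat.one_le_pow _ _ hk
  have h3 := le4 k hk
  calc 2 ^ b * k ^ c * R ^ d ≤ 2 ^ b * (2 ^ k) ^ c * (2 ^ (768 * k ^ 4)) ^ d := by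
        gcongr
        exact k_lt k
    _ = 2 ^ (b + k * c + 768 * k ^ 4 * d) := by
        rw [← pow_mul, ← pow_mul, ← pow_add, ← pow_add]
    _ ≤ 2 ^ (N * k ^ 4) := by
        apply Nat.pow_le_pow_right (by norm_num)
        calc b + k * c + 768 * k ^ 4 * d ≤ b * k ^ 4 + k ^ 4 * c + 768 * k ^ 4 * d := by
              gcongr
              exact Nat.le_mul_of_pos_right _ (by omega)
          _ = (b + c + 768 * d) * k ^ 4 := by ring
          _ ≤ N * k ^ 4 := Nat.mul_le_mul_right _ hN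

theorem step_a (n : ℕ) (hn16 : 2 ^ 16 ≤ n) : ∃ a, 2 ^ a ≤ 2 * n ∧ n < 2 ^ a ∧ 16 ≤ a := by
  have h0 : n ≠ 0 := by omega
  have h2 : n < 2 ^ (Nat.log 2 n + 1) := Nat.lt_pow_succ_log_self (by norm_num) n
  refine ⟨Nat.log 2 n + 1, ?_, h2, ?_⟩
  · rw [pow_succ, mul_comm]
    exact Nat.mul_le_mul_left 2 (Nat.pow_log_le_self 2 h0)
  · have h3 : 16 ≤ Nat.log 2 n := by
      rw [Nat.le_log_iff_pow_le (by norm_num) h0]
      exact hn16
    omega

theorem step_L (k R n : ℕ) (hk : 1 ≤ k) (hR1 : 1 ≤ R) (hR : R ≤ 2 ^ (768 * k ^ 4))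
    (hn1 : 2 ^ (1600 * k ^ 4) ≤ n) :
    ∃ L, 1 ≤ L ∧ 512 * k ^ 2 * R * L ≤ n ∧ n ≤ 1024 * k ^ 2 * R * L := by
  have hc1 : 0 < 512 * k ^ 2 * R := by positivity
  have hL1 : 512 * k ^ 2 * R ≤ n := by
    refine le_trans ?_ hn1
    have h := pbound k R 2 1 9 1600 hk hR (by norm_num)
    rw [pow_one] at h
    exact h
  generalize hc : 512 * k ^ 2 * R = c at hc1 hL1
  have hc' : 1024 * k ^ 2 * R = 2 * c := by rw [← hc]; ring
  refine ⟨n / c, (Nat.one_le_div_iff hc1).2 hL1, Nat.mul_div_le _ _, ?_⟩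
  rw [hc']
  have h1 : n < c * (n / c + 1) := Nat.lt_mul_div_succ n hc1
  have h3 : 1 ≤ n / c := (Nat.one_le_div_iff hc1).2 hL1
  have h2 : c * (n / c + 1) ≤ c * (2 * (n / c)) := Nat.mul_le_mul_left _ (by omega)
  calc n ≤ c * (2 * (n / c)) := (h1.trans_le h2).le
    _ = 2 * c * (n / c) := by ring

theorem step_big (k R n a : ℕ) (hk : 1 ≤ k) (hR : R ≤ 2 ^ (768 * k ^ 4))
    (hn1 : 2 ^ (1600 * k ^ 4) ≤ n) (ha1 : 2 ^ a ≤ 2 * n) : 528 * (k * R) * a ≤ n := by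
  have h1 : 4 * (528 * (k * R)) ^ 2 ≤ n := by
    refine le_trans ?_ hn1
    have h2 := pbound k R 2 2 22 1600 hk hR (by norm_num)
    refine le_trans ?_ h2
    calc 4 * (528 * (k * R)) ^ 2 = (4 * 528 ^ 2) * (k ^ 2 * R ^ 2) := by ring
      _ ≤ 2 ^ 22 * (k ^ 2 * R ^ 2) := Nat.mul_le_mul_right _ (by norm_num)
      _ = 2 ^ 22 * k ^ 2 * R ^ 2 := by ring
  generalize 528 * (k * R) = q at h1
  have h3 : (q * a) ^ 2 ≤ n ^ 2 := by
    calc (q * a) ^ 2 = q ^ 2 * a ^ 2 := by ring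
      _ ≤ q ^ 2 * (2 * 2 ^ a) := Nat.mul_le_mul_left _ (sq_le a)
      _ ≤ q ^ 2 * (2 * (2 * n)) := Nat.mul_le_mul_left _ (Nat.mul_le_mul_left _ ha1)
      _ = 4 * q ^ 2 * n := by ring
      _ ≤ n * n := Nat.mul_le_mul_right _ h1
      _ = n ^ 2 := by ring
  exact le_of_pow_le_pow_left₀ (by norm_num) (Nat.zero_le _) h3

theorem step_m (k R n a : ℕ) (hk : 1 ≤ k) (hR1 : 1 ≤ R) (ha7 : 16 ≤ a)
    (hbig : 528 * (k * R) * a ≤ n) :
    ∃ m, 2 ≤ m ∧ 16 * (k * R) * (4 * (m * (4 * a))) ≤ n ∧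
      n < 256 * (k * R) * (m * (4 * a)) ∧ m * (4 * a) ≤ n := by
  have hkR : 0 < k * R := Nat.mul_pos hk hR1
  generalize k * R = q at hbig hkR
  have hc2 : 0 < 16 * q := by omega
  have hD0n : 16 * q * (n / (16 * q)) ≤ n := Nat.mul_div_le _ _
  have hD02 : n < 16 * q * (n / (16 * q) + 1) := Nat.lt_mul_div_succ n hc2
  have hD0le : n / (16 * q) ≤ n := Nat.div_le_self _ _
  generalize n / (16 * q) = D0 at hD0n hD02 hD0le
  have hD0a : 32 * a ≤ D0 := by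
    by_contra hcon
    have hcon' : D0 + 1 ≤ 33 * a := by omega
    have h1 : 16 * q * (D0 + 1) ≤ 16 * q * (33 * a) := Nat.mul_le_mul_left _ hcon'
    have h2 : 16 * q * (33 * a) = 528 * q * a := by ring
    rw [h2] at h1
    exact absurd (hD02.trans_le (h1.trans hbig)) (lt_irrefl _)
  have hm2 : 2 ≤ D0 / (4 * (4 * a)) := by
    rw [Nat.le_div_iff_mul_le (by omega)]
    omega
  have hmD : 4 * (4 * a) * (D0 / (4 * (4 * a))) ≤ D0 := Nat.mul_div_le _ _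
  have hmD2 : D0 < 4 * (4 * a) * (D0 / (4 * (4 * a)) + 1) := Nat.lt_mul_div_succ _ (by omega)
  generalize D0 / (4 * (4 * a)) = m at hm2 hmD hmD2
  have hWD : 4 * (m * (4 * a)) ≤ D0 := by
    calc 4 * (m * (4 * a)) = 4 * (4 * a) * m := by ring
      _ ≤ D0 := hmD
  have h2 : D0 + 1 ≤ 16 * (m * (4 * a)) := by
    have h1 : 4 * (4 * a) * (m + 1) ≤ 4 * (4 * a) * (2 * m) := Nat.mul_le_mul_left _ (by omega)
    have h3 : 4 * (4 * a) * (2 * m) = 8 * (m * (4 * a)) := by ring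
    omega
  refine ⟨m, hm2, ?_, ?_, ?_⟩
  · exact (Nat.mul_le_mul_left _ hWD).trans hD0n
  · calc n < 16 * q * (D0 + 1) := hD02
      _ ≤ 16 * q * (16 * (m * (4 * a))) := Nat.mul_le_mul_left _ h2
      _ = 256 * q * (m * (4 * a)) := by ring
  · omega

theorem step_gt (q n W : ℕ) (hWn : n < 256 * q * W) (z : ℕ) (hz : 256 * q * z ≤ n) : z < W := by
  have h1 : 256 * q * z < 256 * q * W := hz.trans_lt hWn
  exact lt_of_mul_lt_mul_left h1 (Nat.zero_le _)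

theorem step_z (k R c : ℕ) (hk : 1 ≤ k) (hR : R ≤ 2 ^ (768 * k ^ 4)) :
    2 ^ c * (k * R) * 2 ^ k ≤ 2 ^ ((c + 770) * k ^ 4) := by
  have h3 : 2 ^ k ≤ 2 ^ (k ^ 4) := Nat.pow_le_pow_right (by norm_num) (le4 k hk)
  have h4 := pbound k R 1 1 c (c + 769) hk hR (by omega)
  rw [pow_one, pow_one] at h4
  calc 2 ^ c * (k * R) * 2 ^ k = (2 ^ c * k * R) * 2 ^ k := by ring
    _ ≤ 2 ^ ((c + 769) * k ^ 4) * 2 ^ (k ^ 4) := Nat.mul_le_mul h4 h3
    _ = 2 ^ ((c + 770) * k ^ 4) := by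
        rw [← pow_add]; congr 1; ring

theorem step_e (k R n W : ℕ) (hk : 1 ≤ k) (hR : R ≤ 2 ^ (768 * k ^ 4))
    (hn1 : 2 ^ (1600 * k ^ 4) ≤ n) (hWn : n < 256 * (k * R) * W) (hWle : W ≤ n) :
    ∃ e, 1 ≤ e ∧ e ≤ n ∧ 256 * W ≤ (e + 1) * 2 ^ (k + 40) ∧ 3 * n ≤ e * 2 ^ (813 * k ^ 4) ∧
      2 ^ 17 * (813 * k ^ 4 * e) ≤ W := by
  have h1 : 2 ^ (k + 40) < W := by
    apply step_gt (k * R) n W hWn
    refine le_trans ?_ hn1
    have h := step_z k R 48 hk hR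
    have h' : 2 ^ ((48 + 770) * k ^ 4) ≤ 2 ^ (1600 * k ^ 4) :=
      Nat.pow_le_pow_right (by norm_num) (Nat.mul_le_mul_right _ (by norm_num))
    refine le_trans (le_of_eq ?_) (h.trans h')
    rw [pow_add]
    ring
  have hE0 : 0 < 2 ^ (k + 40) := by positivity
  have h40 : 2 ^ 40 ≤ 2 ^ (k + 40) := Nat.pow_le_pow_right (by norm_num) (by omega)
  have hkE : 2 ^ (k + 32) * 256 = 2 ^ (k + 40) := by
    rw [show k + 40 = (k + 32) + 8 from rfl, pow_add 2 (k + 32) 8]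
    norm_num
  have hz : 6 * (k * R) * 2 ^ (k + 40) ≤ 2 ^ (813 * k ^ 4) := by
    have h := step_z k R 43 hk hR
    refine le_trans ?_ h
    rw [pow_add]
    calc 6 * (k * R) * (2 ^ k * 2 ^ 40) ≤ 8 * (k * R) * (2 ^ k * 2 ^ 40) := by
          gcongr
          norm_num
      _ = 2 ^ 43 * (k * R) * 2 ^ k := by ring
  have hwk : 2 ^ 17 * (813 * k ^ 4) ≤ 2 ^ (k + 32) := by
    calc 2 ^ 17 * (813 * k ^ 4) = (2 ^ 17 * 813) * k ^ 4 := by ring
      _ ≤ 2 ^ 27 * 2 ^ (k + 5) := Nat.mul_le_mul (by norm_num) (pow4_le k)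
      _ = 2 ^ (k + 32) := by rw [← pow_add, show 27 + (k + 5) = k + 32 by omega]
  generalize 2 ^ (k + 40) = E at h1 hE0 h40 hkE hz
  generalize 2 ^ (k + 32) = F at hkE hwk
  generalize 2 ^ (813 * k ^ 4) = G at hz
  generalize 813 * k ^ 4 = w at hwk
  generalize k * R = q at hWn hz
  have heE : 256 * W / E * E ≤ 256 * W := Nat.div_mul_le_self _ _
  have heE2 : 256 * W < E * (256 * W / E + 1) := Nat.lt_mul_div_succ _ hE0
  have he1 : 1 ≤ 256 * W / E := by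
    rw [Nat.one_le_div_iff hE0]
    omega
  generalize 256 * W / E = e at heE heE2 he1
  refine ⟨e, he1, ?_, ?_, ?_, ?_⟩
  · have h2 : e * 2 ^ 40 ≤ e * E := Nat.mul_le_mul_left _ h40
    have h3 : e * 2 ^ 40 ≤ 256 * W := h2.trans heE
    omega
  · rw [mul_comm (e + 1) E]
    exact heE2.le
  · have h2 : E * (e + 1) ≤ E * (2 * e) := Nat.mul_le_mul_left _ (by omega)
    have h3 : E * (2 * e) = 2 * (E * e) := by ring
    have h4 : 128 * W ≤ E * e := by omega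
    calc 3 * n ≤ 3 * (256 * q * W) := Nat.mul_le_mul_left _ hWn.le
      _ = 6 * q * (128 * W) := by ring
      _ ≤ 6 * q * (E * e) := Nat.mul_le_mul_left _ h4
      _ = 6 * q * E * e := by ring
      _ ≤ G * e := Nat.mul_le_mul_right _ hz
      _ = e * G := mul_comm _ _
  · have h2 : 2 ^ 17 * (w * e) ≤ F * e := by
      calc 2 ^ 17 * (w * e) = (2 ^ 17 * w) * e := by ring
        _ ≤ F * e := Nat.mul_le_mul_right _ hwk
    have h3 : 256 * (F * e) ≤ 256 * W := by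
      calc 256 * (F * e) = e * (F * 256) := by ring
        _ = e * E := by rw [hkE]
        _ ≤ 256 * W := heE
    exact h2.trans (Nat.le_of_mul_le_mul_left h3 (by norm_num))

theorem step_S (k R n S W : ℕ) (hk : 1 ≤ k) (hS : 1 ≤ S) (hR1 : 1 ≤ R)
    (hR : R ≤ 2 ^ (768 * k ^ 4)) (hn : S * 2 ^ (1600 * k ^ 4) ≤ n)
    (hWn : n < 256 * (k * R) * W) :
    128 * (28 + 7 * k + S * (1024 * k ^ 3 * R) + 256 * (k * R)) < W := by
  apply step_gt (k * R) n W hWn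
  have hk3 : 1 ≤ k ^ 3 := Nat.one_le_pow _ _ hk
  have hA : 1 ≤ S * (k ^ 3 * R) := Nat.mul_pos hS (Nat.mul_pos hk3 hR1)
  have hB : k ≤ S * (k ^ 3 * R) := by
    calc k ≤ k ^ 3 := Nat.le_self_pow (by norm_num) k
      _ ≤ k ^ 3 * R := Nat.le_mul_of_pos_right _ hR1
      _ ≤ S * (k ^ 3 * R) := Nat.le_mul_of_pos_left _ hS
  have hC : k * R ≤ S * (k ^ 3 * R) := by
    calc k * R ≤ k ^ 3 * R := Nat.mul_le_mul_right _ (Nat.le_self_pow (by norm_num) k)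
      _ ≤ S * (k ^ 3 * R) := Nat.le_mul_of_pos_left _ hS
  have hD : S * (1024 * k ^ 3 * R) = 1024 * (S * (k ^ 3 * R)) := by ring
  have h1 : 28 + 7 * k + S * (1024 * k ^ 3 * R) + 256 * (k * R) ≤
      2 ^ 11 * (S * (k ^ 3 * R)) := by
    rw [hD]
    generalize S * (k ^ 3 * R) = X at hA hB hC
    generalize k * R = Y at hC
    omega
  calc 256 * (k * R) * (128 * (28 + 7 * k + S * (1024 * k ^ 3 * R) + 256 * (k * R)))
      ≤ 256 * (k * R) * (128 * (2 ^ 11 * (S * (k ^ 3 * R)))) :=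
        Nat.mul_le_mul_left _ (Nat.mul_le_mul_left _ h1)
    _ = S * (2 ^ 26 * k ^ 4 * R ^ 2) := by ring
    _ ≤ S * 2 ^ (1600 * k ^ 4) :=
        Nat.mul_le_mul_left _ (pbound k R 4 2 26 1600 hk hR (by norm_num))
    _ ≤ n := hn

theorem step_fin (a m l : ℕ) (ha : 16 ≤ a) (hm : 2 ≤ m) (hma : m ≤ 2 ^ a)
    (hl : 64 * l ≤ m * (4 * a)) :
    (2048 * (m / 2) ^ 2) ^ (m / 2) * 2 ^ l ≤ 2 ^ (4 * a * (m / 2)) := by
  have hp1 : 1 ≤ m / 2 := by omega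
  have hmp : m ≤ 3 * (m / 2) := by omega
  have hpn : m / 2 ≤ 2 ^ a := by omega
  generalize m / 2 = p at hp1 hmp hpn
  have h1 : 64 * l ≤ 12 * (a * p) := by
    refine hl.trans ?_
    calc m * (4 * a) = 4 * (a * m) := by ring
      _ ≤ 4 * (a * (3 * p)) := Nat.mul_le_mul_left _ (Nat.mul_le_mul_left _ hmp)
      _ = 12 * (a * p) := by ring
  have h3 : (2048 * p ^ 2) ^ p ≤ 2 ^ ((11 + 2 * a) * p) := by
    rw [pow_mul]
    apply Nat.pow_le_pow_left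
    calc 2048 * p ^ 2 ≤ 2 ^ 11 * (2 ^ a) ^ 2 :=
          Nat.mul_le_mul (by norm_num) (Nat.pow_le_pow_left hpn 2)
      _ = 2 ^ (11 + 2 * a) := by rw [← pow_mul, ← pow_add]; congr 1; ring
  calc (2048 * p ^ 2) ^ p * 2 ^ l ≤ 2 ^ ((11 + 2 * a) * p) * 2 ^ l :=
        Nat.mul_le_mul_right _ h3
    _ = 2 ^ ((11 + 2 * a) * p + l) := by rw [← pow_add]
    _ ≤ 2 ^ (4 * a * p) := by
        apply Nat.pow_le_pow_right (by norm_num)
        have h4 : 11 * p ≤ a * p := Nat.mul_le_mul_right _ (by omega)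
        have h5 : (11 + 2 * a) * p = 11 * p + 2 * (a * p) := by ring
        have h6 : 4 * a * p = 4 * (a * p) := by ring
        rw [h5, h6]
        generalize a * p = X at h1 h4
        omega

theorem step_typ (k t s u l : ℕ) (ht : t ≤ 2 ^ 20 * k ^ 7) (hu : u ≤ 2 ^ l) :
    64 * t * 2 ^ s * u ≤ 2 ^ (26 + 7 * k + s + l) := by
  have h1 : t ≤ 2 ^ (20 + 7 * k) := by
    refine ht.trans ?_
    rw [pow_add, pow_mul']
    exact Nat.mul_le_mul_left _ (Nat.pow_le_pow_left (k_lt k) 7)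
  calc 64 * t * 2 ^ s * u ≤ 2 ^ 6 * 2 ^ (20 + 7 * k) * 2 ^ s * 2 ^ l :=
        Nat.mul_le_mul (Nat.mul_le_mul_right _ (Nat.mul_le_mul (by norm_num) h1)) hu
    _ = 2 ^ (26 + 7 * k + s + l) := by
        rw [← pow_add, ← pow_add, ← pow_add]
        congr 1
        ring

theorem step_n10 (a n : ℕ) (hn : 16 ≤ n) (ha1 : 2 ^ a ≤ 2 * n) :
    2 ^ (2 * (4 * a)) ≤ n ^ 10 := by
  calc 2 ^ (2 * (4 * a)) = (2 ^ a) ^ 8 := by rw [← pow_mul]; congr 1; ring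
    _ ≤ (2 * n) ^ 8 := Nat.pow_le_pow_left ha1 8
    _ = 2 ^ 8 * n ^ 8 := by rw [mul_pow]
    _ ≤ n ^ 2 * n ^ 8 := by
        apply Nat.mul_le_mul_right
        calc 2 ^ 8 = 16 ^ 2 := by norm_num
          _ ≤ n ^ 2 := Nat.pow_le_pow_left hn 2
    _ = n ^ 10 := by rw [← pow_add]

theorem step_6m (a m n : ℕ) (hmn : m ≤ n) (hna : n < 2 ^ a) (ha : 16 ≤ a) :
    6 * m ≤ 2 ^ (4 * a) := by
  calc 6 * m ≤ 2 ^ 3 * 2 ^ a := Nat.mul_le_mul (by norm_num) (hmn.trans hna.le)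
    _ = 2 ^ (3 + a) := by rw [pow_add]
    _ ≤ 2 ^ (4 * a) := Nat.pow_le_pow_right (by norm_num) (by omega)

end NumericAux

open NumericAux

theorem numeric : ∃ C : ℕ, ∀ k n S : ℕ, 1 ≤ k → 1 ≤ S → S * 2 ^ (C * k ^ 4) ≤ n →
    ∃ E L r e m ℓ lam g p : ℕ, 1 ≤ E ∧ typ k E ≤ 2 ^ 20 * k ^ 7 ∧ 1 ≤ L ∧ 16 ≤ m * ℓ ∧
      k * n ≤ r * L ∧ 16 * k * RR k E * (4 * m * ℓ) ≤ n ∧ 512 * k ^ 2 * RR k E * L ≤ n ∧
      64 * (4 * m * ℓ) ≤ (e + 1) * E ∧ 64 * typ k E * 2 ^ (S * r) * nsub n e ≤ 2 ^ lam ∧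
      lam + g + 2 ≤ m * ℓ ∧ n < m * ℓ * g ∧ 6 * m ≤ 2 ^ ℓ ∧ 2 ^ (2 * ℓ) ≤ n ^ 10 ∧ 2 ≤ ℓ ∧
      1 ≤ p ∧ 2 * p ≤ m ∧ (2048 * p ^ 2) ^ p * 2 ^ (lam + g) ≤ 2 ^ (ℓ * p) := by
  refine ⟨1600, fun k n S hk hS hn => ?_⟩
  have hR := RR_le k hk
  have hR1 := RR_pos k hk
  have htyp := typ_le k hk
  have hn1 : 2 ^ (1600 * k ^ 4) ≤ n := le_trans (Nat.le_mul_of_pos_left _ hS) hn
  have hk4 : 1 ≤ k ^ 4 := Nat.one_le_pow _ _ hk
  have hn16 : 2 ^ 16 ≤ n := le_trans (Nat.pow_le_pow_right (by norm_num) (by omega)) hn1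
  obtain ⟨a, ha1, ha2, ha7⟩ := step_a n hn16
  obtain ⟨L, hL1, hLn, hL2⟩ := step_L k _ n hk hR1 hR hn1
  have hbig := step_big k _ n a hk hR hn1 ha1
  obtain ⟨m, hm2, hmD, hWn, hWle⟩ := step_m k _ n a hk hR1 ha7 hbig
  obtain ⟨e, he1, hen, heE, he3, hwe⟩ := step_e k _ n _ hk hR hn1 hWn hWle
  have hSr := step_S k _ n S _ hk hS hR1 hR hn hWn
  have hnsub := nsub_le n e _ he1 hen he3
  have hmW : m ≤ m * (4 * a) := Nat.le_mul_of_pos_right _ (by omega)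
  have hmn : m ≤ n := hmW.trans hWle
  have htl := step_typ k _ (S * (1024 * k ^ 3 * RR k (2 ^ (k + 40)))) _ _ htyp hnsub
  have hm4 : 4 * m * (4 * a) = 4 * (m * (4 * a)) := by ring
  generalize hRR : RR k (2 ^ (k + 40)) = R at *
  have hkn : k * n ≤ 1024 * k ^ 3 * R * L := by
    calc k * n ≤ k * (1024 * k ^ 2 * R * L) := Nat.mul_le_mul_left _ hL2
      _ = 1024 * k ^ 3 * R * L := by ring
  have hlg : 64 * (26 + 7 * k + S * (1024 * k ^ 3 * R) + 813 * k ^ 4 * e +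
      256 * (k * R) + 2) ≤ m * (4 * a) := by
    generalize S * (1024 * k ^ 3 * R) = x1 at hSr
    generalize 813 * k ^ 4 * e = x2 at hwe
    generalize k * R = x3 at hSr
    generalize m * (4 * a) = x4 at hSr hwe
    clear * - hSr hwe
    omega
  refine ⟨2 ^ (k + 40), L, 1024 * k ^ 3 * R, e, m, 4 * a,
    26 + 7 * k + S * (1024 * k ^ 3 * R) + 813 * k ^ 4 * e, 256 * (k * R), m / 2,
    Nat.one_le_two_pow, htyp, hL1, ?_, hkn, ?_, ?_, ?_, htl,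
    ?_, ?_, step_6m a m n hmn ha2 ha7, step_n10 a n (le_trans (by norm_num) hn16) ha1, ?_, ?_,
    ?_, ?_⟩
  · generalize S * (1024 * k ^ 3 * R) = x1 at hlg
    generalize 813 * k ^ 4 * e = x2 at hlg
    generalize k * R = x3 at hlg
    generalize m * (4 * a) = x4 at hlg
    clear * - hlg
    omega
  · rw [hRR, hm4]
    calc 16 * k * R * (4 * (m * (4 * a))) = 16 * (k * R) * (4 * (m * (4 * a))) := by ring
      _ ≤ n := hmD
  · rw [hRR]
    exact hLn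
  · rw [hm4]
    calc 64 * (4 * (m * (4 * a))) = 256 * (m * (4 * a)) := by ring
      _ ≤ (e + 1) * 2 ^ (k + 40) := heE
  · generalize S * (1024 * k ^ 3 * R) = x1 at hlg
    generalize 813 * k ^ 4 * e = x2 at hlg
    generalize k * R = x3 at hlg
    generalize m * (4 * a) = x4 at hlg
    clear * - hlg
    omega
  · rw [mul_comm]
    exact hWn
  · clear * - ha7
    omega
  · clear * - hm2
    omega
  · clear * - hm2
    omega
  · refine step_fin a m _ ha7 hm2 (hmn.trans ha2.le) ?_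
    refine le_trans (Nat.mul_le_mul_left _ ?_) hlg
    exact Nat.le_add_right _ _

end Pool.Agent.LT
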