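import Pool.Agent.Lib.MP_b573ec_lc_LT.Defs2
import Pool.Agent.Lib.MP_b573ec_lc_LT.Cubic

set_option autoImplicit false

namespace Pool.Agent.LT

open Finset Polynomial

namespace Part1UpperAux

/-- the additive one-pass program with the states in the group `G` -/
def addProg {n w : ℕ} {G : Type} [AddCommGroup G] (e : G ≃ Fin w) (g0 : G) (d : Fin n → G)
    (A : G → Bool) : Prog n n w where
  start := e g0
  var i _ := i
  next i s b := e (e.symm s + if b then d i else 0)
  acc s := A (e.symm s)

theorem state_addProg {n w : ℕ} {G : Type} [AddCommGroup G] (e : G ≃ Fin w) (g0 : G)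
    (d : Fin n → G) (A : G → Bool) (x : Inp n) (i : ℕ) (hi : i ≤ n) :
    (addProg e g0 d A).state x i =
      e (g0 + ∑ v : Fin n, if (v : ℕ) < i then (if x v then d v else 0) else 0) := by
  induction i with
  | zero => simp [Prog.state, addProg]
  | succ i ih =>
    have hi' : i < n := hi
    rw [Prog.state, dif_pos hi', ih hi'.le]
    show e (e.symm (e _) + if x ⟨i, hi'⟩ then d ⟨i, hi'⟩ else 0) = _
    rw [Equiv.symm_apply_apply, add_assoc]
    congr 2
    have h1 : ∀ v : Fin n, (if (v : ℕ) < i + 1 then (if x v then d v else 0) else 0) =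
        (if (v : ℕ) < i then (if x v then d v else 0) else 0) +
          if v = ⟨i, hi'⟩ then (if x v then d v else 0) else 0 := by
      intro v
      by_cases h2 : (v : ℕ) < i
      · have h3 : v ≠ ⟨i, hi'⟩ := fun h => by rw [h] at h2; exact lt_irrefl _ h2
        rw [if_pos (by omega), if_pos h2, if_neg h3, add_zero]
      · by_cases h4 : v = ⟨i, hi'⟩
        · have h5 : (v : ℕ) = i := by rw [h4]
          rw [if_pos (by omega), if_neg h2, if_pos h4, zero_add]
        · have h5 : (v : ℕ) ≠ i := fun h => h4 (Fin.ext h)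
          rw [if_neg (by omega), if_neg h2, if_neg h4, zero_add]
    rw [Finset.sum_congr rfl fun v _ => h1 v, Finset.sum_add_distrib, Finset.sum_ite_eq' univ,
      if_pos (mem_univ _)]

theorem eval_addProg {n w : ℕ} {G : Type} [AddCommGroup G] (e : G ≃ Fin w) (g0 : G)
    (d : Fin n → G) (A : G → Bool) (x : Inp n) :
    (addProg e g0 d A).eval x = A (hash d x + g0) := by
  rw [Prog.eval, state_addProg e g0 d A x n le_rfl]
  show A (e.symm (e _)) = _
  rw [Equiv.symm_apply_apply, add_comm, hash]
  congr 2
  refine Finset.sum_congr rfl fun v _ => ?_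
  rw [if_pos v.2]

/-- evaluation of the polynomials at a point, as an additive map -/
noncomputable def evHom {K : Type} [Field K] {m : ℕ} (t : K) : (Fin m → K) →+ K where
  toFun c := (cpoly c).eval t
  map_zero' := by simp [cpoly]
  map_add' a b := by
    simp only [cpoly, Pi.add_apply, map_add, add_mul, Finset.sum_add_distrib, eval_add]

theorem evHom_apply {K : Type} [Field K] {m : ℕ} (t : K) (c : Fin m → K) :
    evHom t c = (cpoly c).eval t := rfl

theorem map_hash {n : ℕ} {W V : Type} [AddCommGroup W] [AddCommGroup V] (f : W →+ V)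
    (γ : Fin n → W) (x : Inp n) : f (hash γ x) = hash (fun v => f (γ v)) x := by
  rw [hash, hash, map_sum]
  refine Finset.sum_congr rfl fun v _ => ?_
  by_cases h : x v = true
  · rw [if_pos h, if_pos h]
  · rw [if_neg h, if_neg h, map_zero]

end Part1UpperAux

open Part1UpperAux in
open Classical in
theorem part1_upper {K : Type} [Field K] [Fintype K] {m n ℓ : ℕ}
    (hK : Fintype.card K = 2 ^ ℓ) (hm : 6 * m ≤ 2 ^ ℓ)
    (γ : Fin n → (Fin m → K) × (Fin (3 * m) → K)) (w0 : (Fin m → K) × (Fin (3 * m) → K)) :
    OneSidedOnePass (fun x : Inp n => decide (¬ Cub (hash γ x + w0))) (2 ^ (2 * ℓ)) := by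
  -- coins and states
  have hc : Fintype.card (Fin ℓ → Bool) = Fintype.card K := by
    rw [hK, Fintype.card_fun, Fintype.card_bool, Fintype.card_fin]
  obtain ⟨τ⟩ : Nonempty ((Fin ℓ → Bool) ≃ K) := Fintype.card_eq.mp hc
  have hs : Fintype.card (K × K) = 2 ^ (2 * ℓ) := by
    rw [Fintype.card_prod, hK, ← pow_add]
    congr 1
    omega
  let e : K × K ≃ Fin (2 ^ (2 * ℓ)) := Fintype.equivFinOfCardEq hs
  let F : K → ((Fin m → K) × (Fin (3 * m) → K)) →+ K × K := fun t =>
    ((evHom t).comp (AddMonoidHom.fst _ _)).prod ((evHom t).comp (AddMonoidHom.snd _ _))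
  have hF : ∀ t p, F t p = ((cpoly p.1).eval t, (cpoly p.2).eval t) := fun t p => rfl
  let P : (Fin ℓ → Bool) → Prog n n (2 ^ (2 * ℓ)) := fun c =>
    addProg e (F (τ c) w0) (fun v => F (τ c) (γ v)) (fun g => decide (g.2 ≠ g.1 ^ 3))
  have hP : ∀ c x, (P c).eval x = decide ((cpoly (hash γ x + w0).2).eval (τ c) ≠
      (cpoly (hash γ x + w0).1).eval (τ c) ^ 3) := by
    intro c x
    show (addProg e _ _ _).eval x = _
    rw [eval_addProg, ← map_hash (F (τ c)), ← map_add, hF]
  refine ⟨ℓ, P, fun c i s => rfl, fun x hx => ?_, fun x hx c => ?_⟩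
  · have hx' : ¬ Cub (hash γ x + w0) := by simpa using hx
    have h1 := cub_root _ hx'
    -- the accepting coins
    have h2 : (univ.filter fun c => (P c).eval x = true).card =
        (univ.filter fun t : K => ¬ (cpoly (hash γ x + w0).2).eval t =
          (cpoly (hash γ x + w0).1).eval t ^ 3).card := by
      refine Finset.card_bij (fun c _ => τ c) ?_ ?_ ?_
      · intro c hc'
        rw [Finset.mem_filter, hP] at hc'
        rw [Finset.mem_filter]
        exact ⟨mem_univ _, by simpa using hc'.2⟩
      · intro c _ c' _ h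
        exact τ.injective h
      · intro t ht
        refine ⟨τ.symm t, ?_, τ.apply_symm_apply t⟩
        rw [Finset.mem_filter] at ht
        rw [Finset.mem_filter, hP, Equiv.apply_symm_apply]
        exact ⟨mem_univ _, by simpa using ht.2⟩
    have h3 := Finset.card_filter_add_card_filter_not (s := (univ : Finset K))
      (fun t : K => (cpoly (hash γ x + w0).2).eval t = (cpoly (hash γ x + w0).1).eval t ^ 3)
    rw [Finset.card_univ, hK] at h3
    rw [h2]
    omega
  · have hx' : Cub (hash γ x + w0) := by simpa using hx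
    rw [hP, decide_eq_false_iff_not, not_not, show cpoly (hash γ x + w0).2 = _ from hx', eval_pow]

end Pool.Agent.LT
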