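import Pool.Agent.Lib.MP_b573ec_lc_LT.Common
import Pool.Agent.Lib.MP_b573ec_lc_LT.Ajtai
import Pool.Agent.Lib.MP_b573ec_lc_LT.Blocks
import Pool.Agent.Lib.MP_b573ec_lc_LT.Moment
import Pool.Agent.Lib.MP_b573ec_lc_LT.Conv

/-!
# Lower bound for the root problem
-/

namespace Pool.Agent.LT

open Finset Polynomial

namespace Part2LowerAux

lemma cpoly_add' {K : Type} [Field K] {m : ℕ} (a b : Fin m → K) :
    cpoly (a + b) = cpoly a + cpoly b := by
  unfold cpoly
  rw [← sum_add_distrib]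
  refine sum_congr rfl fun i _ => ?_
  rw [Pi.add_apply, C_add, add_mul]

/-- the fibres of the hash on a large side -/
lemma side_fib {n : ℕ} {W : Type} [AddCommGroup W] [DecidableEq W] (γ : Fin n → W)
    (D g lam : ℕ) (hγ : GoodHash γ D g) (A : Finset (Fin n)) (hA : 2 * D ≤ A.card) (x : Inp n)
    (S : Finset (Inp n)) (hS : ∀ y ∈ S, ∀ v, v ∉ A → y v = x v)
    (hcard : 2 ^ A.card ≤ S.card * 2 ^ lam) (z : W) :
    (S.filter fun y => hash γ y = z).card * 2 ^ D ≤ 2 ^ (lam + g) * S.card := by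
  calc (S.filter fun y => hash γ y = z).card * 2 ^ D
      ≤ (univ.filter fun y : Inp n => (∀ v, v ∉ A → y v = x v) ∧ hash γ y = z).card * 2 ^ D := by
        refine Nat.mul_le_mul_right _ (card_le_card ?_)
        intro y hy
        rw [mem_filter] at hy ⊢
        exact ⟨mem_univ _, hS y hy.1, hy.2⟩
    _ ≤ 2 ^ (A.card + g) := hγ A hA x z
    _ = 2 ^ A.card * 2 ^ g := by rw [pow_add]
    _ ≤ S.card * 2 ^ lam * 2 ^ g := Nat.mul_le_mul_right _ hcard
    _ = 2 ^ (lam + g) * S.card := by rw [pow_add]; ring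

open Classical in
/-- the class bound: a large class has its fair share of the sets `L t` -/
lemma class_bound {K : Type} [Field K] [Fintype K] {m n ℓ w r : ℕ}
    (hK : Fintype.card K = 2 ^ ℓ) (Θ : Finset K) (hΘ : 4 * Θ.card = 2 ^ ℓ)
    (γ : Fin n → Fin m → K) (w0 : Fin m → K) (g : ℕ) (hγ : GoodHash γ (m * ℓ) g)
    (B : BlockSys n w) (F : Fin r → ℕ) (U : Finset (Fin n))
    (hcov : ∀ x v, (B.Lay r x v).Nonempty) (x : Inp n) (lam p : ℕ)
    (hA : 2 * (m * ℓ) ≤ (B.foot F U 0 x).card) (hB : 2 * (m * ℓ) ≤ (B.foot F U 1 x).card)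
    (hKA : 2 ^ (B.foot F U 0 x).card ≤ (B.side F U 0 x).card * 2 ^ lam)
    (hKB : 2 ^ (B.foot F U 1 x).card ≤ (B.side F U 1 x).card * 2 ^ lam)
    (hp : 1 ≤ p) (hpm : 2 * p ≤ m)
    (hbad : (2048 * p ^ 2) ^ p * 2 ^ (lam + g) ≤ 2 ^ (ℓ * p)) :
    9 * (B.cls F U x).card ≤ 64 * ∑ t ∈ Θ, ((B.cls F U x).filter fun y =>
      (cpoly (hash γ y + w0)).eval t = 0).card := by
  set I := B.side F U 0 x with hI
  set J := B.side F U 1 x with hJ
  set h' : Inp n → Fin m → K := fun z => hash γ z - hash γ x + w0 with hh'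
  have hIne : I.Nonempty := by
    rw [← card_pos]
    by_contra hcon
    have : I.card = 0 := by omega
    rw [this, zero_mul] at hKA
    have : 0 < 2 ^ (B.foot F U 0 x).card := by positivity
    omega
  have hJne : J.Nonempty := by
    rw [← card_pos]
    by_contra hcon
    have : J.card = 0 := by omega
    rw [this, zero_mul] at hKB
    have : 0 < 2 ^ (B.foot F U 1 x).card := by positivity
    omega
  have hKm : Fintype.card K ^ m = 2 ^ (m * ℓ) := by
    rw [hK, ← pow_mul, mul_comm]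
  have hfibI : ∀ z, (I.filter fun i => hash γ i = z).card * Fintype.card K ^ m ≤
      2 ^ (lam + g) * I.card := by
    intro z
    rw [hKm]
    exact side_fib γ (m * ℓ) g lam hγ _ hA x I (fun y hy => (mem_filter.mp hy).2) hKA z
  have hfibJ : ∀ z, (J.filter fun i => h' i = z).card * Fintype.card K ^ m ≤
      2 ^ (lam + g) * J.card := by
    intro z
    rw [hKm]
    have h1 := side_fib γ (m * ℓ) g lam hγ _ hB x J (fun y hy => (mem_filter.mp hy).2) hKB
      (z - w0 + hash γ x)
    have h2 : (J.filter fun i => h' i = z) = J.filter fun y => hash γ y = z - w0 + hash γ x := by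
      refine filter_congr fun y _ => ?_
      simp only [hh']
      constructor
      · intro h; rw [← h]; abel
      · intro h; rw [h]; abel
    rw [h2]
    exact h1
  have hcount : ∀ s : ℕ, s ^ p ≤ (64 * p ^ 2) ^ p * 2 ^ (lam + g) → 32 * s ≤ 2 ^ ℓ := by
    intro s hs
    have h1 : (32 * s) ^ p ≤ (2 ^ ℓ) ^ p := by
      calc (32 * s) ^ p = 32 ^ p * s ^ p := by rw [mul_pow]
        _ ≤ 32 ^ p * ((64 * p ^ 2) ^ p * 2 ^ (lam + g)) := Nat.mul_le_mul_left _ hs
        _ = (2048 * p ^ 2) ^ p * 2 ^ (lam + g) := by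
            rw [← mul_assoc, ← mul_pow]
            congr 2
            ring
        _ ≤ 2 ^ (ℓ * p) := hbad
        _ = (2 ^ ℓ) ^ p := by rw [pow_mul]
    exact (Nat.pow_le_pow_iff_left (by omega)).mp h1
  set BI := univ.filter fun t : K => 1 / 8 < deficit I (hash γ) t with hBI
  set BJ := univ.filter fun t : K => 1 / 8 < deficit J h' t with hBJ
  have hBIc : 32 * BI.card ≤ 2 ^ ℓ :=
    hcount _ (moment I hIne (hash γ) (2 ^ (lam + g)) p hp hpm hfibI)
  have hBJc : 32 * BJ.card ≤ 2 ^ ℓ :=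
    hcount _ (moment J hJne h' (2 ^ (lam + g)) p hp hpm hfibJ)
  have hcls : (B.cls F U x).card = I.card * J.card := card_cls B F U hcov x
  -- good points
  have hgoodt : ∀ t ∈ Θ \ (BI ∪ BJ), 3 * (B.cls F U x).card ≤ 4 * 2 ^ ℓ *
      ((B.cls F U x).filter fun y => (cpoly (hash γ y + w0)).eval t = 0).card := by
    intro t ht
    rw [mem_sdiff, mem_union, not_or] at ht
    have h1 : deficit I (hash γ) t ≤ 1 / 8 := by
      by_contra hcon
      exact ht.2.1 (mem_filter.mpr ⟨mem_univ _, not_le.mp hcon⟩)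
    have h2 : deficit J h' t ≤ 1 / 8 := by
      by_contra hcon
      exact ht.2.2 (mem_filter.mpr ⟨mem_univ _, not_le.mp hcon⟩)
    have h3 := conv_lower I J (hash γ) h' t 0 hIne hJne h1 h2
    rw [hK] at h3
    rw [hcls]
    refine le_trans h3 (Nat.mul_le_mul_left _ ?_)
    -- injection of pairs into the class
    refine card_le_card_of_injOn
      (fun u : Inp n × Inp n => fun v => if v ∈ B.foot F U 0 x then u.1 v else u.2 v) ?_ ?_
    · intro u hu
      have hu' := mem_filter.mp (mem_coe.mp hu)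
      have huI : u.1 ∈ I := (mem_product.mp hu'.1).1
      have huJ : u.2 ∈ J := (mem_product.mp hu'.1).2
      have hmI := mem_filter.mp huI
      have hmJ := mem_filter.mp huJ
      refine mem_coe.mpr (mem_filter.mpr ⟨mix_mem B F U hcov hmI.1 hmJ.1, ?_⟩)
      rw [hash_mix γ _ _ (foot_disjoint B F U x (hcov x)) x u.1 u.2 hmI.2 hmJ.2, add_assoc,
        cpoly_add', eval_add]
      exact hu'.2
    · intro u hu u' hu' huu
      have hu1 := mem_product.mp (mem_filter.mp (mem_coe.mp hu)).1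
      have hu2 := mem_product.mp (mem_filter.mp (mem_coe.mp hu')).1
      have hdis := foot_disjoint B F U x (hcov x)
      have e1 := (mem_filter.mp hu1.1).2
      have e2 := (mem_filter.mp hu1.2).2
      have e3 := (mem_filter.mp hu2.1).2
      have e4 := (mem_filter.mp hu2.2).2
      refine Prod.ext ?_ ?_
      · funext v
        by_cases hv : v ∈ B.foot F U 0 x
        · have := congrFun huu v
          simpa [hv] using this
        · rw [e1 v hv, e3 v hv]
      · funext v
        by_cases hv : v ∈ B.foot F U 1 x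
        · have hv0 : v ∉ B.foot F U 0 x := fun h => disjoint_left.mp hdis h hv
          have := congrFun huu v
          simpa [hv0] using this
        · rw [e2 v hv, e4 v hv]
  -- number of good points
  have hnum : 3 * 2 ^ ℓ ≤ 16 * (Θ \ (BI ∪ BJ)).card := by
    have h1 : Θ.card ≤ (Θ \ (BI ∪ BJ)).card + (BI ∪ BJ).card := card_le_card_sdiff_add_card
    have h2 : (BI ∪ BJ).card ≤ BI.card + BJ.card := card_union_le _ _
    omega
  have hsum : (Θ \ (BI ∪ BJ)).card * (3 * (B.cls F U x).card) ≤ 4 * 2 ^ ℓ *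
      ∑ t ∈ Θ, ((B.cls F U x).filter fun y => (cpoly (hash γ y + w0)).eval t = 0).card := by
    calc (Θ \ (BI ∪ BJ)).card * (3 * (B.cls F U x).card)
        = ∑ _t ∈ Θ \ (BI ∪ BJ), 3 * (B.cls F U x).card := by rw [sum_const, smul_eq_mul]
      _ ≤ ∑ t ∈ Θ \ (BI ∪ BJ), 4 * 2 ^ ℓ *
          ((B.cls F U x).filter fun y => (cpoly (hash γ y + w0)).eval t = 0).card :=
          sum_le_sum hgoodt
      _ = 4 * 2 ^ ℓ * ∑ t ∈ Θ \ (BI ∪ BJ),
          ((B.cls F U x).filter fun y => (cpoly (hash γ y + w0)).eval t = 0).card := by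
          rw [mul_sum]
      _ ≤ _ := Nat.mul_le_mul_left _ (sum_le_sum_of_subset sdiff_subset)
  set SS := ∑ t ∈ Θ, ((B.cls F U x).filter fun y =>
    (cpoly (hash γ y + w0)).eval t = 0).card with hSS
  have h5 : 2 ^ ℓ * (9 * (B.cls F U x).card) ≤ 2 ^ ℓ * (64 * SS) := by
    calc 2 ^ ℓ * (9 * (B.cls F U x).card) = 3 * 2 ^ ℓ * (3 * (B.cls F U x).card) := by ring
      _ ≤ 16 * (Θ \ (BI ∪ BJ)).card * (3 * (B.cls F U x).card) := Nat.mul_le_mul_right _ hnum
      _ = 16 * ((Θ \ (BI ∪ BJ)).card * (3 * (B.cls F U x).card)) := by ring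
      _ ≤ 16 * (4 * 2 ^ ℓ * SS) := Nat.mul_le_mul_left _ hsum
      _ = 2 ^ ℓ * (64 * SS) := by ring
  exact Nat.le_of_mul_le_mul_left h5 (by positivity)

end Part2LowerAux

open Part2LowerAux

open Classical in
theorem part2_lower {K : Type} [Field K] [Fintype K] {m n ℓ T w : ℕ}
    (hK : Fintype.card K = 2 ^ ℓ) (Θ : Finset K) (hΘ : 4 * Θ.card = 2 ^ ℓ)
    (γ : Fin n → Fin m → K) (w0 : Fin m → K) (g : ℕ) (hγ : GoodHash γ (m * ℓ) g)
    (hw0 : (∑ t ∈ Θ, (univ.filter fun x : Inp n =>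
      (cpoly (hash γ x + w0)).eval t = 0).card) * 2 ^ ℓ ≤ Θ.card * 2 ^ n)
    (k E L r e lam s p : ℕ) (hk : 1 ≤ k) (hE : 1 ≤ E) (hL : 1 ≤ L) (hD : 16 ≤ m * ℓ)
    (hT : T + n ≤ k * n) (hr : T + n ≤ r * L)
    (hn : 16 * k * RR k E * (m * ℓ) ≤ n) (hLn : 512 * k ^ 2 * RR k E * L ≤ n)
    (he : 64 * (m * ℓ) ≤ (e + 1) * E)
    (hlam : 64 * typ k E * w ^ r * nsub n e ≤ 2 ^ lam)
    (hs : 256 * typ k E ≤ 2 ^ s) (hp : 1 ≤ p) (hpm : 2 * p ≤ m)
    (hbad : (2048 * p ^ 2) ^ p * 2 ^ (lam + g) ≤ 2 ^ (ℓ * p)) :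
    ¬ SmallErr (fun x : Inp n => decide (∃ t ∈ Θ, (cpoly (hash γ x + w0)).eval t = 0)) T w s := by
  rintro ⟨ρ, P, herr⟩
  set Lt : K → Finset (Inp n) := fun t => univ.filter fun x : Inp n =>
    (cpoly (hash γ x + w0)).eval t = 0 with hLt
  set f : Inp n → Bool := fun x => decide (∃ t ∈ Θ, (cpoly (hash γ x + w0)).eval t = 0) with hf
  set Z0 : Finset (Inp n) := univ.filter fun x => f x = false with hZ0
  have hΘpos : 0 < Θ.card := by
    have : 0 < 2 ^ ℓ := by positivity
    omega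
  have htyp : 1 ≤ typ k E := by
    unfold typ
    have : 0 < 8 * k ^ 3 * (Nat.log 2 (8 * k * RR k E) + 1) := by positivity
    omega
  have hWt : 4 * ∑ t ∈ Θ, (Lt t).card ≤ 2 ^ n := by
    have h1 : Θ.card * (4 * ∑ t ∈ Θ, (Lt t).card) ≤ Θ.card * 2 ^ n := by
      calc Θ.card * (4 * ∑ t ∈ Θ, (Lt t).card) = (∑ t ∈ Θ, (Lt t).card) * (4 * Θ.card) := by ring
        _ = (∑ t ∈ Θ, (Lt t).card) * 2 ^ ℓ := by rw [hΘ]
        _ ≤ Θ.card * 2 ^ n := hw0
    exact Nat.le_of_mul_le_mul_left h1 hΘpos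
  have hone : (univ.filter fun x => f x = true).card ≤ ∑ t ∈ Θ, (Lt t).card := by
    refine le_trans (card_le_card ?_) (card_biUnion_le (s := Θ) (t := Lt))
    intro x hx
    have h1 := (mem_filter.mp hx).2
    rw [hf] at h1
    obtain ⟨t, ht, ht'⟩ := of_decide_eq_true h1
    exact mem_biUnion.mpr ⟨t, ht, mem_filter.mpr ⟨mem_univ _, ht'⟩⟩
  have htot : (univ.filter fun x => f x = true).card + Z0.card = 2 ^ n := by
    have h1 := card_filter_add_card_filter_not (s := (univ : Finset (Inp n)))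
      (fun x => f x = true)
    rw [card_univ, Fintype.card_fun, Fintype.card_bool, Fintype.card_fin] at h1
    rw [← h1]
    congr 2
    refine filter_congr fun x _ => ?_
    cases f x <;> simp
  -- the error of one program
  set err : (Fin ρ → Bool) → ℕ := fun c => (Z0.filter fun x => (P c).eval x = true).card +
    ∑ t ∈ Θ, ((Lt t).filter fun x => (P c).eval x = false).card with herrdef
  have hsumerr : 2 ^ s * ∑ c, err c ≤ (Z0.card + ∑ t ∈ Θ, (Lt t).card) * 2 ^ ρ := by
    have h1 : ∑ c, err c = (∑ x ∈ Z0, (univ.filter fun c => (P c).eval x = true).card) +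
        ∑ t ∈ Θ, ∑ x ∈ Lt t, (univ.filter fun c => (P c).eval x = false).card := by
      rw [herrdef, sum_add_distrib]
      congr 1
      · simp only [card_filter]
        exact sum_comm
      · rw [sum_comm]
        refine sum_congr rfl fun t _ => ?_
        simp only [card_filter]
        exact sum_comm
    have h2 : ∀ x ∈ Z0, 2 ^ s * (univ.filter fun c => (P c).eval x = true).card ≤ 2 ^ ρ := by
      intro x hx
      have h3 := herr x
      have h4 : f x = false := (mem_filter.mp hx).2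
      have h5 : (univ.filter fun c => (P c).eval x = true) =
          univ.filter fun c => (P c).eval x ≠ f x := by
        refine filter_congr fun c _ => ?_
        rw [h4]; cases (P c).eval x <;> simp
      rw [h5, mul_comm]
      exact h3
    have h2' : ∀ t ∈ Θ, ∀ x ∈ Lt t,
        2 ^ s * (univ.filter fun c => (P c).eval x = false).card ≤ 2 ^ ρ := by
      intro t ht x hx
      have h3 := herr x
      have h4 : f x = true := decide_eq_true ⟨t, ht, (mem_filter.mp hx).2⟩
      have h5 : (univ.filter fun c => (P c).eval x = false) =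
          univ.filter fun c => (P c).eval x ≠ f x := by
        refine filter_congr fun c _ => ?_
        rw [h4]; cases (P c).eval x <;> simp
      rw [h5, mul_comm]
      exact h3
    rw [h1, mul_add, mul_sum, mul_sum, add_mul]
    refine Nat.add_le_add ?_ ?_
    · calc ∑ x ∈ Z0, 2 ^ s * (univ.filter fun c => (P c).eval x = true).card
          ≤ ∑ _x ∈ Z0, 2 ^ ρ := sum_le_sum h2
        _ = Z0.card * 2 ^ ρ := by rw [sum_const, smul_eq_mul]
    · rw [sum_mul]
      refine sum_le_sum fun t ht => ?_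
      rw [mul_sum]
      calc ∑ x ∈ Lt t, 2 ^ s * (univ.filter fun c => (P c).eval x = false).card
          ≤ ∑ _x ∈ Lt t, 2 ^ ρ := sum_le_sum (h2' t ht)
        _ = (Lt t).card * 2 ^ ρ := by rw [sum_const, smul_eq_mul]
  have hexc : ∃ c, 4 * 2 ^ s * err c ≤ 5 * 2 ^ n := by
    by_contra hcon
    push Not at hcon
    have h1 : ∑ _c : Fin ρ → Bool, 5 * 2 ^ n < ∑ c, 4 * 2 ^ s * err c :=
      sum_lt_sum_of_nonempty univ_nonempty (fun c _ => hcon c)
    rw [sum_const, smul_eq_mul, card_univ, Fintype.card_fun, Fintype.card_bool,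
      Fintype.card_fin, ← mul_sum] at h1
    have h2 : 4 * 2 ^ s * ∑ c, err c ≤ 5 * 2 ^ n * 2 ^ ρ := by
      calc 4 * 2 ^ s * ∑ c, err c = 4 * (2 ^ s * ∑ c, err c) := by ring
        _ ≤ 4 * ((Z0.card + ∑ t ∈ Θ, (Lt t).card) * 2 ^ ρ) := Nat.mul_le_mul_left _ hsumerr
        _ = (4 * Z0.card + 4 * ∑ t ∈ Θ, (Lt t).card) * 2 ^ ρ := by ring
        _ ≤ (5 * 2 ^ n) * 2 ^ ρ := by
            refine Nat.mul_le_mul_right _ ?_
            omega
    rw [mul_comm] at h1
    omega
  obtain ⟨c, hc⟩ := hexc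
  set X := Z0.filter fun x => (P c).eval x = false with hX
  have hXc : Z0.card ≤ X.card + err c := by
    have h1 := card_filter_add_card_filter_not (s := Z0) (fun x => (P c).eval x = false)
    have h2 : (Z0.filter fun x => ¬ (P c).eval x = false) =
        Z0.filter fun x => (P c).eval x = true := by
      refine filter_congr fun x _ => ?_
      cases (P c).eval x <;> simp
    rw [h2] at h1
    have h3 : (Z0.filter fun x => (P c).eval x = true).card ≤ err c := Nat.le_add_right _ _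
    have h4 : X.card + (Z0.filter fun x => (P c).eval x = true).card = Z0.card := h1
    omega
  have hs5 : 5 ≤ 2 ^ s := by omega
  have hpow : 0 < 2 ^ n := by positivity
  have herr1 : 4 * err c ≤ 2 ^ n := by
    have h1 : 5 * (4 * err c) ≤ 5 * 2 ^ n := by
      calc 5 * (4 * err c) ≤ 2 ^ s * (4 * err c) := Nat.mul_le_mul_right _ hs5
        _ = 4 * 2 ^ s * err c := by ring
        _ ≤ 5 * 2 ^ n := hc
    omega
  have hX4 : 2 ^ n ≤ 4 * X.card := by omega
  have hXpos : 0 < X.card := by omega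
  obtain ⟨B, hread, hcov, hsum, heval⟩ := exists_blockSys (P c) L r hL hr
  have hlam' : 16 * typ k E * w ^ r * nsub n e * 2 ^ n ≤ 2 ^ lam * X.card := by
    calc 16 * typ k E * w ^ r * nsub n e * 2 ^ n
        ≤ 16 * typ k E * w ^ r * nsub n e * (4 * X.card) := Nat.mul_le_mul_left _ hX4
      _ = 64 * typ k E * w ^ r * nsub n e * X.card := by ring
      _ ≤ 2 ^ lam * X.card := Nat.mul_le_mul_right _ hlam
  obtain ⟨F, U, X', hX'X, hX'card, hX'⟩ := ajtai B k E (m * ℓ) L e lam hk hE hD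
    (fun x l => hread x l) hcov (fun x => le_trans (hsum x) hT) hn hLn he X
    (card_pos.mp hXpos) hlam'
  -- the classes
  set Cl := X'.image fun x => B.cls F U x with hCl
  have hrej : ∀ κ ∈ Cl, ∀ y ∈ κ, (P c).eval y = false := by
    intro κ hκ y hy
    obtain ⟨x, hx, rfl⟩ := mem_image.mp hκ
    have h1 : B.tr y r = B.tr x r := (mem_filter.mp hy).2.1 r le_rfl
    rw [heval y x h1]
    exact (mem_filter.mp (hX'X hx)).2
  have hdisj : ∀ κ ∈ Cl, ∀ κ' ∈ Cl, κ ≠ κ' → Disjoint κ κ' := by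
    intro κ hκ κ' hκ' hne
    obtain ⟨x, hx, rfl⟩ := mem_image.mp hκ
    obtain ⟨x', hx', rfl⟩ := mem_image.mp hκ'
    rw [disjoint_left]
    intro y hy hy'
    exact hne ((cls_eq B F U hy).symm.trans (cls_eq B F U hy'))
  have hX'Cl : X'.card ≤ ∑ κ ∈ Cl, κ.card := by
    rw [← card_biUnion hdisj]
    refine card_le_card fun x hx => ?_
    exact mem_biUnion.mpr ⟨B.cls F U x, mem_image_of_mem _ hx, mem_cls_self B F U x⟩
  have hbound : ∀ κ ∈ Cl, 9 * κ.card ≤ 64 * ∑ t ∈ Θ, (κ.filter fun y =>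
      (cpoly (hash γ y + w0)).eval t = 0).card := by
    intro κ hκ
    obtain ⟨x, hx, rfl⟩ := mem_image.mp hκ
    obtain ⟨hA, hB, hKA, hKB⟩ := hX' x hx
    exact class_bound hK Θ hΘ γ w0 g hγ B F U hcov x lam p hA hB hKA hKB hp hpm hbad
  have hfinal : 9 * X'.card ≤ 64 * err c := by
    calc 9 * X'.card ≤ 9 * ∑ κ ∈ Cl, κ.card := Nat.mul_le_mul_left _ hX'Cl
      _ = ∑ κ ∈ Cl, 9 * κ.card := by rw [mul_sum]
      _ ≤ ∑ κ ∈ Cl, 64 * ∑ t ∈ Θ, (κ.filter fun y =>
          (cpoly (hash γ y + w0)).eval t = 0).card := sum_le_sum hbound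
      _ = 64 * ∑ t ∈ Θ, ∑ κ ∈ Cl, (κ.filter fun y =>
          (cpoly (hash γ y + w0)).eval t = 0).card := by rw [← mul_sum, sum_comm]
      _ ≤ 64 * ∑ t ∈ Θ, ((Lt t).filter fun x => (P c).eval x = false).card := by
          refine Nat.mul_le_mul_left _ (sum_le_sum fun t _ => ?_)
          rw [← card_biUnion]
          · refine card_le_card fun y hy => ?_
            obtain ⟨κ, hκ, hy'⟩ := mem_biUnion.mp hy
            have h1 := mem_filter.mp hy'
            exact mem_filter.mpr ⟨mem_filter.mpr ⟨mem_univ _, h1.2⟩, hrej κ hκ y h1.1⟩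
          · intro κ hκ κ' hκ' hne
            exact disjoint_of_subset_left (filter_subset _ _)
              (disjoint_of_subset_right (filter_subset _ _) (hdisj κ hκ κ' hκ' hne))
      _ ≤ 64 * err c := by
          exact Nat.mul_le_mul_left _ (Nat.le_add_left _ _)
  have hX'pos : 0 < X'.card := by
    rcases Nat.eq_zero_or_pos X'.card with h | h
    · rw [h] at hX'card; omega
    · exact h
  have h1 : typ k E * (1024 * err c) ≤ typ k E * (80 * X'.card) := by
    calc typ k E * (1024 * err c) = 4 * (256 * typ k E) * err c := by ring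
      _ ≤ 4 * 2 ^ s * err c := by gcongr
      _ ≤ 5 * 2 ^ n := hc
      _ ≤ 5 * (4 * X.card) := Nat.mul_le_mul_left _ hX4
      _ ≤ 5 * (4 * (4 * typ k E * X'.card)) := by gcongr
      _ = typ k E * (80 * X'.card) := by ring
  have h2 : 1024 * err c ≤ 80 * X'.card := Nat.le_of_mul_le_mul_left h1 htyp
  omega

end Pool.Agent.LT
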