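import Mathlib
import Pool.Agent.Lib.MP_b573ec_lc_LT.Defs2

/-!
# Nondeterministic one-pass programs for the root problem
-/

namespace Pool.Agent.LT

open Finset Polynomial

namespace Part2UpperAux

/-- evaluation of the polynomial with given coefficients -/
noncomputable def ev {K : Type} [Field K] {m : ℕ} (t : K) : (Fin m → K) →+ K where
  toFun c := (cpoly c).eval t
  map_zero' := by simp [cpoly]
  map_add' a b := by
    simp only [cpoly, Pi.add_apply, map_add, add_mul, Finset.sum_add_distrib, eval_add]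

lemma ev_apply {K : Type} [Field K] {m : ℕ} (t : K) (c : Fin m → K) :
    (ev t : (Fin m → K) →+ K) c = (cpoly c).eval t := rfl

/-- partial sums -/
noncomputable def ps {K : Type} [Field K] {m n : ℕ} (γ : Fin n → Fin m → K) (t : K)
    (x : Inp n) (i : ℕ) : K :=
  ∑ v ∈ univ.filter (fun v : Fin n => (v : ℕ) < i), if x v then (cpoly (γ v)).eval t else 0

lemma ps_zero {K : Type} [Field K] {m n : ℕ} (γ : Fin n → Fin m → K) (t : K)
    (x : Inp n) : ps γ t x 0 = 0 := by
  unfold ps
  simp

lemma ps_succ {K : Type} [Field K] {m n : ℕ} (γ : Fin n → Fin m → K) (t : K)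
    (x : Inp n) (i : Fin n) : ps γ t x ((i : ℕ) + 1) =
      ps γ t x i + if x i then (cpoly (γ i)).eval t else 0 := by
  unfold ps
  have h : univ.filter (fun v : Fin n => (v : ℕ) < (i : ℕ) + 1) =
      insert i (univ.filter (fun v : Fin n => (v : ℕ) < (i : ℕ))) := by
    ext v
    simp only [mem_filter, mem_univ, true_and, mem_insert]
    constructor
    · intro h
      rcases Nat.lt_succ_iff_lt_or_eq.1 h with h | h
      · exact Or.inr h
      · exact Or.inl (Fin.ext h)
    · rintro (h | h)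
      · rw [h]; exact Nat.lt_succ_self _
      · exact Nat.lt_succ_of_lt h
  rw [h, Finset.sum_insert (by simp), add_comm]

lemma ps_last {K : Type} [Field K] {m n : ℕ} (γ : Fin n → Fin m → K) (t : K)
    (x : Inp n) : ps γ t x n = (cpoly (hash γ x)).eval t := by
  unfold ps
  rw [← ev_apply]
  unfold hash
  rw [map_sum]
  have h : univ.filter (fun v : Fin n => (v : ℕ) < n) = univ := by
    ext v
    simp
  rw [h]
  refine Finset.sum_congr rfl fun v _ => ?_
  by_cases hv : x v = true
  · simp [hv, ev_apply]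
  · simp [hv]

lemma eval_hash_add {K : Type} [Field K] {m n : ℕ} (γ : Fin n → Fin m → K) (w0 : Fin m → K)
    (t : K) (x : Inp n) :
    (cpoly (hash γ x + w0)).eval t = (cpoly w0).eval t + ps γ t x n := by
  rw [ps_last, ← ev_apply, ← ev_apply, ← ev_apply, map_add, add_comm]

end Part2UpperAux

open Part2UpperAux

open Classical in
theorem part2_upper {K : Type} [Field K] [Fintype K] {m n ℓ : ℕ}
    (hK : Fintype.card K = 2 ^ ℓ) (Θ : Finset K) (γ : Fin n → Fin m → K) (w0 : Fin m → K) :
    NondetOnePass (fun x : Inp n => decide (∃ t ∈ Θ, (cpoly (hash γ x + w0)).eval t = 0))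
      (2 ^ (2 * ℓ)) := by
  have hcard : Fintype.card (K × K) = 2 ^ (2 * ℓ) := by
    rw [Fintype.card_prod, hK, ← pow_add, two_mul]
  let e : K × K ≃ Fin (2 ^ (2 * ℓ)) := Fintype.equivFinOfCardEq hcard
  let P : NProg n n (2 ^ (2 * ℓ)) :=
    { start := fun s => (e.symm s).1 ∈ Θ ∧ (e.symm s).2 = (cpoly w0).eval (e.symm s).1
      var := fun i _ => i
      next := fun i s b s' => (e.symm s').1 = (e.symm s).1 ∧
        (e.symm s').2 = (e.symm s).2 + if b then (cpoly (γ i)).eval (e.symm s).1 else 0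
      acc := fun s => (e.symm s).2 = 0 }
  refine ⟨P, fun i s => rfl, fun x => ?_⟩
  rw [decide_eq_true_iff]
  constructor
  · rintro ⟨t, ht, h0⟩
    refine ⟨fun i => e (t, (cpoly w0).eval t + ps γ t x i), ?_, ?_, ?_⟩
    · change (e.symm (e (t, (cpoly w0).eval t + ps γ t x 0))).1 ∈ Θ ∧
        (e.symm (e (t, (cpoly w0).eval t + ps γ t x 0))).2 =
          (cpoly w0).eval (e.symm (e (t, (cpoly w0).eval t + ps γ t x 0))).1
      rw [Equiv.symm_apply_apply, ps_zero]
      exact ⟨ht, add_zero _⟩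
    · intro i
      change (e.symm (e (t, (cpoly w0).eval t + ps γ t x ((i : ℕ) + 1)))).1 =
        (e.symm (e (t, (cpoly w0).eval t + ps γ t x (i : ℕ)))).1 ∧
        (e.symm (e (t, (cpoly w0).eval t + ps γ t x ((i : ℕ) + 1)))).2 =
        (e.symm (e (t, (cpoly w0).eval t + ps γ t x (i : ℕ)))).2 +
          if x i then (cpoly (γ i)).eval
            (e.symm (e (t, (cpoly w0).eval t + ps γ t x (i : ℕ)))).1 else 0
      rw [Equiv.symm_apply_apply, Equiv.symm_apply_apply, ps_succ]
      exact ⟨rfl, (add_assoc _ _ _).symm⟩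
    · change (e.symm (e (t, (cpoly w0).eval t + ps γ t x n))).2 = 0
      rw [Equiv.symm_apply_apply]
      rw [← eval_hash_add]
      exact h0
  · rintro ⟨p, hs, hn, ha⟩
    have hs' : (e.symm (p 0)).1 ∈ Θ ∧ (e.symm (p 0)).2 = (cpoly w0).eval (e.symm (p 0)).1 := hs
    have hn' : ∀ i : Fin n, (e.symm (p ((i : ℕ) + 1))).1 = (e.symm (p (i : ℕ))).1 ∧
        (e.symm (p ((i : ℕ) + 1))).2 = (e.symm (p (i : ℕ))).2 +
          if x i then (cpoly (γ i)).eval (e.symm (p (i : ℕ))).1 else 0 := hn
    have ha' : (e.symm (p n)).2 = 0 := ha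
    have key : ∀ i ≤ n, (e.symm (p i)).1 = (e.symm (p 0)).1 ∧
        (e.symm (p i)).2 = (cpoly w0).eval (e.symm (p 0)).1 + ps γ (e.symm (p 0)).1 x i := by
      intro i
      induction i with
      | zero =>
        intro _
        rw [ps_zero, add_zero]
        exact ⟨rfl, hs'.2⟩
      | succ i ih =>
        intro hi
        obtain ⟨h1, h2⟩ := ih (Nat.le_of_succ_le hi)
        obtain ⟨h3, h4⟩ := hn' ⟨i, hi⟩
        have h5 := ps_succ γ (e.symm (p 0)).1 x ⟨i, hi⟩
        simp only at h3 h4 h5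
        refine ⟨h3.trans h1, ?_⟩
        rw [h4, h1, h2, h5, add_assoc]
    refine ⟨(e.symm (p 0)).1, hs'.1, ?_⟩
    rw [eval_hash_add, ← (key n le_rfl).2]
    exact ha'

end Pool.Agent.LT
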