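import Pool.Agent.Lib.MP_b573ec_lc_LT.Defs2

/-!
# Averaging over the shift of the hash
-/

namespace Pool.Agent.LT

open Finset Polynomial

namespace ShiftsAux

theorem cpoly_coeff {K : Type} [Field K] {m : ℕ} (c : Fin m → K) (j : ℕ) :
    (cpoly c).coeff j = if h : j < m then c ⟨j, h⟩ else 0 := by
  rw [cpoly, Polynomial.finsetSum_coeff]
  simp only [Polynomial.coeff_C_mul, Polynomial.coeff_X_pow]
  split_ifs with h
  · rw [Finset.sum_eq_single (⟨j, h⟩ : Fin m)]
    · simp
    · intro b _ hb
      rw [if_neg, mul_zero]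
      intro hj
      exact hb (Fin.ext hj.symm)
    · intro h'
      exact absurd (Finset.mem_univ _) h'
  · apply Finset.sum_eq_zero
    intro b _
    rw [if_neg, mul_zero]
    intro hj
    exact h (hj ▸ b.2)

theorem cpoly_injective {K : Type} [Field K] {m : ℕ} :
    Function.Injective (cpoly : (Fin m → K) → K[X]) := by
  intro c d h
  funext i
  have h1 := congrArg (fun p => p.coeff (i : ℕ)) h
  simp only [cpoly_coeff, i.2, dif_pos] at h1
  exact h1

theorem cpoly_of_coeff {K : Type} [Field K] {m : ℕ} (q : K[X]) (hq : ∀ j, m ≤ j → q.coeff j = 0) :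
    cpoly (fun i : Fin m => q.coeff i) = q := by
  ext j
  rw [cpoly_coeff]
  split_ifs with h
  · rfl
  · exact (hq j (not_lt.1 h)).symm

theorem cube_coeff {K : Type} [Field K] {m : ℕ} (c : Fin m → K) (j : ℕ) (hj : 3 * m ≤ j) :
    (cpoly c ^ 3).coeff j = 0 := by
  rcases Nat.eq_zero_or_pos m with h0 | hm
  · subst h0
    have : cpoly c = 0 := by simp [cpoly]
    rw [this]
    simp
  · apply Polynomial.coeff_eq_zero_of_natDegree_lt
    have h1 : (cpoly c).natDegree ≤ m - 1 := by
      rw [Polynomial.natDegree_le_iff_coeff_eq_zero]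
      intro N hN
      rw [cpoly_coeff, dif_neg (by omega)]
    have h2 : (cpoly c ^ 3).natDegree ≤ 3 * (m - 1) :=
      Polynomial.natDegree_pow_le.trans (Nat.mul_le_mul_left 3 h1)
    omega

open Classical in
theorem card_cub' {K : Type} [Field K] [Fintype K] (m : ℕ) :
    (univ.filter fun p : (Fin m → K) × (Fin (3 * m) → K) => Cub p).card = Fintype.card K ^ m := by
  have h : (univ.filter fun p : (Fin m → K) × (Fin (3 * m) → K) => Cub p)
      = univ.image fun c : Fin m → K =>
        (c, fun i : Fin (3 * m) => (cpoly c ^ 3).coeff (i : ℕ)) := by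
    ext ⟨c, d⟩
    simp only [Finset.mem_filter, Finset.mem_univ, true_and, Finset.mem_image, Prod.mk.injEq]
    constructor
    · intro h
      refine ⟨c, rfl, ?_⟩
      apply cpoly_injective
      rw [cpoly_of_coeff _ (cube_coeff c)]
      exact h.symm
    · rintro ⟨c', rfl, rfl⟩
      exact cpoly_of_coeff _ (cube_coeff c')
  rw [h, Finset.card_image_of_injective _ (fun a b hab => (Prod.mk.injEq _ _ _ _ ▸ hab :
    _ ∧ _).1), Finset.card_univ, Fintype.card_fun, Fintype.card_fin]

open Classical in
theorem card_shift_cub {K : Type} [Field K] [Fintype K] (m : ℕ)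
    (z : (Fin m → K) × (Fin (3 * m) → K)) :
    (univ.filter fun w : (Fin m → K) × (Fin (3 * m) → K) => Cub (z + w)).card
      = Fintype.card K ^ m := by
  rw [← card_cub' m]
  apply Finset.card_bij (fun w _ => z + w)
  · intro w hw
    simpa using hw
  · intro a _ b _ h
    exact add_left_cancel h
  · intro p hp
    exact ⟨-z + p, by simpa using hp, by abel⟩

open Classical in
theorem card_root {K : Type} [Field K] [Fintype K] {m : ℕ} (hm : 1 ≤ m) (t : K)
    (z : Fin m → K) :
    (univ.filter fun w : Fin m → K => (cpoly (z + w)).eval t = 0).card * Fintype.card K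
      = Fintype.card K ^ m := by
  set i0 : Fin m := ⟨0, hm⟩ with hi0
  -- the evaluation as a sum
  have hev : ∀ c : Fin m → K, (cpoly c).eval t = ∑ i, c i * t ^ (i : ℕ) := by
    intro c
    rw [cpoly, Polynomial.eval_finsetSum]
    simp
  -- all fibres have the same number of elements
  have hfib : ∀ y : K, (univ.filter fun w : Fin m → K => (cpoly (z + w)).eval t = y).card
      = (univ.filter fun w : Fin m → K => (cpoly (z + w)).eval t = 0).card := by
    intro y
    apply Finset.card_bij (fun w _ => w - Pi.single i0 y)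
    · intro w hw
      simp only [Finset.mem_filter, Finset.mem_univ, true_and] at hw ⊢
      rw [hev] at hw ⊢
      have : ∑ i : Fin m, (z + (w - Pi.single i0 y) : Fin m → K) i * t ^ (i : ℕ)
          = ∑ i : Fin m, (z + w) i * t ^ (i : ℕ)
            - ∑ i : Fin m, (Pi.single i0 y : Fin m → K) i * t ^ (i : ℕ) := by
        rw [← Finset.sum_sub_distrib]
        refine Finset.sum_congr rfl fun i _ => ?_
        simp only [Pi.add_apply, Pi.sub_apply]
        ring
      rw [this, hw, Finset.sum_eq_single i0]
      · simp [hi0]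
      · intro b _ hb
        rw [Pi.single_eq_of_ne hb, zero_mul]
      · intro h
        exact absurd (Finset.mem_univ _) h
    · intro a _ b _ h
      exact sub_left_injective h
    · intro w hw
      refine ⟨w + Pi.single i0 y, ?_, by abel⟩
      simp only [Finset.mem_filter, Finset.mem_univ, true_and] at hw ⊢
      rw [hev] at hw ⊢
      have : ∑ i : Fin m, (z + (w + Pi.single i0 y) : Fin m → K) i * t ^ (i : ℕ)
          = ∑ i : Fin m, (z + w) i * t ^ (i : ℕ)
            + ∑ i : Fin m, (Pi.single i0 y : Fin m → K) i * t ^ (i : ℕ) := by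
        rw [← Finset.sum_add_distrib]
        refine Finset.sum_congr rfl fun i _ => ?_
        simp only [Pi.add_apply]
        ring
      rw [this, hw, Finset.sum_eq_single i0]
      · simp [hi0]
      · intro b _ hb
        rw [Pi.single_eq_of_ne hb, zero_mul]
      · intro h
        exact absurd (Finset.mem_univ _) h
  have hsum := Finset.card_eq_sum_card_fiberwise (s := (univ : Finset (Fin m → K)))
    (t := (univ : Finset K)) (f := fun w => (cpoly (z + w)).eval t) (fun _ _ => Finset.mem_univ _)
  rw [Finset.sum_congr rfl (fun y _ => hfib y), Finset.sum_const, Finset.card_univ,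
    Finset.card_univ, Fintype.card_fun, Fintype.card_fin, smul_eq_mul] at hsum
  rw [hsum, mul_comm]

end ShiftsAux

open ShiftsAux

open Classical in
theorem exists_shift1 {K : Type} [Field K] [Fintype K] {m n ℓ : ℕ}
    (hK : Fintype.card K = 2 ^ ℓ) (γ : Fin n → (Fin m → K) × (Fin (3 * m) → K)) :
    ∃ w0, 2 ^ n ≤ (univ.filter fun x : Inp n => Cub (hash γ x + w0)).card * 2 ^ (3 * m * ℓ) := by
  have hsum : ∑ w0 : (Fin m → K) × (Fin (3 * m) → K),
      (univ.filter fun x : Inp n => Cub (hash γ x + w0)).card = 2 ^ n * Fintype.card K ^ m := by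
    simp only [Finset.card_filter]
    rw [Finset.sum_comm]
    simp only [← Finset.card_filter]
    rw [Finset.sum_congr rfl fun x _ => card_shift_cub m (hash γ x), Finset.sum_const,
      Finset.card_univ, Fintype.card_fun, Fintype.card_fin, Fintype.card_bool, smul_eq_mul]
  have hle : ∑ w0 : (Fin m → K) × (Fin (3 * m) → K), 2 ^ n
      ≤ ∑ w0 : (Fin m → K) × (Fin (3 * m) → K),
      (univ.filter fun x : Inp n => Cub (hash γ x + w0)).card * 2 ^ (3 * m * ℓ) := by
    rw [← Finset.sum_mul, hsum, Finset.sum_const, Finset.card_univ, Fintype.card_prod,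
      Fintype.card_fun, Fintype.card_fun, Fintype.card_fin, Fintype.card_fin, hK, smul_eq_mul]
    refine le_of_eq ?_
    rw [← pow_mul, ← pow_mul]
    rw [mul_comm (2 ^ n), mul_assoc, mul_assoc]
    congr 1
    rw [mul_comm (2 ^ n)]
    congr 2
    ring
  obtain ⟨w0, _, hw⟩ := Finset.exists_le_of_sum_le (Finset.univ_nonempty) hle
  exact ⟨w0, hw⟩

open Classical in
theorem exists_shift2 {K : Type} [Field K] [Fintype K] {m n : ℕ} (hm : 1 ≤ m) (Θ : Finset K)
    (γ : Fin n → Fin m → K) :
    ∃ w0 : Fin m → K, (∑ t ∈ Θ, (univ.filter fun x : Inp n =>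
      (cpoly (hash γ x + w0)).eval t = 0).card) * Fintype.card K ≤ Θ.card * 2 ^ n := by
  have hle : ∑ w0 : Fin m → K, (∑ t ∈ Θ, (univ.filter fun x : Inp n =>
      (cpoly (hash γ x + w0)).eval t = 0).card) * Fintype.card K
      ≤ ∑ _w0 : Fin m → K, Θ.card * 2 ^ n := by
    refine le_of_eq ?_
    rw [← Finset.sum_mul, Finset.sum_comm]
    have h1 : ∀ t ∈ Θ, ∑ w0 : Fin m → K, (univ.filter fun x : Inp n =>
        (cpoly (hash γ x + w0)).eval t = 0).card
        = ∑ x : Inp n, (univ.filter fun w0 : Fin m → K =>
          (cpoly (hash γ x + w0)).eval t = 0).card := by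
      intro t _
      simp only [Finset.card_filter]
      rw [Finset.sum_comm]
    rw [Finset.sum_congr rfl h1, Finset.sum_mul]
    have h2 : ∀ t ∈ Θ, (∑ x : Inp n, (univ.filter fun w0 : Fin m → K =>
          (cpoly (hash γ x + w0)).eval t = 0).card) * Fintype.card K
          = 2 ^ n * Fintype.card K ^ m := by
      intro t _
      rw [Finset.sum_mul, Finset.sum_congr rfl fun x _ => card_root hm t (hash γ x),
        Finset.sum_const, Finset.card_univ, Fintype.card_fun, Fintype.card_fin,
        Fintype.card_bool, smul_eq_mul]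
    rw [Finset.sum_congr rfl h2, Finset.sum_const, Finset.sum_const, Finset.card_univ,
      Fintype.card_fun, Fintype.card_fin, smul_eq_mul, smul_eq_mul]
    ring
  obtain ⟨w0, _, hw⟩ := Finset.exists_le_of_sum_le (Finset.univ_nonempty) hle
  exact ⟨w0, hw⟩

end Pool.Agent.LT
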