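import Pool.Agent.Lib.MP_b573ec_lc_LT.Part1Lower
import Pool.Agent.Lib.MP_b573ec_lc_LT.Part2Lower
import Pool.Agent.Lib.MP_b573ec_lc_LT.Part1Upper
import Pool.Agent.Lib.MP_b573ec_lc_LT.Part2Upper
import Pool.Agent.Lib.MP_b573ec_lc_LT.Shifts
import Pool.Agent.Lib.MP_b573ec_lc_LT.Majority
import Pool.Agent.Lib.MP_b573ec_lc_LT.Gamma
import Pool.Agent.Lib.MP_b573ec_lc_LT.Numeric

/-!
# The two separations
-/

namespace Pool.Agent.LT

open Finset Polynomial

namespace FinalAux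

/-- a program may be prolonged by useless steps -/
lemma exists_longer {n T T' w : ℕ} (hn : 1 ≤ n) (hTT : T ≤ T') (P : Prog n T w) :
    ∃ P' : Prog n T' w, ∀ x, P'.eval x = P.eval x := by
  let P' : Prog n T' w :=
    { start := P.start
      var := fun i s => if h : (i : ℕ) < T then P.var ⟨i, h⟩ s else ⟨0, hn⟩
      next := fun i s b => if h : (i : ℕ) < T then P.next ⟨i, h⟩ s b else s
      acc := P.acc }
  refine ⟨P', fun x => ?_⟩
  have h1 : ∀ i, P'.state x i = P.state x i := by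
    intro i
    induction i with
    | zero => rfl
    | succ i ih =>
      simp only [Prog.state, ih]
      by_cases h : i < T
      · have h' : i < T' := lt_of_lt_of_le h hTT
        simp [h, h', P']
      · by_cases h' : i < T'
        · simp [h, h', P']
        · simp [h, h']
  have h2 : ∀ i, P.state x (T + i) = P.state x T := by
    intro i
    induction i with
    | zero => rfl
    | succ i ih =>
      rw [← add_assoc]
      show (if h : T + i < T then _ else P.state x (T + i)) = _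
      rw [dif_neg (by omega), ih]
  show P.acc (P'.state x T') = P.acc (P.state x T)
  rw [h1 T']
  obtain ⟨d, rfl⟩ := Nat.exists_eq_add_of_le hTT
  rw [h2 d]

lemma twoSided_longer {n T T' w : ℕ} (hn : 1 ≤ n) (hTT : T ≤ T') {f : Inp n → Bool}
    (h : TwoSided f T w) : TwoSided f T' w := by
  obtain ⟨ρ, P, hP⟩ := h
  choose P' hP' using fun c => exists_longer hn hTT (P c)
  refine ⟨ρ, P', fun x => ?_⟩
  simp only [hP']
  exact hP x

lemma oneSided_longer {n T T' w : ℕ} (hn : 1 ≤ n) (hTT : T ≤ T') {f : Inp n → Bool}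
    (h : OneSided f T w) : OneSided f T' w := by
  obtain ⟨ρ, P, hP, hP0⟩ := h
  choose P' hP' using fun c => exists_longer hn hTT (P c)
  refine ⟨ρ, P', fun x hx => ?_, fun x hx c => ?_⟩
  · simp only [hP']
    exact hP x hx
  · rw [hP']
    exact hP0 x hx c

/-- a deterministic program for `f` gives one for the complement -/
lemma det_compl {n T w : ℕ} {f : Inp n → Bool} (h : Det f T w) :
    OneSided (fun x => !f x) T w := by
  obtain ⟨P, hP⟩ := h
  let P' : Prog n T w :=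
    { start := P.start, var := P.var, next := P.next, acc := fun s => !P.acc s }
  have h1 : ∀ x i, P'.state x i = P.state x i := by
    intro x i
    induction i with
    | zero => rfl
    | succ i ih => simp only [Prog.state, ih, P']
  have h2 : ∀ x, P'.eval x = !f x := by
    intro x
    rw [← hP x]
    show (!P.acc (P'.state x T)) = !P.acc (P.state x T)
    rw [h1]
  refine ⟨0, fun _ => P', fun x hx => ?_, fun x hx c => ?_⟩
  · have h3 : (univ.filter fun _c : Fin 0 → Bool => P'.eval x = true).card = 1 := by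
      rw [filter_true_of_mem (fun c _ => by rw [h2]; exact hx)]
      simp
    rw [h3]
    norm_num
  · rw [h2]
    exact hx

end FinalAux

open FinalAux

theorem resultQ1 : ∃ C : ℕ, ∀ n k S : ℕ, 1 ≤ k → 1 ≤ S → S * 2 ^ (C * k ^ 4) ≤ n →
    ∃ f : Inp n → Bool, (∃ w ≤ n ^ 10, OneSidedOnePass f w) ∧
      ∀ T w, T ≤ k * n → w ≤ 2 ^ S → ¬ OneSided (fun x => !f x) T w ∧ ¬ Det f T w := by
  classical
  obtain ⟨C1, hC1⟩ := numeric
  refine ⟨16 * C1, fun n k S hk hS hn => ?_⟩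
  have hk4 : (k + 1) ^ 4 ≤ 16 * k ^ 4 := by
    calc (k + 1) ^ 4 ≤ (2 * k) ^ 4 := Nat.pow_le_pow_left (by omega) 4
      _ = 16 * k ^ 4 := by ring
  have hn' : S * 2 ^ (C1 * (k + 1) ^ 4) ≤ n := by
    refine le_trans (Nat.mul_le_mul_left _ (Nat.pow_le_pow_right (by norm_num) ?_)) hn
    calc C1 * (k + 1) ^ 4 ≤ C1 * (16 * k ^ 4) := Nat.mul_le_mul_left _ hk4
      _ = 16 * C1 * k ^ 4 := by ring
  obtain ⟨E, L, r, e, m, ℓ, lam, g, p, hE, htyp, hL, hml, hrL, hRR, hLL, he, hlam, hbig, hg,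
    h6m, hw, hℓ, hp, hpm, hbad⟩ := hC1 (k + 1) n S (by omega) hS hn'
  haveI : Fact (Nat.Prime 2) := ⟨Nat.prime_two⟩
  let K := GaloisField 2 ℓ
  haveI : Fintype K := Fintype.ofFinite K
  have hK : Fintype.card K = 2 ^ ℓ := by
    rw [← Nat.card_eq_fintype_card]
    exact GaloisField.card 2 ℓ (by omega)
  have hWc : Fintype.card ((Fin m → K) × (Fin (3 * m) → K)) = 2 ^ (4 * m * ℓ) := by
    rw [Fintype.card_prod, Fintype.card_fun, Fintype.card_fun, Fintype.card_fin,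
      Fintype.card_fin, hK, ← pow_mul, ← pow_mul, ← pow_add]
    congr 1
    ring
  have hg4 : n < 4 * m * ℓ * g := by
    calc n < m * ℓ * g := hg
      _ ≤ 4 * (m * ℓ * g) := by omega
      _ = 4 * m * ℓ * g := by ring
  obtain ⟨γ, hγ⟩ := exists_gamma (W := (Fin m → K) × (Fin (3 * m) → K)) n (4 * m * ℓ) g hWc hg4
  obtain ⟨w0, hw0⟩ := exists_shift1 hK γ
  refine ⟨fun x => decide (¬ Cub (hash γ x + w0)), ⟨2 ^ (2 * ℓ), hw, ?_⟩, ?_⟩
  · exact part1_upper hK h6m γ w0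
  · intro T w hT hwS
    have key : ¬ OneSided (fun x : Inp n => decide (Cub (hash γ x + w0))) T w := by
      refine part1_lower hK γ w0 g hγ hw0 (k + 1) E L r e (3 * m * ℓ + lam) (by omega) hE hL
        ?_ ?_ ?_ hRR hLL he ?_ ?_
      · calc 16 ≤ m * ℓ := hml
          _ ≤ 4 * (m * ℓ) := by omega
          _ = 4 * m * ℓ := by ring
      · calc T + n ≤ k * n + n := by omega
          _ = (k + 1) * n := by ring
      · calc T + n ≤ k * n + n := by omega
          _ = (k + 1) * n := by ring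
          _ ≤ r * L := hrL
      · calc 32 * typ (k + 1) E * w ^ r * nsub n e * 2 ^ (3 * m * ℓ)
            ≤ 64 * typ (k + 1) E * (2 ^ S) ^ r * nsub n e * 2 ^ (3 * m * ℓ) := by
              gcongr
              norm_num
          _ = 64 * typ (k + 1) E * 2 ^ (S * r) * nsub n e * 2 ^ (3 * m * ℓ) := by
              rw [← pow_mul]
          _ ≤ 2 ^ lam * 2 ^ (3 * m * ℓ) := Nat.mul_le_mul_right _ hlam
          _ = 2 ^ (3 * m * ℓ + lam) := by rw [← pow_add, add_comm]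
      · calc 3 * m * ℓ + lam + g + 2 = 3 * m * ℓ + (lam + g + 2) := by ring
          _ ≤ 3 * m * ℓ + m * ℓ := by omega
          _ = 4 * m * ℓ := by ring
    have hcompl : (fun x : Inp n => !(fun x => decide (¬ Cub (hash γ x + w0))) x) =
        fun x : Inp n => decide (Cub (hash γ x + w0)) := by
      funext x
      by_cases h : Cub (hash γ x + w0) <;> simp [h]
    constructor
    · rw [hcompl]
      exact key
    · intro hdet
      have := det_compl hdet
      rw [hcompl] at this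
      exact key this

theorem resultQ2 : ∃ C : ℕ, ∀ n k S : ℕ, 1 ≤ k → 1 ≤ S → S * 2 ^ (C * k ^ 8) ≤ n →
    ∃ f : Inp n → Bool, (∃ w ≤ n ^ 10, NondetOnePass f w) ∧
      ∀ T w, T ≤ k * n → w ≤ 2 ^ S → ¬ TwoSided f T w ∧ ¬ OneSided f T w := by
  classical
  obtain ⟨C1, hC1⟩ := numeric
  refine ⟨20 + C1 * 2401 ^ 4, fun n k S hk hS hn => ?_⟩
  set k0 := 2400 * k ^ 2 + 1 with hk0
  set S0 := S + 12 + k with hS0
  have hkk : k ≤ 2 ^ k := Nat.lt_two_pow_self.le
  have hk2 : 1 ≤ k ^ 2 := Nat.one_le_pow _ _ hk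
  have hk0le : k0 ≤ 2401 * k ^ 2 := by omega
  have hk8 : k ≤ k ^ 8 := by
    calc k = k ^ 1 := by ring
      _ ≤ k ^ 8 := Nat.pow_le_pow_right hk (by norm_num)
  have hk04 : k0 ^ 4 ≤ 2401 ^ 4 * k ^ 8 := by
    calc k0 ^ 4 ≤ (2401 * k ^ 2) ^ 4 := Nat.pow_le_pow_left hk0le 4
      _ = 2401 ^ 4 * k ^ 8 := by ring
  have hS0le : S0 ≤ S * 2 ^ (20 * k ^ 8) := by
    have h1 : S0 ≤ S * (14 * 2 ^ k) := by
      have h2 : 1 ≤ 2 ^ k := Nat.one_le_two_pow
      nlinarith
    have h3 : 14 * 2 ^ k ≤ 2 ^ (20 * k ^ 8) := by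
      calc 14 * 2 ^ k ≤ 2 ^ 4 * 2 ^ k := Nat.mul_le_mul_right _ (by norm_num)
        _ = 2 ^ (4 + k) := by rw [pow_add]
        _ ≤ 2 ^ (20 * k ^ 8) := Nat.pow_le_pow_right (by norm_num) (by omega)
    exact le_trans h1 (Nat.mul_le_mul_left _ h3)
  have hn' : S0 * 2 ^ (C1 * k0 ^ 4) ≤ n := by
    calc S0 * 2 ^ (C1 * k0 ^ 4) ≤ S * 2 ^ (20 * k ^ 8) * 2 ^ (C1 * (2401 ^ 4 * k ^ 8)) := by
          refine Nat.mul_le_mul hS0le (Nat.pow_le_pow_right (by norm_num) ?_)
          exact Nat.mul_le_mul_left _ hk04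
      _ = S * 2 ^ ((20 + C1 * 2401 ^ 4) * k ^ 8) := by
          rw [mul_assoc, ← pow_add]
          congr 2
          ring
      _ ≤ n := hn
  have hn1 : 1 ≤ n := by
    have : 0 < S0 * 2 ^ (C1 * k0 ^ 4) := by positivity
    omega
  obtain ⟨E, L, r, e, m, ℓ, lam, g, p, hE, htyp, hL, hml, hrL, hRR, hLL, he, hlam, hbig, hg,
    h6m, hw, hℓ, hp, hpm, hbad⟩ := hC1 k0 n S0 (by omega) (by omega) hn'
  haveI : Fact (Nat.Prime 2) := ⟨Nat.prime_two⟩
  let K := GaloisField 2 ℓ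
  haveI : Fintype K := Fintype.ofFinite K
  have hK : Fintype.card K = 2 ^ ℓ := by
    rw [← Nat.card_eq_fintype_card]
    exact GaloisField.card 2 ℓ (by omega)
  have hWc : Fintype.card (Fin m → K) = 2 ^ (m * ℓ) := by
    rw [Fintype.card_fun, Fintype.card_fin, hK, ← pow_mul, mul_comm]
  obtain ⟨γ, hγ⟩ := exists_gamma (W := Fin m → K) n (m * ℓ) g hWc hg
  have h4 : 4 * 2 ^ (ℓ - 2) = 2 ^ ℓ := by
    calc 4 * 2 ^ (ℓ - 2) = 2 ^ 2 * 2 ^ (ℓ - 2) := by norm_num
      _ = 2 ^ ℓ := by rw [← pow_add]; congr 1; omega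
  obtain ⟨Θ, hΘ1, hΘ2⟩ := exists_subset_card_eq (s := (univ : Finset K)) (n := 2 ^ (ℓ - 2))
    (by rw [card_univ, hK]; omega)
  have hΘ : 4 * Θ.card = 2 ^ ℓ := by rw [hΘ2, h4]
  obtain ⟨w0, hw0⟩ := exists_shift2 (n := n) (by omega : 1 ≤ m) Θ γ
  rw [hK] at hw0
  refine ⟨fun x => decide (∃ t ∈ Θ, (cpoly (hash γ x + w0)).eval t = 0),
    ⟨2 ^ (2 * ℓ), hw, part2_upper hK Θ γ w0⟩, ?_⟩
  intro T w hT hwS
  have hs : 256 * typ k0 E ≤ 2 ^ (200 * k) := by
    have h1 : k0 ^ 7 ≤ 2 ^ 84 * (2 ^ k) ^ 14 := by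
      calc k0 ^ 7 ≤ (2401 * k ^ 2) ^ 7 := Nat.pow_le_pow_left hk0le 7
        _ ≤ (2 ^ 12 * k ^ 2) ^ 7 := by gcongr; norm_num
        _ = 2 ^ 84 * k ^ 14 := by ring
        _ ≤ 2 ^ 84 * (2 ^ k) ^ 14 := by gcongr
    calc 256 * typ k0 E ≤ 256 * (2 ^ 20 * k0 ^ 7) := Nat.mul_le_mul_left _ htyp
      _ ≤ 256 * (2 ^ 20 * (2 ^ 84 * (2 ^ k) ^ 14)) := by gcongr
      _ = 2 ^ (112 + k * 14) := by
          rw [← pow_mul, pow_add]
          norm_num
          ring
      _ ≤ 2 ^ (200 * k) := Nat.pow_le_pow_right (by norm_num) (by omega)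
  have key : ¬ SmallErr (fun x : Inp n => decide (∃ t ∈ Θ, (cpoly (hash γ x + w0)).eval t = 0))
      (12 * (200 * k) * (k * n)) (w * (12 * (200 * k) + 1)) (200 * k) := by
    have hTn : 12 * (200 * k) * (k * n) + n = k0 * n := by
      rw [hk0]; ring
    refine part2_lower hK Θ hΘ γ w0 g hγ hw0 k0 E L r e lam (200 * k) p (by omega) hE hL hml
      hTn.le ?_ ?_ hLL ?_ ?_ hs hp hpm hbad
    · rw [hTn]; exact hrL
    · refine le_trans ?_ hRR
      refine Nat.mul_le_mul_left _ ?_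
      calc m * ℓ ≤ 4 * (m * ℓ) := by omega
        _ = 4 * m * ℓ := by ring
    · refine le_trans ?_ he
      refine Nat.mul_le_mul_left _ ?_
      calc m * ℓ ≤ 4 * (m * ℓ) := by omega
        _ = 4 * m * ℓ := by ring
    · have hww : w * (12 * (200 * k) + 1) ≤ 2 ^ S0 := by
        calc w * (12 * (200 * k) + 1) ≤ 2 ^ S * (2 ^ 12 * 2 ^ k) := by
              refine Nat.mul_le_mul hwS ?_
              have : 1 ≤ 2 ^ k := Nat.one_le_two_pow
              omega
          _ = 2 ^ S0 := by rw [hS0, pow_add, pow_add]; ring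
      calc 64 * typ k0 E * (w * (12 * (200 * k) + 1)) ^ r * nsub n e
          ≤ 64 * typ k0 E * (2 ^ S0) ^ r * nsub n e := by gcongr
        _ = 64 * typ k0 E * 2 ^ (S0 * r) * nsub n e := by rw [← pow_mul]
        _ ≤ 2 ^ lam := hlam
  have hkn : 1 ≤ k * n := Nat.mul_pos hk hn1
  constructor
  · intro h
    exact key (majority hkn (by omega) _ (twoSided_longer hn1 hT h))
  · intro h
    exact key (one_amp hkn (by omega) _ (oneSided_longer hn1 hT h))

end Pool.Agent.LT
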