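import Pool.Agent.Lib.MP_b573ec_lc_LT.Common
import Pool.Agent.Lib.MP_b573ec_lc_LT.Ajtai
import Pool.Agent.Lib.MP_b573ec_lc_LT.Blocks
import Pool.Agent.Lib.MP_b573ec_lc_LT.Cubic

/-!
# Lower bound for the cubic relation
-/

namespace Pool.Agent.LT

open Finset Polynomial

open Classical in
theorem part1_lower {K : Type} [Field K] [Fintype K] [CharP K 2] {m n ℓ T w : ℕ}
    (hK : Fintype.card K = 2 ^ ℓ) (γ : Fin n → (Fin m → K) × (Fin (3 * m) → K))
    (w0 : (Fin m → K) × (Fin (3 * m) → K)) (g : ℕ) (hγ : GoodHash γ (4 * m * ℓ) g)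
    (hw0 : 2 ^ n ≤ (univ.filter fun x : Inp n => Cub (hash γ x + w0)).card * 2 ^ (3 * m * ℓ))
    (k E L r e lam : ℕ) (hk : 1 ≤ k) (hE : 1 ≤ E) (hL : 1 ≤ L) (hD : 16 ≤ 4 * m * ℓ)
    (hT : T + n ≤ k * n) (hr : T + n ≤ r * L)
    (hn : 16 * k * RR k E * (4 * m * ℓ) ≤ n) (hLn : 512 * k ^ 2 * RR k E * L ≤ n)
    (he : 64 * (4 * m * ℓ) ≤ (e + 1) * E)
    (hlam : 32 * typ k E * w ^ r * nsub n e * 2 ^ (3 * m * ℓ) ≤ 2 ^ lam)
    (hbig : lam + g + 2 ≤ 4 * m * ℓ) :
    ¬ OneSided (fun x : Inp n => decide (Cub (hash γ x + w0))) T w := by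
  rintro ⟨ρ, P, hacc, hrej⟩
  set C : Finset (Inp n) := univ.filter fun x : Inp n => Cub (hash γ x + w0) with hC
  -- fix the coins
  have havg : ∃ c, C.card ≤ 2 * (C.filter fun x => (P c).eval x = true).card := by
    by_contra hcon
    push Not at hcon
    have h1 : ∑ c : Fin ρ → Bool, 2 * (C.filter fun x => (P c).eval x = true).card <
        ∑ _c : Fin ρ → Bool, C.card :=
      sum_lt_sum_of_nonempty univ_nonempty (fun c _ => hcon c)
    have h2 : ∑ c : Fin ρ → Bool, 2 * (C.filter fun x => (P c).eval x = true).card =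
        ∑ x ∈ C, 2 * (univ.filter fun c : Fin ρ → Bool => (P c).eval x = true).card := by
      rw [← mul_sum, ← mul_sum]
      congr 1
      simp only [card_filter]
      exact sum_comm
    have h3 : ∑ x ∈ C, 2 ^ ρ ≤
        ∑ x ∈ C, 2 * (univ.filter fun c : Fin ρ → Bool => (P c).eval x = true).card := by
      refine sum_le_sum fun x hx => hacc x ?_
      rw [decide_eq_true_iff]
      exact (mem_filter.mp hx).2
    rw [h2] at h1
    simp only [sum_const, smul_eq_mul, card_univ, Fintype.card_fun, Fintype.card_bool,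
      Fintype.card_fin] at h1 h3
    have : C.card * 2 ^ ρ < 2 ^ ρ * C.card := lt_of_le_of_lt h3 h1
    rw [mul_comm] at this
    exact lt_irrefl _ this
  obtain ⟨c, hc⟩ := havg
  set X := C.filter fun x => (P c).eval x = true with hX
  have hCpos : 0 < C.card := by
    rcases Nat.eq_zero_or_pos C.card with h | h
    · rw [h, zero_mul] at hw0
      have : 0 < 2 ^ n := by positivity
      omega
    · exact h
  have hXpos : 0 < X.card := by omega
  obtain ⟨B, hread, hcov, hsum, heval⟩ := exists_blockSys (P c) L r hL hr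
  have hlam' : 16 * typ k E * w ^ r * nsub n e * 2 ^ n ≤ 2 ^ lam * X.card := by
    calc 16 * typ k E * w ^ r * nsub n e * 2 ^ n
        ≤ 16 * typ k E * w ^ r * nsub n e * (C.card * 2 ^ (3 * m * ℓ)) :=
          Nat.mul_le_mul_left _ hw0
      _ ≤ 16 * typ k E * w ^ r * nsub n e * ((2 * X.card) * 2 ^ (3 * m * ℓ)) := by gcongr
      _ = 32 * typ k E * w ^ r * nsub n e * 2 ^ (3 * m * ℓ) * X.card := by ring
      _ ≤ 2 ^ lam * X.card := Nat.mul_le_mul_right _ hlam
  obtain ⟨F, U, X', hX'X, hX'card, hX'⟩ := ajtai B k E (4 * m * ℓ) L e lam hk hE hD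
    (fun x l => hread x l) hcov (fun x => le_trans (hsum x) hT) hn hLn he X
    (card_pos.mp hXpos) hlam'
  have hX'pos : 0 < X'.card := by
    rcases Nat.eq_zero_or_pos X'.card with h | h
    · rw [h] at hX'card; omega
    · exact h
  obtain ⟨x, hx⟩ := card_pos.mp hX'pos
  obtain ⟨hA, hB, hKA, hKB⟩ := hX' x hx
  have hxX := hX'X hx
  have hxacc : (P c).eval x = true := (mem_filter.mp hxX).2
  have hcls : ∀ y ∈ B.cls F U x, Cub (hash γ y + w0) := by
    intro y hy
    have h1 : B.tr y r = B.tr x r := (mem_filter.mp hy).2.1 r le_rfl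
    have h2 : (P c).eval y = true := by rw [heval y x h1, hxacc]
    by_contra hcon
    have := hrej y (by rw [decide_eq_false_iff_not]; exact hcon) c
    rw [h2] at this
    exact Bool.noConfusion this
  have hcardS : ∀ S : Finset ((Fin m → K) × (Fin (3 * m) → K)),
      2 ^ (4 * m * ℓ) ≤ S.card * 2 ^ (lam + g) → 4 ≤ S.card := by
    intro S hS
    have h1 : 4 * 2 ^ (lam + g) ≤ S.card * 2 ^ (lam + g) := by
      calc 4 * 2 ^ (lam + g) = 2 ^ (lam + g + 2) := by rw [pow_add]; ring
        _ ≤ 2 ^ (4 * m * ℓ) := Nat.pow_le_pow_right (by norm_num) hbig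
        _ ≤ S.card * 2 ^ (lam + g) := hS
    exact Nat.le_of_mul_le_mul_right h1 (by positivity)
  have hS0 := hcardS _ (many_values γ (4 * m * ℓ) g lam hγ (B.foot F U 0 x) hA x
    (B.side F U 0 x) (fun y hy => (mem_filter.mp hy).2) hKA)
  have hS1 := hcardS _ (many_values γ (4 * m * ℓ) g lam hγ (B.foot F U 1 x) hB x
    (B.side F U 1 x) (fun y hy => (mem_filter.mp hy).2) hKB)
  obtain ⟨a0, ha0, a1, ha1, a2, ha2, h01, h02, h12⟩ := two_lt_card.mp (by omega :
    2 < ((B.side F U 0 x).image (hash γ)).card)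
  obtain ⟨b0, hb0, b1, hb1, hb01⟩ := one_lt_card.mp (by omega :
    1 < ((B.side F U 1 x).image (hash γ)).card)
  have hcub : ∀ a ∈ (B.side F U 0 x).image (hash γ), ∀ b ∈ (B.side F U 1 x).image (hash γ),
      Cub (a + (b - hash γ x + w0)) := by
    intro a ha b hb
    obtain ⟨y, hy, rfl⟩ := mem_image.mp ha
    obtain ⟨z, hz, rfl⟩ := mem_image.mp hb
    obtain ⟨u, hu, hu'⟩ := cls_mix γ B F U hcov x y z hy hz
    have := hcls u hu
    rw [hu', add_assoc] at this
    exact this
  have hav : ∀ i, (![a0, a1, a2] : Fin 3 → _) i ∈ (B.side F U 0 x).image (hash γ) := by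
    intro i
    fin_cases i
    exacts [ha0, ha1, ha2]
  have hbv : ∀ j, (![b0, b1] : Fin 2 → _) j ∈ (B.side F U 1 x).image (hash γ) := by
    intro j
    fin_cases j
    exacts [hb0, hb1]
  have hai : Function.Injective (![a0, a1, a2] : Fin 3 → _) := by
    intro i j hij
    fin_cases i <;> fin_cases j
    · rfl
    · exact absurd hij h01
    · exact absurd hij h02
    · exact absurd hij.symm h01
    · rfl
    · exact absurd hij h12
    · exact absurd hij.symm h02
    · exact absurd hij.symm h12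
    · rfl
  have hbi : Function.Injective (![b0, b1] : Fin 2 → _) := by
    intro i j hij
    fin_cases i <;> fin_cases j
    · rfl
    · exact absurd hij hb01
    · exact absurd hij.symm hb01
    · rfl
  refine cub_rect (![a0, a1, a2] : Fin 3 → _)
    (fun j => (![b0, b1] : Fin 2 → _) j - hash γ x + w0) hai ?_ ?_
  · intro i j hij
    refine hbi ?_
    simpa using hij
  · intro i j
    exact hcub _ (hav i) _ (hbv j)

end Pool.Agent.LT
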